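import Pool.Agent.Lib.MP_b1acb3_co.Leaf.Defs
import Pool.Agent.Lib.MP_b1acb3_co.Uni.Stmts
import Pool.Agent.Lib.MP_b1acb3_co.Cyc.Exact
import Pool.Agent.Lib.MP_b1acb3_co.Pos

/-!
Basic lemmas for the classification of graphs with a leaf.
-/

namespace Pool.Agent.Lib.MP_b1acb3_co.Leaf

open Finset Uni

variable {n K : ℕ} {c : Sym2 (Fin n) → Fin K} {B : Fin K → Matrix (Fin n) (Fin n) ℝ} {δ δ' : ℝ}

theorem Env.mono (h : Env c B δ) (hδ : δ ≤ δ') : Env c B δ' :=
  ⟨h.exact, fun k i j => (h.upper k i j).trans (by linarith)⟩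

theorem Env.lower (h : Env c B δ) (hδ : 0 ≤ δ) (k : Fin K) (i j : Fin n) :
    (if c s(i, j) = k then (1 : ℝ) else 0) ≤ B k i j + K * δ := by
  by_cases hk : c s(i, j) = k
  · rw [if_pos hk]
    have h1 := h.exact.tot i j
    rw [← add_sum_erase univ _ (mem_univ k)] at h1
    have h2 : ∑ k' ∈ univ.erase k, B k' i j ≤ ∑ _k' ∈ univ.erase k, δ := by
      apply sum_le_sum
      intro k' hk'
      have h3 := h.upper k' i j
      rw [if_neg (by
        rw [hk]
        exact (ne_of_mem_erase hk').symm)] at h3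
      linarith
    rw [sum_const, nsmul_eq_mul] at h2
    have h4 : ((univ.erase k).card : ℝ) ≤ K := by
      have := card_le_univ (univ.erase k)
      rw [Fintype.card_fin] at this
      exact_mod_cast this
    have h5 := mul_le_mul_of_nonneg_right h4 hδ
    linarith
  · rw [if_neg hk]
    have := h.exact.nonneg k i j
    positivity

theorem card_nbr (c : Sym2 (Fin n) → Fin K) (i : Fin n) (k : Fin K) :
    (nbr c i k).card = colourDegree c i k := rfl

/-- Upper bound for the degrees. -/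
theorem Env.deg_le (h : Env c B δ) (hδ : 0 ≤ δ) (i : Fin n) (k : Fin K) :
    (colourDegree c i k : ℝ) ≤ (n : ℝ) / K + n * (K * δ) := by
  have h1 : (colourDegree c i k : ℝ) ≤ ∑ j, (if c s(i, j) = k then (1 : ℝ) else 0) := by
    rw [sum_boole]
    unfold colourDegree
    norm_cast
    apply card_le_card
    intro j hj
    rw [mem_filter] at hj ⊢
    exact ⟨hj.1, hj.2.2⟩
  have h2 : ∑ j, (if c s(i, j) = k then (1 : ℝ) else 0) ≤ ∑ j, (B k i j + K * δ) :=
    sum_le_sum fun j _ => h.lower hδ k i j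
  rw [sum_add_distrib, h.exact.row k i, sum_const, nsmul_eq_mul, card_univ,
    Fintype.card_fin] at h2
  linarith

/-- Lower bound for the degrees. -/
theorem Env.deg_ge (h : Env c B δ) (i : Fin n) (k : Fin K) :
    (n : ℝ) / K - n * δ - 1 ≤ (colourDegree c i k : ℝ) := by
  have h1 : ∑ j, (if c s(i, j) = k then (1 : ℝ) else 0) ≤ (colourDegree c i k : ℝ) + 1 := by
    rw [sum_boole]
    unfold colourDegree
    norm_cast
    have h2 : univ.filter (fun j => c s(i, j) = k) ⊆
        insert i (univ.filter (fun j : Fin n => j ≠ i ∧ c s(i, j) = k)) := by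
      intro j hj
      rw [mem_filter] at hj
      rw [mem_insert, mem_filter]
      by_cases hji : j = i
      · exact Or.inl hji
      · exact Or.inr ⟨mem_univ _, hji, hj.2⟩
    exact (card_le_card h2).trans (card_insert_le _ _)
  have h2 : ∑ j, B k i j ≤ ∑ j, ((if c s(i, j) = k then (1 : ℝ) else 0) + δ) :=
    sum_le_sum fun j _ => h.upper k i j
  rw [h.exact.row k i, sum_add_distrib, sum_const, nsmul_eq_mul, card_univ,
    Fintype.card_fin] at h2
  linarith

/-- Balanced colourings have exact kernels. -/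
theorem exists_env (K : ℕ) (hK : 0 < K) (δ : ℝ) (hδ : 0 < δ) : ∃ ε : ℝ, 0 < ε ∧ ∀ n : ℕ, 0 < n →
    ∀ c : Sym2 (Fin n) → Fin K, IsBalanced ε c →
    ∃ B : Fin K → Matrix (Fin n) (Fin n) ℝ, Env c B δ := by
  obtain ⟨ε, hε, h⟩ := Cyc.exact_kernels K hK δ hδ
  refine ⟨ε, hε, fun n hn c hc => ?_⟩
  obtain ⟨B, h1, h2⟩ := h n hn c hc
  exact ⟨B, h1, h2⟩

theorem mem_oddIn {V : Type} (G : SimpleGraph V) (W W₁ : Finset V) (v : V) :
    v ∈ oddIn G W W₁ ↔ v ∈ W₁ ∧ Odd {u | u ∈ W ∧ G.Adj v u}.ncard := by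
  unfold oddIn
  rw [mem_filter]

theorem esum_mk {V A : Type} [AddCommMonoid A] (φ : V → A) (u v : V) :
    esum φ s(u, v) = φ u + φ v := rfl

theorem mem_nbr (c : Sym2 (Fin n) → Fin K) (x y : Fin n) (a : Fin K) :
    y ∈ nbr c x a ↔ y ≠ x ∧ c s(x, y) = a := by
  simp [nbr]

end Pool.Agent.Lib.MP_b1acb3_co.Leaf
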