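import Pool.Agent.Lib.MP_b1acb3_co.Leaf.Stmts

/-!
The sizes of the label classes.
-/

namespace Pool.Agent.Lib.MP_b1acb3_co.Leaf

open Finset Uni

namespace ModClass

theorem lower {n K r : ℕ} {c : Sym2 (Fin n) → Fin K} {g : Fin K ≃ (Fin r → ZMod 2)}
    {π : Fin n → Fin r → ZMod 2} {ξ : ℝ} (h : Label c g π ξ) (hn : 0 < n) (t : Fin r → ZMod 2) :
    (1 - 2 * ξ) * ((n : ℝ) / K) ≤ ((univ.filter (fun z => π z = t)).card : ℝ) := by
  let y : Fin n := ⟨0, hn⟩
  let a : Fin K := g.symm (t - π y)
  have hga : π y + g a = t := by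
    show π y + g (g.symm (t - π y)) = t
    rw [Equiv.apply_symm_apply, add_sub_cancel]
  have h1 := h.deg y a
  have h2 := h.lab y a
  have h3 : ((nbr c y a).filter (fun z => π z = π y + g a)).card +
      ((nbr c y a).filter (fun z => π z ≠ π y + g a)).card = (nbr c y a).card :=
    card_filter_add_card_filter_not _
  have h4 : ((nbr c y a).filter (fun z => π z = π y + g a)).card ≤
      (univ.filter (fun z => π z = t)).card := by
    apply card_le_card
    intro z hz
    rw [mem_filter] at hz ⊢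
    exact ⟨mem_univ _, hz.2.trans hga⟩
  have h5 : (((nbr c y a).filter (fun z => π z = π y + g a)).card : ℝ) +
      ((nbr c y a).filter (fun z => π z ≠ π y + g a)).card = (nbr c y a).card := by
    exact_mod_cast h3
  have h6 : (((nbr c y a).filter (fun z => π z = π y + g a)).card : ℝ) ≤
      ((univ.filter (fun z => π z = t)).card : ℝ) := by exact_mod_cast h4
  have h7 : (1 - 2 * ξ) * ((n : ℝ) / K) = (1 - ξ) * ((n : ℝ) / K) - ξ * ((n : ℝ) / K) := by ring
  linarith

end ModClass

open ModClass in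
theorem thmClass : StClass := by
  classical
  intro n K r c g π ξ h hn hK hξ t
  refine ⟨?_, lower h hn t⟩
  have hm : (0 : ℝ) ≤ (n : ℝ) / K := by positivity
  have hKm : (K : ℝ) * ((n : ℝ) / K) = n := by
    have : (K : ℝ) ≠ 0 := by exact_mod_cast hK.ne'
    field_simp
  have hsum : ∑ t' : Fin r → ZMod 2, (univ.filter (fun z => π z = t')).card = n := by
    have := card_eq_sum_card_fiberwise (s := (univ : Finset (Fin n)))
      (t := (univ : Finset (Fin r → ZMod 2))) (f := π) (fun _ _ => mem_univ _)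
    rw [card_univ, Fintype.card_fin] at this
    exact this.symm
  rw [← add_sum_erase univ _ (mem_univ t)] at hsum
  have hcard : (univ.erase t).card + 1 = K := by
    rw [card_erase_of_mem (mem_univ t), card_univ, ← Fintype.card_congr g, Fintype.card_fin]
    omega
  have h1 : ((univ.erase t).card : ℝ) * ((1 - 2 * ξ) * ((n : ℝ) / K)) ≤
      ∑ t' ∈ univ.erase t, ((univ.filter (fun z => π z = t')).card : ℝ) := by
    rw [← nsmul_eq_mul, ← sum_const]
    exact sum_le_sum fun t' _ => lower h hn t'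
  have h2 : ((univ.filter (fun z => π z = t)).card : ℝ) +
      ∑ t' ∈ univ.erase t, ((univ.filter (fun z => π z = t')).card : ℝ) = n := by
    exact_mod_cast hsum
  have h3 : ((univ.erase t).card : ℝ) + 1 = K := by exact_mod_cast hcard
  have h4 : ((univ.erase t).card : ℝ) = K - 1 := by linarith
  rw [h4] at h1
  have h5 : ((K : ℝ) - 1) * ((1 - 2 * ξ) * ((n : ℝ) / K)) =
      (K : ℝ) * ((n : ℝ) / K) - (n : ℝ) / K - 2 * K * ξ * ((n : ℝ) / K) +
        2 * ξ * ((n : ℝ) / K) := by ring
  rw [h5, hKm] at h1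
  have h6 : 0 ≤ 2 * ξ * ((n : ℝ) / K) := by positivity
  have h7 : (1 + 2 * K * ξ) * ((n : ℝ) / K) = (n : ℝ) / K + 2 * K * ξ * ((n : ℝ) / K) := by ring
  rw [h7]
  linarith

end Pool.Agent.Lib.MP_b1acb3_co.Leaf
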