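import Pool.Agent.Lib.MP_b1acb3_co.Leaf.Stmts
import Pool.Agent.Lib.MP_b1acb3_co.Pos

/-!
(CoreX) First moment: rainbow embedding of a small part with one prescribed image and few
forbidden colours.
-/

namespace Pool.Agent.Lib.MP_b1acb3_co.Leaf

open Finset Uni

namespace ModCoreX

variable {V : Type} [Fintype V] [DecidableEq V] {n K : ℕ}

/-- Averaging over the value at `y ≠ w` when the value at `w` is fixed. -/
theorem fresh_bound (E : (V → Fin n) → Prop) [DecidablePred E] (w : V) (x : Fin n) (y : V)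
    (hy : y ≠ w) (B : ℝ)
    (h : ∀ f : V → Fin n,
      ((univ.filter (fun a : Fin n => E (Function.update f y a))).card : ℝ) ≤ B) :
    ((univ.filter (fun g : V → Fin n => E (Function.update g w x))).card : ℝ) * n ≤
      B * ((univ : Finset (V → Fin n)).card : ℝ) := by
  apply update_bound _ y
  intro g
  refine le_trans ?_ (h (Function.update g w x))
  norm_cast
  apply card_le_card
  intro a ha
  rw [mem_filter, mem_filter] at ha
  rw [mem_filter]
  refine ⟨mem_univ _, ?_⟩
  rw [Function.update_comm hy.symm]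
  exact ha.2.2

theorem card_col (c : Sym2 (Fin n) → Fin K) (i : Fin n) (k : Fin K) :
    ((univ.filter (fun a : Fin n => c s(i, a) = k)).card : ℝ) ≤ (colourDegree c i k : ℝ) + 1 := by
  unfold colourDegree
  norm_cast
  have h2 : univ.filter (fun j => c s(i, j) = k) ⊆
      insert i (univ.filter (fun j : Fin n => j ≠ i ∧ c s(i, j) = k)) := by
    intro j hj
    rw [mem_filter] at hj
    rw [mem_insert, mem_filter]
    by_cases hji : j = i
    · exact Or.inl hji
    · exact Or.inr ⟨mem_univ _, hji, hj.2⟩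
  exact (card_le_card h2).trans (card_insert_le _ _)

/-- Two edges get the same colour. -/
theorem same_aux (c : Sym2 (Fin n) → Fin K) (D : ℝ)
    (hD : ∀ i k, (colourDegree c i k : ℝ) + 1 ≤ D) (w : V) (x : Fin n) {e₁ e₂ : Sym2 V}
    (u y : V) (he : e₂ = s(u, y)) (huy : u ≠ y) (hy : y ∉ e₁) (hyw : y ≠ w) :
    ((univ.filter (fun g : V → Fin n => c (e₁.map (Function.update g w x)) =
      c (e₂.map (Function.update g w x)))).card : ℝ) * n ≤
      D * ((univ : Finset (V → Fin n)).card : ℝ) := by
  apply fresh_bound (fun f => c (e₁.map f) = c (e₂.map f)) w x y hyw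
  intro f
  refine le_trans ?_ ((card_col c (f u) (c (e₁.map f))).trans (hD _ _))
  norm_cast
  apply card_le_card
  intro a ha
  rw [mem_filter] at ha ⊢
  refine ⟨mem_univ _, ?_⟩
  have h1 := ha.2
  rw [he, Sym2.map_mk, Function.update_of_ne huy, Function.update_self,
    map_congr_of e₁ (Function.update f y a) f
      (fun z hz => Function.update_of_ne (fun h : z = y => hy (by rw [← h]; exact hz)) _ _)] at h1
  exact h1.symm

theorem same_bound {G : SimpleGraph V} (c : Sym2 (Fin n) → Fin K) (D : ℝ)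
    (hD : ∀ i k, (colourDegree c i k : ℝ) + 1 ≤ D) (w : V) (x : Fin n) {e₁ e₂ : Sym2 V}
    (h1 : e₁ ∈ G.edgeSet) (h2 : e₂ ∈ G.edgeSet) (hne : e₁ ≠ e₂) :
    ((univ.filter (fun g : V → Fin n => c (e₁.map (Function.update g w x)) =
      c (e₂.map (Function.update g w x)))).card : ℝ) * n ≤
      D * ((univ : Finset (V → Fin n)).card : ℝ) := by
  obtain ⟨u, y, he, huy, hy⟩ := exists_diff h1 h2 hne
  by_cases hyw : y = w
  · obtain ⟨u', y', he', huy', hy'⟩ := exists_diff h2 h1 hne.symm
    have hyw' : y' ≠ w := by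
      rintro rfl
      apply hy'
      rw [he, hyw]
      exact Sym2.mem_mk_right _ _
    have h3 := same_aux c D hD w x (e₁ := e₂) (e₂ := e₁) u' y' he' huy' hy' hyw'
    have h4 : univ.filter (fun g : V → Fin n => c (e₁.map (Function.update g w x)) =
        c (e₂.map (Function.update g w x))) =
        univ.filter (fun g : V → Fin n => c (e₂.map (Function.update g w x)) =
        c (e₁.map (Function.update g w x))) := by
      ext g
      simp only [mem_filter, mem_univ, true_and]
      exact eq_comm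
    rw [h4]
    exact h3
  · exact same_aux c D hD w x u y he huy hy hyw

/-- An edge gets a given colour. -/
theorem col_bound {G : SimpleGraph V} (c : Sym2 (Fin n) → Fin K) (D : ℝ)
    (hD : ∀ i k, (colourDegree c i k : ℝ) + 1 ≤ D) (w : V) (x : Fin n) {e : Sym2 V}
    (h1 : e ∈ G.edgeSet) (k : Fin K) :
    ((univ.filter (fun g : V → Fin n => c (e.map (Function.update g w x)) = k)).card : ℝ) * n ≤
      D * ((univ : Finset (V → Fin n)).card : ℝ) := by
  obtain ⟨u, y, he, huy, hyw⟩ : ∃ u y, e = s(u, y) ∧ u ≠ y ∧ y ≠ w := by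
    induction e using Sym2.ind with
    | _ a b =>
      have hab : a ≠ b := G.ne_of_adj h1
      by_cases hb : b = w
      · exact ⟨b, a, Sym2.eq_swap, hab.symm, fun h => hab (h.trans hb.symm)⟩
      · exact ⟨a, b, rfl, hab, hb⟩
  apply fresh_bound (fun f => c (e.map f) = k) w x y hyw
  intro f
  refine le_trans ?_ ((card_col c (f u) k).trans (hD _ _))
  norm_cast
  apply card_le_card
  intro a ha
  rw [mem_filter] at ha ⊢
  refine ⟨mem_univ _, ?_⟩
  have h1 := ha.2
  rw [he, Sym2.map_mk, Function.update_of_ne huy, Function.update_self] at h1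
  exact h1

theorem inj_aux (w : V) (x : Fin n) (u y : V) (huy : u ≠ y) (hyw : y ≠ w) :
    ((univ.filter (fun g : V → Fin n => Function.update g w x u =
      Function.update g w x y)).card : ℝ) * n ≤
      1 * ((univ : Finset (V → Fin n)).card : ℝ) := by
  apply fresh_bound (fun f => f u = f y) w x y hyw
  intro f
  have h3 : univ.filter (fun a : Fin n => Function.update f y a u = Function.update f y a y) ⊆
      {f u} := by
    intro a ha
    rw [mem_filter, Function.update_of_ne huy, Function.update_self] at ha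
    rw [mem_singleton]
    exact ha.2.symm
  have h4 := card_le_card h3
  rw [card_singleton] at h4
  exact_mod_cast h4

theorem inj_bound (w : V) (x : Fin n) (u y : V) (huy : u ≠ y) :
    ((univ.filter (fun g : V → Fin n => Function.update g w x u =
      Function.update g w x y)).card : ℝ) * n ≤
      1 * ((univ : Finset (V → Fin n)).card : ℝ) := by
  by_cases hyw : y = w
  · have hu : u ≠ w := fun h => huy (h.trans hyw.symm)
    have h3 := inj_aux w x y u huy.symm hu
    have h4 : univ.filter (fun g : V → Fin n => Function.update g w x u =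
        Function.update g w x y) = univ.filter (fun g : V → Fin n => Function.update g w x y =
        Function.update g w x u) := by
      ext g
      simp only [mem_filter, mem_univ, true_and]
      exact eq_comm
    rw [h4]
    exact h3
  · exact inj_aux w x u y huy hyw

/-- Union bound. -/
theorem union_bound {ι : Type} (S : Finset ι) (A : ι → Finset (V → Fin n)) (D : ℝ)
    (h : ∀ i ∈ S, ((A i).card : ℝ) * n ≤ D * ((univ : Finset (V → Fin n)).card : ℝ)) :
    ((S.biUnion A).card : ℝ) * n ≤ S.card * D * ((univ : Finset (V → Fin n)).card : ℝ) := by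
  have h1 : ((S.biUnion A).card : ℝ) ≤ ∑ i ∈ S, ((A i).card : ℝ) := by
    exact_mod_cast card_biUnion_le
  calc ((S.biUnion A).card : ℝ) * n ≤ (∑ i ∈ S, ((A i).card : ℝ)) * n :=
        mul_le_mul_of_nonneg_right h1 (Nat.cast_nonneg _)
    _ = ∑ i ∈ S, ((A i).card : ℝ) * n := by rw [sum_mul]
    _ ≤ ∑ _i ∈ S, D * ((univ : Finset (V → Fin n)).card : ℝ) := sum_le_sum h
    _ = _ := by rw [sum_const, nsmul_eq_mul]; ring

end ModCoreX

open ModCoreX in
theorem thmCoreX : StCoreX := by
  classical
  intro V _ G W K N hK h1 h2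
  refine ⟨8 * (K + Fintype.card V ^ 2) + 1, ?_⟩
  intro n hn c hc w x Q hQ
  have hn0 : 0 < n := by omega
  have hnR : (0 : ℝ) < n := by exact_mod_cast hn0
  have hKR : (0 : ℝ) < K := by exact_mod_cast hK
  set T : ℝ := ((univ : Finset (V → Fin n)).card : ℝ) with hT
  have hTpos : 0 < T := by
    have : (univ : Finset (V → Fin n)).Nonempty := ⟨fun _ => x, mem_univ _⟩
    rw [hT]
    exact_mod_cast card_pos.2 this
  set D : ℝ := 2 * ((n : ℝ) / K) + 1 with hDdef
  have hD : ∀ i k, (colourDegree c i k : ℝ) + 1 ≤ D := fun i k => by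
    have := hc i k
    rw [hDdef]
    linarith
  have hedge : ∀ e ∈ edgesIn G W, e ∈ G.edgeSet := fun e he => ((mem_edgesIn G W e).1 he).1
  -- the bad events
  set A₁ : Finset (V → Fin n) := ((edgesIn G W).offDiag).biUnion (fun p =>
    univ.filter (fun g : V → Fin n => c (p.1.map (Function.update g w x)) =
      c (p.2.map (Function.update g w x)))) with hA₁
  set A₂ : Finset (V → Fin n) := (edgesIn G W ×ˢ Q).biUnion (fun p =>
    univ.filter (fun g : V → Fin n => c (p.1.map (Function.update g w x)) = p.2)) with hA₂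
  set A₃ : Finset (V → Fin n) := ((univ : Finset V).offDiag).biUnion (fun p =>
    univ.filter (fun g : V → Fin n => Function.update g w x p.1 =
      Function.update g w x p.2)) with hA₃
  have b1 : (A₁.card : ℝ) * n ≤ (((edgesIn G W).offDiag).card : ℝ) * D * T := by
    apply union_bound
    intro p hp
    rw [mem_offDiag] at hp
    exact same_bound c D hD w x (hedge _ hp.1) (hedge _ hp.2.1) hp.2.2
  have b2 : (A₂.card : ℝ) * n ≤ ((edgesIn G W ×ˢ Q).card : ℝ) * D * T := by
    apply union_bound
    intro p hp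
    rw [mem_product] at hp
    exact col_bound c D hD w x (hedge _ hp.1) p.2
  have b3 : (A₃.card : ℝ) * n ≤ (((univ : Finset V).offDiag).card : ℝ) * 1 * T := by
    apply union_bound
    intro p hp
    rw [mem_offDiag] at hp
    exact inj_bound w x p.1 p.2 hp.2.2
  have c1 : (((edgesIn G W).offDiag).card : ℝ) ≤ (numEdgesIn G W : ℝ) ^ 2 := by
    rw [offDiag_card, card_edgesIn]
    have : numEdgesIn G W * numEdgesIn G W - numEdgesIn G W ≤ numEdgesIn G W ^ 2 := by
      rw [sq]
      exact Nat.sub_le _ _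
    exact_mod_cast this
  have c2 : ((edgesIn G W ×ˢ Q).card : ℝ) ≤ (numEdgesIn G W : ℝ) * N := by
    rw [card_product, card_edgesIn]
    exact_mod_cast Nat.mul_le_mul_left _ hQ
  have c3 : (((univ : Finset V).offDiag).card : ℝ) ≤ (Fintype.card V : ℝ) ^ 2 := by
    rw [offDiag_card, card_univ]
    have : Fintype.card V * Fintype.card V - Fintype.card V ≤ Fintype.card V ^ 2 := by
      rw [sq]
      exact Nat.sub_le _ _
    exact_mod_cast this
  have h1R : 16 * (numEdgesIn G W : ℝ) ^ 2 ≤ K := by exact_mod_cast h1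
  have h2R : 16 * ((numEdgesIn G W : ℝ) * N) ≤ K := by
    have : ((16 * numEdgesIn G W * N : ℕ) : ℝ) ≤ (K : ℝ) := by exact_mod_cast h2
    push_cast at this
    linarith
  have hnR2 : 8 * ((K : ℝ) + (Fintype.card V : ℝ) ^ 2) + 1 ≤ n := by exact_mod_cast hn
  have hDpos : 0 < D := by positivity
  have hKD : (K : ℝ) / 16 * D = (n : ℝ) / 8 + K / 16 := by
    rw [hDdef]
    field_simp
    ring
  have hsum : ((A₁ ∪ A₂ ∪ A₃).card : ℝ) * n < n * T := by
    have u1 : ((A₁ ∪ A₂ ∪ A₃).card : ℝ) ≤ A₁.card + A₂.card + A₃.card := by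
      have := (card_union_le (A₁ ∪ A₂) A₃).trans
        (Nat.add_le_add_right (card_union_le A₁ A₂) A₃.card)
      exact_mod_cast this
    have u2 : ((A₁ ∪ A₂ ∪ A₃).card : ℝ) * n ≤
        (A₁.card : ℝ) * n + (A₂.card : ℝ) * n + (A₃.card : ℝ) * n := by
      have := mul_le_mul_of_nonneg_right u1 hnR.le
      linarith
    have d1 : (((edgesIn G W).offDiag).card : ℝ) * D * T ≤ (K / 16 * D) * T := by
      apply mul_le_mul_of_nonneg_right _ hTpos.le
      apply mul_le_mul_of_nonneg_right _ hDpos.le
      linarith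
    have d2 : ((edgesIn G W ×ˢ Q).card : ℝ) * D * T ≤ (K / 16 * D) * T := by
      apply mul_le_mul_of_nonneg_right _ hTpos.le
      apply mul_le_mul_of_nonneg_right _ hDpos.le
      linarith
    have d3 : (((univ : Finset V).offDiag).card : ℝ) * 1 * T ≤ (Fintype.card V : ℝ) ^ 2 * T := by
      rw [mul_one]
      exact mul_le_mul_of_nonneg_right c3 hTpos.le
    rw [hKD] at d1 d2
    have d4 : ((n : ℝ) / 8 + K / 16) * T + ((n : ℝ) / 8 + K / 16) * T +
        (Fintype.card V : ℝ) ^ 2 * T < n * T := by
      rw [← add_mul, ← add_mul]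
      apply mul_lt_mul_of_pos_right _ hTpos
      have : (0 : ℝ) ≤ (Fintype.card V : ℝ) ^ 2 := by positivity
      linarith
    linarith
  obtain ⟨g, hg⟩ : ∃ g : V → Fin n, g ∉ A₁ ∪ A₂ ∪ A₃ := by
    by_contra hcon
    push Not at hcon
    have : (univ : Finset (V → Fin n)) = A₁ ∪ A₂ ∪ A₃ :=
      (eq_univ_iff_forall.2 hcon).symm
    rw [← this, ← hT, mul_comm] at hsum
    exact lt_irrefl _ hsum
  rw [notMem_union, notMem_union] at hg
  obtain ⟨⟨g1, g2⟩, g3⟩ := hg
  refine ⟨Function.update g w x, ?_, Function.update_self _ _ _, ?_, ?_⟩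
  · intro a b hab
    by_contra hne
    apply g3
    rw [hA₃, mem_biUnion]
    exact ⟨(a, b), mem_offDiag.2 ⟨mem_univ _, mem_univ _, hne⟩, mem_filter.2 ⟨mem_univ _, hab⟩⟩
  · intro a ha b hb hab
    by_contra hne
    apply g1
    rw [hA₁, mem_biUnion]
    exact ⟨(a, b), mem_offDiag.2 ⟨ha, hb, hne⟩, mem_filter.2 ⟨mem_univ _, hab⟩⟩
  · intro e he hQe
    apply g2
    rw [hA₂, mem_biUnion]
    exact ⟨(e, c (e.map (Function.update g w x))), mem_product.2 ⟨he, hQe⟩,
      mem_filter.2 ⟨mem_univ _, rfl⟩⟩

end Pool.Agent.Lib.MP_b1acb3_co.Leaf
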