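import Pool.Agent.Lib.MP_b1acb3_co.Leaf.Stmts

/-!
Rainbow embedding of a small part with typical edges and with nonzero sum over a nonempty set:
a first moment argument.
-/

namespace Pool.Agent.Lib.MP_b1acb3_co.Leaf

open Finset Uni

namespace ModCoreY

/-- Upper bound for the colour degrees. -/
theorem deg_le {n K r : ℕ} {c : Sym2 (Fin n) → Fin K} {g : Fin K ≃ (Fin r → ZMod 2)}
    {π : Fin n → Fin r → ZMod 2} {ξ : ℝ} (h : Label c g π ξ) (hK : 0 < K) (hξ : 0 ≤ ξ)
    (hξ2 : 4 * K * ξ ≤ 1) (i : Fin n) (k : Fin K) :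
    (colourDegree c i k : ℝ) + 1 ≤ 5 / 4 * ((n : ℝ) / K) := by
  have hb : IsBalanced ξ c := by
    intro i k
    rw [mul_div_assoc]
    exact h.deg i k
  have h1 := colourDegree_le hK ξ c hb i k
  have hKR : (0 : ℝ) < K := by exact_mod_cast hK
  refine h1.trans ?_
  have e1 : (n : ℝ) - ((K : ℝ) - 1) * ((1 - ξ) * n / K) = (n : ℝ) / K * (1 + (K - 1) * ξ) := by
    field_simp
    ring
  rw [e1, mul_comm (5 / 4 : ℝ)]
  apply mul_le_mul_of_nonneg_left _ (by positivity)
  nlinarith

variable {V : Type} [Fintype V]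

/-- Few embeddings have an untypical edge. -/
theorem card_typ [DecidableEq V] {n K r : ℕ} {c : Sym2 (Fin n) → Fin K}
    {g : Fin K ≃ (Fin r → ZMod 2)} {π : Fin n → Fin r → ZMod 2} {ξ : ℝ} (h : Label c g π ξ)
    (hK : 0 < K) (G : SimpleGraph V) (e : Sym2 V) (he : e ∈ G.edgeSet) :
    ((univ.filter (fun f : V → Fin n => esum (fun v => π (f v)) e ≠ g (c (e.map f)))).card : ℝ) *
      n ≤ (1 + ξ * n) * ((univ : Finset (V → Fin n)).card : ℝ) := by
  induction e using Sym2.ind with
  | _ u v =>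
    have huv : u ≠ v := G.ne_of_adj he
    apply update_bound _ v
    intro g₀
    set x := g₀ u with hx
    have h1 : univ.filter (fun a : Fin n => Function.update g₀ v a ∈ univ.filter
        (fun f : V → Fin n => esum (fun v => π (f v)) s(u, v) ≠ g (c (s(u, v).map f)))) ⊆
        insert x ((univ : Finset (Fin K)).biUnion
          (fun k => (nbr c x k).filter (fun z => π z ≠ π x + g k))) := by
      intro a ha
      rw [mem_filter, mem_filter] at ha
      have h4 := ha.2.2
      rw [esum_mk, Sym2.map_mk, Function.update_of_ne huv, Function.update_self] at h4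
      rw [mem_insert]
      by_cases hax : a = x
      · exact Or.inl hax
      · right
        rw [mem_biUnion]
        refine ⟨c s(x, a), mem_univ _, ?_⟩
        rw [mem_filter, mem_nbr]
        refine ⟨⟨hax, rfl⟩, fun h5 => h4 ?_⟩
        rw [← hx, h5]
        funext i
        simp only [Pi.add_apply]
        rw [← add_assoc, CharTwo.add_self_eq_zero, zero_add]
    have h2 : ((insert x ((univ : Finset (Fin K)).biUnion
          (fun k => (nbr c x k).filter (fun z => π z ≠ π x + g k)))).card : ℝ) ≤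
        1 + ξ * n := by
      have h3 := (card_insert_le x ((univ : Finset (Fin K)).biUnion
          (fun k => (nbr c x k).filter (fun z => π z ≠ π x + g k))))
      have h4 : ((univ : Finset (Fin K)).biUnion
          (fun k => (nbr c x k).filter (fun z => π z ≠ π x + g k))).card ≤
          ∑ k : Fin K, ((nbr c x k).filter (fun z => π z ≠ π x + g k)).card := card_biUnion_le
      have h5 : (∑ k : Fin K, (((nbr c x k).filter (fun z => π z ≠ π x + g k)).card : ℝ)) ≤
          ∑ _k : Fin K, ξ * ((n : ℝ) / K) := sum_le_sum fun k _ => h.lab x k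
      rw [sum_const, card_univ, Fintype.card_fin, nsmul_eq_mul] at h5
      have hKR : (K : ℝ) ≠ 0 := by exact_mod_cast hK.ne'
      have e1 : (K : ℝ) * (ξ * ((n : ℝ) / K)) = ξ * n := by
        field_simp
      rw [e1] at h5
      have h6 : ((insert x ((univ : Finset (Fin K)).biUnion
          (fun k => (nbr c x k).filter (fun z => π z ≠ π x + g k)))).card : ℝ) ≤
          (∑ k : Fin K, (((nbr c x k).filter (fun z => π z ≠ π x + g k)).card : ℝ)) + 1 := by
        exact_mod_cast h3.trans (Nat.add_le_add_right h4 1)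
      linarith
    exact le_trans (by exact_mod_cast card_le_card h1) h2

/-- Few embeddings have sum zero over a nonempty set. -/
theorem card_zero [DecidableEq V] {n r : ℕ} {π : Fin n → Fin r → ZMod 2} (D : ℝ)
    (hD : ∀ t : Fin r → ZMod 2, ((univ.filter (fun z => π z = t)).card : ℝ) ≤ D)
    (O : Finset V) (hO : O.Nonempty) :
    ((univ.filter (fun f : V → Fin n => ∑ v ∈ O, π (f v) = 0)).card : ℝ) * n ≤
      D * ((univ : Finset (V → Fin n)).card : ℝ) := by
  obtain ⟨v, hv⟩ := hO
  apply update_bound _ v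
  intro g₀
  refine le_trans ?_ (hD (-∑ u ∈ O.erase v, π (g₀ u)))
  have h1 : univ.filter (fun a : Fin n => Function.update g₀ v a ∈ univ.filter
      (fun f : V → Fin n => ∑ v ∈ O, π (f v) = 0)) ⊆
      univ.filter (fun z => π z = -∑ u ∈ O.erase v, π (g₀ u)) := by
    intro a ha
    rw [mem_filter, mem_filter] at ha
    have h4 := ha.2.2
    rw [← add_sum_erase O _ hv, Function.update_self] at h4
    rw [mem_filter]
    refine ⟨mem_univ _, ?_⟩
    rw [eq_neg_iff_add_eq_zero, ← h4]
    congr 1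
    refine sum_congr rfl fun u hu => ?_
    rw [Function.update_of_ne (ne_of_mem_erase hu)]
  exact_mod_cast card_le_card h1

end ModCoreY

open ModCoreY in
/-- (CoreY) -/
theorem thmCoreY (hC : StClass) : StCoreY := by
  classical
  intro V _ G W O K hO hK hh
  set h := numEdgesIn G W with hhdef
  refine ⟨2 * (h + Fintype.card V ^ 2) + 1, fun n hn c r g π ξ hξ hL hξ1 hξ2 => ?_⟩
  have hn0 : 0 < n := by omega
  have hK0 : 0 < K := by omega
  have hnR : (0 : ℝ) < n := by exact_mod_cast hn0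
  have hKR : (0 : ℝ) < K := by exact_mod_cast hK0
  have hK16 : (16 : ℝ) ≤ K := by exact_mod_cast hK
  have hhR : 16 * (h : ℝ) ^ 2 ≤ K := by exact_mod_cast hh
  have hnR2 : 2 * ((h : ℝ) + (Fintype.card V : ℝ) ^ 2) + 1 ≤ n := by exact_mod_cast hn
  set N : ℝ := ((univ : Finset (V → Fin n)).card : ℝ) with hN
  have hNpos : 0 < N := by
    rw [hN]
    have : (univ : Finset (V → Fin n)).Nonempty := ⟨fun _ => ⟨0, hn0⟩, mem_univ _⟩
    exact_mod_cast card_pos.2 this
  -- the bad sets
  set A : Finset (V → Fin n) := (edgesIn G W).offDiag.biUnion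
    (fun p => univ.filter (fun f : V → Fin n => c (p.1.map f) = c (p.2.map f))) with hA
  set B : Finset (V → Fin n) := (edgesIn G W).biUnion (fun e => univ.filter
    (fun f : V → Fin n => esum (fun v => π (f v)) e ≠ g (c (e.map f)))) with hB
  set C : Finset (V → Fin n) := univ.filter (fun f : V → Fin n => ∑ v ∈ O, π (f v) = 0) with hCd
  set D : Finset (V → Fin n) := univ.filter (fun f : V → Fin n => ¬ Function.Injective f) with hD
  have bA : (A.card : ℝ) * n ≤ 5 / 64 * n * N := by
    have h1 : (A.card : ℝ) ≤ ∑ p ∈ (edgesIn G W).offDiag,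
        ((univ.filter (fun f : V → Fin n => c (p.1.map f) = c (p.2.map f))).card : ℝ) := by
      exact_mod_cast card_biUnion_le
    have h2 : (∑ p ∈ (edgesIn G W).offDiag,
        ((univ.filter (fun f : V → Fin n => c (p.1.map f) = c (p.2.map f))).card : ℝ)) * n ≤
        ∑ _p ∈ (edgesIn G W).offDiag, (5 / 4 * ((n : ℝ) / K)) * N := by
      rw [sum_mul]
      refine sum_le_sum fun p hp => ?_
      rw [mem_offDiag] at hp
      exact card_same (G := G) c _ (fun i k => deg_le hL hK0 hξ hξ1 i k)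
        ((mem_edgesIn G W _).1 hp.1).1 ((mem_edgesIn G W _).1 hp.2.1).1 hp.2.2
    rw [sum_const, nsmul_eq_mul] at h2
    have h3 : (((edgesIn G W).offDiag).card : ℝ) ≤ (h : ℝ) ^ 2 := by
      have : ((edgesIn G W).offDiag).card ≤ h ^ 2 := by
        rw [offDiag_card, card_edgesIn, ← hhdef, sq]
        exact Nat.sub_le _ _
      exact_mod_cast this
    have h4 : (h : ℝ) ^ 2 * (5 / 4 * ((n : ℝ) / K)) ≤ 5 / 64 * n := by
      rw [show (h : ℝ) ^ 2 * (5 / 4 * ((n : ℝ) / K)) = (5 / 64 * n) * (16 * (h : ℝ) ^ 2) / K by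
        ring]
      rw [div_le_iff₀ hKR]
      exact mul_le_mul_of_nonneg_left hhR (by positivity)
    calc (A.card : ℝ) * n ≤ _ * n := mul_le_mul_of_nonneg_right h1 hnR.le
      _ ≤ _ := h2
      _ ≤ (h : ℝ) ^ 2 * ((5 / 4 * ((n : ℝ) / K)) * N) :=
          mul_le_mul_of_nonneg_right h3 (by positivity)
      _ = ((h : ℝ) ^ 2 * (5 / 4 * ((n : ℝ) / K))) * N := by ring
      _ ≤ _ := mul_le_mul_of_nonneg_right h4 hNpos.le
  have bB : (B.card : ℝ) * n ≤ (h + 1 / 16 * n) * N := by
    have h1 : (B.card : ℝ) ≤ ∑ e ∈ edgesIn G W, ((univ.filter (fun f : V → Fin n =>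
        esum (fun v => π (f v)) e ≠ g (c (e.map f)))).card : ℝ) := by
      exact_mod_cast card_biUnion_le
    have h2 : (∑ e ∈ edgesIn G W, ((univ.filter (fun f : V → Fin n =>
        esum (fun v => π (f v)) e ≠ g (c (e.map f)))).card : ℝ)) * n ≤
        ∑ _e ∈ edgesIn G W, (1 + ξ * n) * N := by
      rw [sum_mul]
      refine sum_le_sum fun e he => ?_
      exact card_typ hL hK0 G e ((mem_edgesIn G W _).1 he).1
    rw [sum_const, nsmul_eq_mul, card_edgesIn, ← hhdef] at h2
    have h4 : (h : ℝ) * (1 + ξ * n) ≤ h + 1 / 16 * n := by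
      have : (16 * (h : ℝ) * ξ) * n ≤ 1 * n := mul_le_mul_of_nonneg_right hξ2 hnR.le
      nlinarith
    calc (B.card : ℝ) * n ≤ _ * n := mul_le_mul_of_nonneg_right h1 hnR.le
      _ ≤ _ := h2
      _ = ((h : ℝ) * (1 + ξ * n)) * N := by ring
      _ ≤ _ := mul_le_mul_of_nonneg_right h4 hNpos.le
  have bC : (C.card : ℝ) * n ≤ 3 / 32 * n * N := by
    refine card_zero _ (fun t => ?_) O hO
    refine ((hC n K r c g π ξ hL hn0 hK0 hξ t).1).trans ?_
    have h1 : 1 + 2 * K * ξ ≤ 3 / 2 := by linarith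
    have h2 : (n : ℝ) / K ≤ n / 16 := by
      apply div_le_div_of_nonneg_left hnR.le (by norm_num) hK16
    calc (1 + 2 * K * ξ) * ((n : ℝ) / K) ≤ 3 / 2 * (n / 16) :=
          mul_le_mul h1 h2 (by positivity) (by norm_num)
      _ = _ := by ring
  have bD : (D.card : ℝ) * n ≤ (Fintype.card V : ℝ) ^ 2 * N := card_noninj
  obtain ⟨f, hf⟩ : ∃ f : V → Fin n, f ∉ A ∪ B ∪ C ∪ D := by
    by_contra hcon
    push Not at hcon
    have h1 : (univ : Finset (V → Fin n)) ⊆ A ∪ B ∪ C ∪ D := fun f _ => hcon f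
    have h2 : (univ : Finset (V → Fin n)).card ≤ A.card + B.card + C.card + D.card :=
      (card_le_card h1).trans ((card_union_le _ _).trans (Nat.add_le_add_right
        ((card_union_le _ _).trans (Nat.add_le_add_right (card_union_le _ _) _)) _))
    have h3 : N ≤ (A.card : ℝ) + B.card + C.card + D.card := by
      rw [hN]
      exact_mod_cast h2
    have h4 : N * n ≤ ((A.card : ℝ) + B.card + C.card + D.card) * n :=
      mul_le_mul_of_nonneg_right h3 hnR.le
    have h5 : n * N ≤ (5 / 64 * n + (h + 1 / 16 * n) + 3 / 32 * n +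
        (Fintype.card V : ℝ) ^ 2) * N := by linarith
    have h6 := le_of_mul_le_mul_right h5 hNpos
    linarith
  simp only [mem_union, not_or] at hf
  obtain ⟨⟨⟨fA, fB⟩, fC⟩, fD⟩ := hf
  refine ⟨f, ?_, ?_, ?_, ?_⟩
  · by_contra hcon
    exact fD (mem_filter.2 ⟨mem_univ _, hcon⟩)
  · intro e₁ h1 e₂ h2 h12
    by_contra hne
    apply fA
    rw [hA, mem_biUnion]
    exact ⟨(e₁, e₂), mem_offDiag.2 ⟨h1, h2, hne⟩, mem_filter.2 ⟨mem_univ _, h12⟩⟩
  · intro u v huv
    by_contra hne
    apply fB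
    rw [hB, mem_biUnion]
    exact ⟨s(u, v), huv, mem_filter.2 ⟨mem_univ _, hne⟩⟩
  · intro h0
    exact fC (mem_filter.2 ⟨mem_univ _, h0⟩)

end Pool.Agent.Lib.MP_b1acb3_co.Leaf
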