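import Pool.Agent.Lib.MP_b1acb3_co.Uni.Defs

/-!
Definitions for the classification of graphs with a leaf and small cyclomatic number
(problem MP_b1acb3_co).
-/

namespace Pool.Agent.Lib.MP_b1acb3_co.Leaf

open Finset Uni

/-- Exact kernels close to the colouring `c`. -/
structure Env {n K : ℕ} (c : Sym2 (Fin n) → Fin K) (B : Fin K → Matrix (Fin n) (Fin n) ℝ)
    (δ : ℝ) : Prop where
  exact : Cyc.Exact B
  upper : ∀ k i j, B k i j ≤ (if c s(i, j) = k then 1 else 0) + δ

/-- Lower bounds for the defects of `rem R j`. -/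
def Low {n K : ℕ} (R : Finset (Fin K) → Finset (Fin n)) (θ : ℝ) (j N : ℕ) : Prop :=
  ∀ Q : Finset (Fin K), Q.card ≤ N → 1 - 2 * (K : ℝ) ^ (j + 1) * θ ≤ dfc (rem R j) Q

/-- The consequence of the absence of rainbow copies: for every `x` and every small set `Q₁` of
colours there are a vertex `y` and a small set `F` of colours (the end of the last ear and the
colours of the core, if one starts at `x` and avoids `Q₁`) such that for every small `Q` disjoint
from `F` there is a set `T ⊇ Q` of `l + d` colours (the unused colours) for which the sets reached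
from `x` and `y` by disjoint parts of `T` with together `l` colours are nearly disjoint. -/
def Tight {n K : ℕ} (R : Fin n → Finset (Fin K) → Finset (Fin n)) (θ : ℝ) (l d h N : ℕ) : Prop :=
  ∀ (x : Fin n) (Q₁ : Finset (Fin K)), Q₁.card ≤ N → ∃ (y : Fin n) (F : Finset (Fin K)),
    F.card ≤ h ∧ Disjoint F Q₁ ∧ ∀ Q : Finset (Fin K), Q.card ≤ N → Disjoint F Q →
      ∃ T : Finset (Fin K), Q ⊆ T ∧ T.card = l + d ∧
        ∀ U U' : Finset (Fin K), U.Nonempty → U'.Nonempty → Disjoint U U' → U ⊆ T → U' ⊆ T →
          U.card + U'.card = l → mu (R x U ∩ R y U') ≤ θ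

/-- The colouring is nearly given by the labels `π`: nearly all neighbours of `y` in colour `a`
have the label `π y + g a`. -/
structure Label {n K r : ℕ} (c : Sym2 (Fin n) → Fin K) (g : Fin K ≃ (Fin r → ZMod 2))
    (π : Fin n → Fin r → ZMod 2) (ξ : ℝ) : Prop where
  deg : ∀ y a, (1 - ξ) * ((n : ℝ) / K) ≤ ((nbr c y a).card : ℝ)
  lab : ∀ y a, (((nbr c y a).filter (fun z => π z ≠ π y + g a)).card : ℝ) ≤ ξ * ((n : ℝ) / K)

/-- The sum of the labels of the end vertices of an edge. -/
def esum {V A : Type} [AddCommMonoid A] (φ : V → A) : Sym2 V → A :=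
  Sym2.lift ⟨fun u v => φ u + φ v, fun _ _ => add_comm _ _⟩

open Classical in
/-- The vertices of `W₁` with an odd number of neighbours in `W`. -/
noncomputable def oddIn {V : Type} (G : SimpleGraph V) (W W₁ : Finset V) : Finset V :=
  W₁.filter (fun v => Odd {u | u ∈ W ∧ G.Adj v u}.ncard)

end Pool.Agent.Lib.MP_b1acb3_co.Leaf
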