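import Pool.Agent.Lib.MP_b1acb3_co.Leaf.Stmts
import Pool.Agent.Lib.MP_b1acb3_co.Cyc.Count

/-!
Rainbow copies in labelled colourings.
-/

namespace Pool.Agent.Lib.MP_b1acb3_co.Leaf

open Finset Uni

namespace ModEven

theorem dbl {r : ℕ} (a : Fin r → ZMod 2) : a + a = 0 := by
  funext i
  exact CharTwo.add_self_eq_zero (a i)

/-- The sum of all vectors. -/
theorem all_sum {r : ℕ} (hr : 2 ≤ r) : ∑ v : Fin r → ZMod 2, v = 0 := by
  classical
  funext i
  rw [Finset.sum_apply, Pi.zero_apply]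
  obtain ⟨j, hj⟩ : ∃ j : Fin r, j ≠ i := by
    by_contra hcon
    push Not at hcon
    have h0 := hcon ⟨0, by omega⟩
    have h1 := hcon ⟨1, by omega⟩
    have h2 := h0.trans h1.symm
    rw [Fin.mk.injEq] at h2
    omega
  refine Finset.sum_involution (fun v _ => v + Pi.single j 1) ?_ ?_ ?_ ?_
  · intro v _
    rw [Pi.add_apply, Pi.single_eq_of_ne hj.symm, add_zero]
    exact CharTwo.add_self_eq_zero (v i)
  · intro v _ _ h
    have h1 := congrFun h j
    rw [Pi.add_apply, Pi.single_eq_same] at h1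
    have h2 : (1 : ZMod 2) = 0 := by
      calc (1 : ZMod 2) = v j + 1 - v j := by ring
        _ = 0 := by rw [h1, sub_self]
    exact one_ne_zero h2
  · intro v _
    exact mem_univ _
  · intro v _
    rw [add_assoc, dbl, add_zero]

theorem sum_list {α A : Type} [AddCommMonoid A] (g : α → A) (w : List α) (F : ℕ → A)
    (h : ∀ (j : ℕ) (hj : j < w.length), F j = g (w[j])) :
    ∑ j ∈ range w.length, F j = (w.map g).sum := by
  induction w generalizing F with
  | nil => simp
  | cons a w ih =>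
    rw [List.length_cons, sum_range_succ', List.map_cons, List.sum_cons, add_comm]
    congr 1
    · exact h 0 (by simp)
    · refine ih (fun j => F (j + 1)) fun j hj => ?_
      exact h (j + 1) (by simpa using hj)

/-- The sum over the edges of the ears. -/
theorem sum_split {V : Type} [Fintype V] {G : SimpleGraph V} {W W₁ : Finset V} {q k : ℕ}
    {m : Fin q → ℕ} {P : Fin q → ℕ → V} (hk : 1 ≤ k) (hP : Cyc.Ears G W W₁ q k m P) {A : Type}
    [AddCommMonoid A] (h : Sym2 V → A) :
    ∑ e ∈ edgesIn G W, h e =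
      ∑ e ∈ edgesIn G W₁, h e + ∑ i, ∑ j ∈ range (m i + 1), h s(P i j, P i (j + 1)) := by
  classical
  set E : Finset (Sym2 V) := (univ : Finset (Σ i : Fin q, Fin (m i + 1))).image
    (fun p => s(P p.1 p.2, P p.1 (p.2 + 1))) with hE
  have hdisj : Disjoint (edgesIn G W₁) E := by
    rw [Finset.disjoint_left]
    intro e he he'
    rw [hE, mem_image] at he'
    obtain ⟨⟨i, j⟩, _, rfl⟩ := he'
    rw [mem_edgesIn] at he
    simp only at he
    have hmi := hP.long i
    rcases Nat.eq_zero_or_pos (j : ℕ) with h0 | h0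
    · have h1 := he.2 (P i (j + 1)) (Sym2.mem_mk_right _ _)
      exact (hP.inner i (j + 1) (by omega) (by omega)).2 h1
    · have h1 := he.2 (P i j) (Sym2.mem_mk_left _ _)
      exact (hP.inner i j h0 (by have := j.isLt; omega)).2 h1
  have hunion : edgesIn G W = edgesIn G W₁ ∪ E := by
    ext e
    rw [mem_union]
    constructor
    · intro he
      rcases Cyc.edge_cases G W W₁ q k m P hP e he with h | ⟨i, j, hj, rfl⟩
      · exact Or.inl h
      · right
        rw [hE, mem_image]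
        exact ⟨⟨i, ⟨j, by omega⟩⟩, mem_univ _, rfl⟩
    · rintro (h | h)
      · rw [mem_edgesIn] at h ⊢
        exact ⟨h.1, fun x hx => hP.sub (h.2 x hx)⟩
      · rw [hE, mem_image] at h
        obtain ⟨⟨i, j⟩, _, rfl⟩ := h
        rw [mem_edgesIn]
        have hjlt := j.isLt
        refine ⟨hP.adj i j (by omega), ?_⟩
        intro x hx
        rw [Sym2.mem_iff] at hx
        rcases hx with rfl | rfl
        · exact Cyc.ears_mem hP i j (by omega)
        · exact Cyc.ears_mem hP i (j + 1) (by omega)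
  have hsum : ∑ e ∈ E, h e = ∑ i, ∑ j ∈ range (m i + 1), h s(P i j, P i (j + 1)) := by
    rw [hE, sum_image]
    · rw [Fintype.sum_sigma]
      refine sum_congr rfl fun i _ => ?_
      rw [Finset.sum_range]
    · rintro ⟨i, j⟩ _ ⟨i', j'⟩ _ h
      obtain ⟨h1, h2⟩ := Cyc.ear_edge_inj hk hP i i' j j' (by have := j.isLt; omega)
        (by have := j'.isLt; omega) h
      subst h1
      have : j = j' := Fin.ext h2
      rw [this]
  rw [hunion, sum_union hdisj, hsum]

/-- Two new colours with given sum of the labels. -/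
theorem exists_pair {K r : ℕ} (g : Fin K ≃ (Fin r → ZMod 2)) (s : Fin r → ZMod 2) (hs : s ≠ 0)
    (F : Finset (Fin K)) (hF : 2 * F.card < K) :
    ∃ u₁ u₂ : Fin K, u₁ ≠ u₂ ∧ u₁ ∉ F ∧ u₂ ∉ F ∧ g u₁ + g u₂ = s := by
  classical
  let e : Fin K → Fin K := fun u => g.symm (s + g u)
  have he : Function.Injective e := by
    intro a b hab
    have h1 := g.symm.injective hab
    exact g.injective (add_left_cancel h1)
  have hcard : (F ∪ F.preimage e he.injOn).card < (univ : Finset (Fin K)).card := by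
    rw [card_univ, Fintype.card_fin]
    have h1 : (F.preimage e he.injOn).card ≤ F.card := by
      rw [← card_image_of_injective (F.preimage e he.injOn) he]
      apply card_le_card
      intro a ha
      rw [mem_image] at ha
      obtain ⟨b, hb, rfl⟩ := ha
      exact mem_preimage.1 hb
    have h2 := card_union_le F (F.preimage e he.injOn)
    omega
  obtain ⟨u, _, hu⟩ := exists_mem_notMem_of_card_lt_card hcard
  rw [mem_union, not_or, mem_preimage] at hu
  have hsum : g u + g (e u) = s := by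
    change g u + g (g.symm (s + g u)) = s
    rw [Equiv.apply_symm_apply, add_comm, add_assoc, dbl, add_zero]
  refine ⟨u, e u, ?_, hu.1, hu.2, hsum⟩
  intro h
  apply hs
  rw [← hsum, ← h, dbl]

end ModEven

theorem thmEven (hC : StClass) (hR : StReachL) (hK : StKer) (hY : StCoreY) (hV : StHandV)
    (hS : StSplit) (hE : StEars2) (hL : StLast) : StEven := by
  classical
  intro V _ G W W₁ q k d' m P i hW hP h1 hd hO h16 h2 h3 h4 h5
  set K := numEdges G + 1 with hKdef
  have hK0 : 0 < K := Nat.succ_pos _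
  have hKR : (0 : ℝ) < K := by exact_mod_cast hK0
  have hK16 : (16 : ℝ) ≤ K := by exact_mod_cast h16
  have hk : 1 ≤ k := by
    rcases Nat.eq_zero_or_pos k with rfl | hk
    · exfalso
      have h6 : (0 : ℕ).choose d' ≤ 1 := by
        rcases Nat.eq_zero_or_pos d' with rfl | hd'
        · simp
        · rw [Nat.choose_eq_zero_of_lt hd']
          exact Nat.zero_le _
      have h7 : 1 ≤ K ^ 2 := Nat.one_le_pow _ _ hK0
      omega
    · exact hk
  obtain ⟨W₂, hP₂, hP₁⟩ := hS V G W W₁ q k m P i hk hP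
  have hc₂ := (Cyc.count_ears V G W₂ W₁ q k _ _ hk hP₂).1
  have hc₁ := (Cyc.count_ears V G W W₂ 1 k _ _ hk hP₁).1
  rw [Fin.sum_univ_one] at hc₁
  set θ : ℝ := 1 / (4 * K) with hθ
  have hθ0 : 0 < θ := by positivity
  obtain ⟨δ₁, hδ₁, n₁, hE'⟩ := hE V G W₂ W₁ q k d' K _ _ hK0 hP₂ h1
  obtain ⟨δ₂, hδ₂, n₂, hL'⟩ := hL V G W W₂ k (m i) (P i) θ hθ0 hk hW hP₁
  obtain ⟨n₃, hY'⟩ := hY V G W₁ (oddIn G W W₁) K hO h16 h2
  have hδ₃ : (0 : ℝ) < 1 / (64 * (K : ℝ) ^ 3) := by positivity
  refine ⟨min (min δ₁ δ₂) (1 / (64 * (K : ℝ) ^ 3)), lt_min (lt_min hδ₁ hδ₂) hδ₃,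
    n₁ + n₂ + n₃ + 64 * K ^ 3 + 1, ?_⟩
  intro n hn c B hB r g π ξ hξ0 hLab hξ
  have hn0 : 0 < n := by omega
  have hnR : (0 : ℝ) < n := by exact_mod_cast hn0
  have hn64 : 64 * (K : ℝ) ^ 3 ≤ n := by
    have h6 : 64 * K ^ 3 ≤ n := by omega
    exact_mod_cast h6
  have hB₁ : Env c B δ₁ := hB.mono ((min_le_left _ _).trans (min_le_left _ _))
  have hB₂ : Env c B δ₂ := hB.mono ((min_le_left _ _).trans (min_le_right _ _))
  have hB₃ : Env c B (1 / (64 * (K : ℝ) ^ 3)) := hB.mono (min_le_right _ _)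
  -- numerical estimates
  have hnum : 16 * (K : ℝ) ^ 2 * (ξ + K / n + K * (1 / (64 * (K : ℝ) ^ 3))) ≤ 1 := by
    have e1 : 16 * (K : ℝ) ^ 2 * (K / n) ≤ 1 / 4 := by
      rw [mul_div_assoc', div_le_iff₀ hnR]
      nlinarith
    have e2 : 16 * (K : ℝ) ^ 2 * (K * (1 / (64 * (K : ℝ) ^ 3))) = 1 / 4 := by
      field_simp
      norm_num
    have e3 : 32 * (K : ℝ) ^ 2 * ξ ≤ 1 := hξ
    nlinarith
  have hξK : 16 * (K : ℝ) * ξ ≤ 1 := by
    have e1 : 16 * (K : ℝ) * ξ ≤ 32 * (K : ℝ) ^ 2 * ξ := by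
      apply mul_le_mul_of_nonneg_right _ hξ0
      nlinarith
    exact e1.trans hξ
  have hh1 : numEdgesIn G W₁ ≤ K := by nlinarith
  have hh1R : (numEdgesIn G W₁ : ℝ) ≤ K := by exact_mod_cast hh1
  obtain ⟨f₀, hf₀, hf₀', hf₀t, hf₀s⟩ := hY' n (by omega) c r g π ξ hξ0 hLab
    (by nlinarith [mul_nonneg hKR.le hξ0]) (by
      have e1 : 16 * (numEdgesIn G W₁ : ℝ) * ξ ≤ 16 * (K : ℝ) * ξ :=
        mul_le_mul_of_nonneg_right (by linarith) hξ0
      exact e1.trans hξK)
  set F₁ : Finset (Fin K) := (edgesIn G W₁).image (fun e => c (e.map f₀)) with hF₁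
  have hF₁card : F₁.card = numEdgesIn G W₁ := by
    rw [hF₁, card_image_of_injOn hf₀', card_edgesIn]
  have hF₁mem : ∀ e ∈ edgesIn G W₁, c (e.map f₀) ∈ F₁ := fun e he =>
    mem_image_of_mem (fun e => c (e.map f₀)) he
  obtain ⟨u₁, u₂, hu, hu₁, hu₂, husum⟩ := ModEven.exists_pair g
    (∑ v ∈ oddIn G W W₁, π (f₀ v)) hf₀s F₁ (by
      rw [hF₁card]
      rcases Nat.eq_zero_or_pos (numEdgesIn G W₁) with h0 | h0
      · rw [h0]; omega
      · nlinarith)
  have hFcard : (insert u₁ (insert u₂ F₁)).card ≤ numEdgesIn G W₁ + 2 := by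
    have e1 := card_insert_le u₁ (insert u₂ F₁)
    have e2 := card_insert_le u₂ F₁
    omega
  have h6 : numEdgesIn G W₂ + (m i + 1) = numEdgesIn G W := hc₁.symm
  obtain ⟨f, w, hf, hfW, hfinj, hfnew, hwlen, hwker, hwcol⟩ := hE' n (by omega) c B hB₁ f₀ hf₀
    hf₀' (insert u₁ (insert u₂ F₁))
    (fun e he => mem_insert_of_mem (mem_insert_of_mem (hF₁mem e he)))
    (le_trans (Nat.mul_le_mul_left _ (by omega)) h3) (by omega)
  have hfW1 : ∀ e ∈ edgesIn G W₁, e.map f = e.map f₀ := by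
    intro e he
    exact map_congr_of e f f₀ (fun x hx => hfW x (((mem_edgesIn G W₁ e).1 he).2 x hx))
  set E : Finset (Fin K) := (edgesIn G W₂).image (fun e => c (e.map f)) with hEdef
  have hEcard : E.card = numEdgesIn G W₂ := by
    rw [hEdef, card_image_of_injOn hfinj, card_edgesIn]
  have hEmem : ∀ e ∈ edgesIn G W₂, c (e.map f) ∈ E := fun e he =>
    mem_image_of_mem (fun e => c (e.map f)) he
  have hEu : ∀ u, u = u₁ ∨ u = u₂ → u ∉ E := by
    intro u hu' huE
    rw [hEdef, mem_image] at huE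
    obtain ⟨e, he, hee⟩ := huE
    by_cases he₁ : e ∈ edgesIn G W₁
    · have e1 := hF₁mem e he₁
      rw [← hfW1 e he₁] at e1
      have e2 : c (e.map f) = u := hee
      rw [e2] at e1
      rcases hu' with rfl | rfl
      · exact hu₁ e1
      · exact hu₂ e1
    · apply hfnew e he he₁
      have e2 : c (e.map f) = u := hee
      rw [e2]
      rcases hu' with rfl | rfl
      · exact mem_insert_self _ _
      · exact mem_insert_of_mem (mem_insert_self _ _)
  have hu₂E : u₂ ∉ E := hEu u₂ (Or.inr rfl)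
  have hu₁E : u₁ ∉ insert u₂ E := by
    rw [mem_insert, not_or]
    exact ⟨hu, hEu u₁ (Or.inl rfl)⟩
  set T : Finset (Fin K) := (insert u₁ (insert u₂ E))ᶜ with hT
  have hTcard : T.card = m i + 1 := by
    rw [hT, card_compl, Fintype.card_fin, card_insert_of_notMem hu₁E, card_insert_of_notMem hu₂E,
      hEcard]
    omega
  -- the sum of the labels of the colours of `E`
  have hr : 2 ≤ r := by
    have e1 := Fintype.card_congr g
    rw [Fintype.card_fin, Fintype.card_fun, ZMod.card, Fintype.card_fin] at e1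
    by_contra hcon
    have e2 : 2 ^ r ≤ 2 ^ 1 := Nat.pow_le_pow_right (by norm_num) (by omega)
    omega
  have hEsum : ∑ a ∈ E, g a = ∑ e ∈ edgesIn G W₁, esum (fun v => π (f v)) e +
      ∑ j : Fin q, (π (f (P (i.succAbove j) 0)) +
        π (f (P (i.succAbove j) (m (i.succAbove j) + 1)))) := by
    rw [hEdef, sum_image hfinj, ModEven.sum_split hk hP₂]
    congr 1
    · refine sum_congr rfl fun e he => ?_
      rw [hfW1 e he]
      induction e using Sym2.inductionOn with
      | hf a b =>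
        have e1 := hf₀t a b he
        rw [esum_mk]
        have e2 := ((mem_edgesIn G W₁ _).1 he).2
        change g (c s(f₀ a, f₀ b)) = π (f a) + π (f b)
        rw [hfW a (e2 a (Sym2.mem_mk_left _ _)), hfW b (e2 b (Sym2.mem_mk_right _ _)), e1]
    · refine sum_congr rfl fun j _ => ?_
      have e1 : 2 ≤ (w j).length := by
        rw [hwlen j]
        have := hP₂.long j
        omega
      have e2 : (w j).length ≤ K := by
        rw [hwlen j]
        have e3 : m (i.succAbove j) + 1 ≤ ∑ j : Fin q, (m (i.succAbove j) + 1) :=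
          Finset.single_le_sum (f := fun j : Fin q => m (i.succAbove j) + 1)
            (fun _ _ => Nat.zero_le _) (mem_univ j)
        have e4 : numEdgesIn G W₂ = numEdgesIn G W₁ + ∑ j : Fin q, (m (i.succAbove j) + 1) := hc₂
        omega
      have e3 := hK n K r c B g π ξ _ hB₃ hLab hn0 (by omega) hξ0 hδ₃.le hnum (w j) _ _ e1 e2
        (hwker j)
      rw [e3, ← add_assoc, ModEven.dbl, zero_add]
      rw [← ModEven.sum_list g (w j) (fun t => g (c ((s(P (i.succAbove j) t,
        P (i.succAbove j) (t + 1)) : Sym2 V).map f)))]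
      · rw [hwlen j]
      · intro t ht
        have e4 := hwcol j t ht
        rw [← e4]
        rfl
  have hhand := hV V G W W₁ (q + 1) k m P r (fun v => π (f v)) hk hP
  have hO' : ∑ v ∈ oddIn G W W₁, π (f v) = ∑ v ∈ oddIn G W W₁, π (f₀ v) := by
    refine sum_congr rfl fun v hv => ?_
    rw [hfW v ((mem_oddIn G W W₁ v).1 hv).1]
  rw [Fin.sum_univ_succAbove _ i] at hhand
  have hhand' : ∑ a ∈ E, g a + (π (f (P i 0)) + π (f (P i (m i + 1)))) = g u₁ + g u₂ := by
    rw [husum, ← hO', ← hhand, hEsum]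
    abel
  have hTsum : ∑ a ∈ T, g a = π (f (P i 0)) + π (f (P i (m i + 1))) := by
    have e1 : ∑ a ∈ T, g a + ∑ a ∈ insert u₁ (insert u₂ E), g a = ∑ a, g a := by
      rw [hT, add_comm]
      exact Finset.sum_add_sum_compl _ _
    have e2 : ∑ a, g a = 0 := by
      rw [Equiv.sum_comp g (fun v => v)]
      exact ModEven.all_sum hr
    rw [sum_insert hu₁E, sum_insert hu₂E, e2] at e1
    have e3 : g u₁ + (g u₂ + ∑ a ∈ E, g a) = π (f (P i 0)) + π (f (P i (m i + 1))) := by
      rw [← add_assoc, ← hhand']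
      calc ∑ a ∈ E, g a + (π (f (P i 0)) + π (f (P i (m i + 1)))) + ∑ a ∈ E, g a
          = (∑ a ∈ E, g a + ∑ a ∈ E, g a) + (π (f (P i 0)) + π (f (P i (m i + 1)))) := by abel
        _ = π (f (P i 0)) + π (f (P i (m i + 1))) := by rw [ModEven.dbl, zero_add]
    rw [e3] at e1
    calc ∑ a ∈ T, g a = ∑ a ∈ T, g a + ((π (f (P i 0)) + π (f (P i (m i + 1)))) +
          (π (f (P i 0)) + π (f (P i (m i + 1))))) := by rw [ModEven.dbl, add_zero]
      _ = (∑ a ∈ T, g a + (π (f (P i 0)) + π (f (P i (m i + 1))))) +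
          (π (f (P i 0)) + π (f (P i (m i + 1)))) := by abel
      _ = π (f (P i 0)) + π (f (P i (m i + 1))) := by rw [e1, zero_add]
  obtain ⟨U, hUT, hUcard⟩ := exists_subset_card_eq (s := T) (n := 2) (by omega)
  have hU'card : (T \ U).card = m i - 1 := by
    rw [card_sdiff_of_subset hUT, hTcard, hUcard]
    omega
  have hUU' : ∑ a ∈ T \ U, g a + ∑ a ∈ U, g a = ∑ a ∈ T, g a := sum_sdiff hUT
  refine hL' n (by omega) c B hB₂ f hf hfinj U (T \ U) (card_pos.1 (by omega))
    (card_pos.1 (by omega)) disjoint_sdiff (by omega) ?_ ?_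
  · intro e he
    have e1 := hEmem e he
    have e2 : c (e.map f) ∉ T := by
      rw [hT, mem_compl, not_not]
      exact mem_insert_of_mem (mem_insert_of_mem e1)
    exact ⟨fun h => e2 (hUT h), fun h => e2 (mem_sdiff.1 h).1⟩
  · have hsub : univ.filter (fun z => π z = π (f (P i 0)) + ∑ a ∈ U, g a) ⊆
        reach c (Cyc.nrm B) θ (f (P i 0)) U ∩ reach c (Cyc.nrm B) θ (f (P i (m i + 1))) (T \ U) := by
      intro z hz
      rw [mem_filter] at hz
      have hθ4 : θ ≤ 1 / 4 := by
        rw [hθ]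
        apply one_div_le_one_div_of_le (by norm_num)
        linarith
      rw [mem_inter]
      refine ⟨hR n K r c B g π ξ _ θ hB₃ hLab hn0 (by omega) hξ0 hδ₃.le hnum hθ4 _ _ (by omega)
        z hz.2, hR n K r c B g π ξ _ θ hB₃ hLab hn0 (by omega) hξ0 hδ₃.le hnum hθ4 _ _ (by omega)
        z ?_⟩
      rw [hz.2]
      have e1 : ∑ a ∈ T \ U, g a + ∑ a ∈ U, g a = π (f (P i 0)) + π (f (P i (m i + 1))) :=
        hUU'.trans hTsum
      calc π (f (P i 0)) + ∑ a ∈ U, g a
          = (π (f (P i 0)) + π (f (P i (m i + 1)))) + π (f (P i (m i + 1))) + ∑ a ∈ U, g a := by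
            rw [add_assoc (π (f (P i 0))), ModEven.dbl, add_zero]
        _ = (∑ a ∈ T \ U, g a + ∑ a ∈ U, g a) + π (f (P i (m i + 1))) + ∑ a ∈ U, g a := by
            rw [e1]
        _ = π (f (P i (m i + 1))) + ∑ a ∈ T \ U, g a + (∑ a ∈ U, g a + ∑ a ∈ U, g a) := by abel
        _ = π (f (P i (m i + 1))) + ∑ a ∈ T \ U, g a := by rw [ModEven.dbl, add_zero]
    have hcl := (hC n K r c g π ξ hLab hn0 hK0 hξ0 (π (f (P i 0)) + ∑ a ∈ U, g a)).2
    have hle : ((univ.filter (fun z => π z = π (f (P i 0)) + ∑ a ∈ U, g a)).card : ℝ) ≤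
        ((reach c (Cyc.nrm B) θ (f (P i 0)) U ∩
          reach c (Cyc.nrm B) θ (f (P i (m i + 1))) (T \ U)).card : ℝ) := by
      exact_mod_cast card_le_card hsub
    unfold mu
    rw [lt_div_iff₀ hnR]
    have e1 : θ * n < (1 - 2 * ξ) * ((n : ℝ) / K) := by
      have e2 : θ * n = (1 / 4) * ((n : ℝ) / K) := by
        rw [hθ]
        field_simp
      rw [e2]
      have e3 : 2 * ξ ≤ 1 / 2 := by nlinarith
      have e4 : 0 < (n : ℝ) / K := by positivity
      nlinarith
    linarith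

end Pool.Agent.Lib.MP_b1acb3_co.Leaf
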