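import Pool.Agent.Lib.MP_b1acb3_co.Leaf.Stmts
import Pool.Agent.Lib.MP_b1acb3_co.Cyc.Final

/-!
Assembly of the classification of graphs with a leaf, from the modules.
-/

namespace Pool.Agent.Lib.MP_b1acb3_co.Leaf

open Finset Uni

namespace ModFinal

/-- Everything except one vertex of degree one. -/
theorem tree_erase {V : Type} [Fintype V] [DecidableEq V] (G : SimpleGraph V) (v : V)
    (hv : {u | G.Adj v u}.ncard = 1) : TreeLikeOutside G (univ.erase v) := by
  intro X hX
  obtain ⟨x, hx, hxW⟩ := exists_of_ssubset hX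
  have hxv : x = v := by
    by_contra h
    exact hxW (mem_erase.2 ⟨h, mem_univ _⟩)
  subst hxv
  refine ⟨x, hx, hxW, ?_⟩
  rw [← hv]
  exact Set.ncard_le_ncard (fun y hy => hy.2) (Set.toFinite _)

theorem edges_lt {V : Type} [Fintype V] [DecidableEq V] (G : SimpleGraph V) (v : V)
    (hv : {u | G.Adj v u}.ncard = 1) (W : Finset V) (hW : W ⊆ univ.erase v) :
    numEdgesIn G W + 1 ≤ numEdges G := by
  obtain ⟨u, hu⟩ := Set.ncard_eq_one.1 hv
  have hadj : G.Adj v u := by
    have : u ∈ {u | G.Adj v u} := by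
      rw [hu]
      exact Set.mem_singleton u
    exact this
  have h1 : s(v, u) ∉ edgesIn G W := by
    rw [mem_edgesIn]
    rintro ⟨_, h2⟩
    have h3 := hW (h2 v (Sym2.mem_mk_left v u))
    exact (notMem_erase v univ) h3
  have h2 : insert s(v, u) (edgesIn G W) ⊆ edgesIn G univ := by
    intro e he
    rw [mem_insert] at he
    rw [mem_edgesIn]
    rcases he with rfl | he
    · exact ⟨hadj, fun _ _ => mem_univ _⟩
    · exact ⟨((mem_edgesIn G _ e).1 he).1, fun _ _ => mem_univ _⟩
  have h3 := card_le_card h2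
  rw [card_insert_of_notMem h1, card_edgesIn G univ, numEdgesIn_univ, card_edgesIn] at h3
  exact h3

/-- From kernels to balanced colourings. -/
theorem forces_of {V : Type} [Fintype V] (G : SimpleGraph V)
    (h : ∃ δ : ℝ, 0 < δ ∧ ∃ n₀ : ℕ, ∀ n : ℕ, n₀ ≤ n →
      ∀ (c : Sym2 (Fin n) → Fin (numEdges G + 1))
        (B : Fin (numEdges G + 1) → Matrix (Fin n) (Fin n) ℝ), Env c B δ → HasRainbowCopy G c) :
    ForcesRainbow G := by
  obtain ⟨δ, hδ, n₀, h⟩ := h
  obtain ⟨ε, hε, hex⟩ := exists_env (numEdges G + 1) (Nat.succ_pos _) δ hδ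
  refine ⟨ε, hε, max n₀ 1, ?_⟩
  intro n hn c hc
  obtain ⟨B, hB⟩ := hex n ((le_max_right _ _).trans hn) c hc
  exact h n ((le_max_left _ _).trans hn) c B hB

end ModFinal

open ModFinal in
theorem thmFinal (hSysE : StSysE) (hStruE : StStruE) (hTight : StTight) (hLow : StLowN)
    (hTwo : StTwoN) (hThree : StThreeN) (hLabel : StLabel) (hEven : StEven) (hOdd : StOddNe)
    (hNum : StNum) : StFinal := by
  classical
  obtain ⟨K₁, hK₁⟩ := hTwo
  obtain ⟨K₂, hK₂⟩ := hThree
  obtain ⟨C, hC⟩ := hNum (max (10 ^ 6) (max K₁ K₂))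
  refine ⟨C, ?_⟩
  intro V _ G b hb hcyc hleaf hCe
  obtain ⟨v, hv⟩ := hleaf
  obtain ⟨k, d', N, he0, hch, hn1, hn2, hn3, hn4, hn5⟩ := hC b (numEdges G) hb hCe
  have he6 : 10 ^ 6 ≤ numEdges G := (le_max_left _ _).trans he0
  have heK₁ : K₁ ≤ numEdges G := ((le_max_left _ _).trans (le_max_right _ _)).trans he0
  have heK₂ : K₂ ≤ numEdges G := ((le_max_right _ _).trans (le_max_right _ _)).trans he0
  constructor
  · rintro hF ⟨⟨r, hr⟩, he⟩
    have hr2 : 2 ≤ r := by
      by_contra hcon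
      have h6 : r = 0 ∨ r = 1 := by omega
      rcases h6 with rfl | rfl <;> omega
    exact (Cyc.main_neg G r hr2 hr he).2 hF
  intro hno
  -- the core and its ears
  have hk : 1 ≤ k := by
    by_contra hcon
    have h0 : k = 0 := by omega
    rw [h0] at hch
    have h1 : (0 : ℕ).choose d' ≤ 1 := by
      rcases Nat.eq_zero_or_pos d' with rfl | hd
      · simp
      · rw [Nat.choose_eq_zero_of_lt hd]
        exact Nat.zero_le _
    have h2 : 1 ≤ (numEdges G + 1) ^ 2 := Nat.one_le_pow _ _ (Nat.succ_pos _)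
    omega
  obtain ⟨W', W₀, hWW, hTL, hsub, hcard, hf, hdeg, hforest⟩ :=
    Cyc.graph_part V G (univ.erase v) b (tree_erase G v hv) hcyc
  obtain ⟨q₀, m₀, P₀, hP₀⟩ := Cyc.decomp V G W' W₀ hsub hdeg hforest
  obtain ⟨hc1, hc2⟩ := Cyc.count_ears V G W' W₀ q₀ 1 m₀ P₀ le_rfl hP₀
  have hsum : ∑ i, (m₀ i + 1) = ∑ i, m₀ i + q₀ := by
    rw [sum_add_distrib, sum_const, card_univ, Fintype.card_fin, smul_eq_mul, mul_one]
  have hq : q₀ ≤ 4 * b - 3 := by
    by_cases hne : W'.Nonempty
    · obtain ⟨h1, h2⟩ := hcard hne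
      omega
    · rw [not_nonempty_iff_eq_empty] at hne
      rw [hne, card_empty] at hc2
      have h1 : q₀ ≤ ∑ i, m₀ i := by
        calc q₀ = ∑ _i : Fin q₀, 1 := by simp
          _ ≤ ∑ i, m₀ i := sum_le_sum (fun i _ => hP₀.long i)
      omega
  obtain ⟨W₁, q', m, P, hW01, hq', hP, hf1⟩ := Cyc.short_ears V G W' W₀ q₀ k m₀ P₀ hk hP₀
  have hf2 : numEdgesIn G W₁ ≤ 4 * b * (k + 1) := by
    calc numEdgesIn G W₁ ≤ 4 * b + (4 * b - 3) * k :=
          hf1.trans (Nat.add_le_add hf (Nat.mul_le_mul_right _ hq))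
      _ ≤ 4 * b + (4 * b) * k := by
          apply Nat.add_le_add_left
          apply Nat.mul_le_mul_right
          omega
      _ = _ := by ring
  have hlt := edges_lt G v hv W' hWW
  have hbd : 4 * b * d' ≤ numEdges G := by
    have : 4 * b * d' ≤ 16 * b * (N + 2 + 4 * b * d' + k + 1) := by
      calc 4 * b * d' ≤ 1 * (N + 2 + 4 * b * d' + k + 1) := by omega
        _ ≤ _ := Nat.mul_le_mul_right _ (by omega)
    omega
  have hbd2 : 64 * (b * (4 * b * d')) ≤ 4 * numEdges G := by
    have : 64 * (b * (4 * b * d')) ≤ 4 * (16 * b * (N + 2 + 4 * b * d' + k + 1)) := by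
      calc 64 * (b * (4 * b * d')) ≤ 64 * (b * (N + 2 + 4 * b * d' + k + 1)) := by
            apply Nat.mul_le_mul_left
            apply Nat.mul_le_mul_left
            omega
        _ = _ := by ring
    omega
  by_cases hsmall : 2 * numEdgesIn G W' ≤ numEdges G
  · -- few edges in the core
    apply Cyc.main_param G W' b k d' hb hTL hcyc hch
    · calc 24 * b ^ 2 * (k + 1) ^ 2 ≤ 256 * b ^ 2 * (k + 1) ^ 2 := by
            apply Nat.mul_le_mul_right
            apply Nat.mul_le_mul_right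
            norm_num
        _ ≤ _ := hn1
    · have h1 : (4 * b - 3) * d' ≤ 4 * b * d' := Nat.mul_le_mul_right _ (by omega)
      have h2 : 4 * b * d' ≤ b * (4 * b * d') := Nat.le_mul_of_pos_left _ (by omega)
      omega
  · push Not at hsmall
    -- there is an ear
    have hcount := (Cyc.count_ears V G W' W₁ q' k m P hk hP).1
    have hb1 : 4 * b * (k + 1) ≤ b * (k + 1) * (64 * (N + 2)) := by
      calc 4 * b * (k + 1) = b * (k + 1) * 4 := by ring
        _ ≤ _ := Nat.mul_le_mul_left _ (by omega)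
    have hb2 : b * (k + 1) * (64 * (N + 2)) = 64 * b * (k + 1) * (N + 2) := by ring
    have hb3 : 32 * (4 * b * (k + 1)) ≤ numEdges G := by
      calc 32 * (4 * b * (k + 1)) = 64 * b * (k + 1) * 2 := by ring
        _ ≤ 64 * b * (k + 1) * (N + 2) := Nat.mul_le_mul_left _ (by omega)
        _ ≤ _ := hn2
    obtain ⟨q, rfl⟩ : ∃ q, q' = q + 1 := by
      rcases Nat.eq_zero_or_pos q' with h0 | h0
      · exfalso
        subst h0
        rw [Finset.univ_eq_empty, Finset.sum_empty, add_zero] at hcount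
        omega
      · exact ⟨q' - 1, by omega⟩
    obtain ⟨i, _, hi⟩ := exists_max_image (univ : Finset (Fin (q + 1))) m univ_nonempty
    have hql : ∑ j, (m j + 1) ≤ (q + 1) * (m i + 1) := by
      calc ∑ j, (m j + 1) ≤ ∑ _j : Fin (q + 1), (m i + 1) := by
            apply sum_le_sum
            intro j _
            have := hi j (mem_univ j)
            omega
        _ = _ := by rw [sum_const, card_univ, Fintype.card_fin, smul_eq_mul]
    have hq4 : q + 1 ≤ 4 * b := by omega
    -- the last ear is long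
    have hlong : N + 2 + q * d' < m i + 1 := by
      by_contra hcon
      push Not at hcon
      have h1 : (q + 1) * (m i + 1) ≤ (4 * b) * (N + 2 + 4 * b * d') := by
        apply Nat.mul_le_mul hq4
        refine hcon.trans ?_
        apply Nat.add_le_add_left
        apply Nat.mul_le_mul_right
        omega
      have h2 : 2 * ((4 * b) * (N + 2 + 4 * b * d')) + 2 * (4 * b * (k + 1)) ≤
          16 * b * (N + 2 + 4 * b * d' + k + 1) := by
        calc 2 * ((4 * b) * (N + 2 + 4 * b * d')) + 2 * (4 * b * (k + 1)) =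
              8 * b * (N + 2 + 4 * b * d' + k + 1) := by ring
          _ ≤ _ := by
              apply Nat.mul_le_mul_right
              omega
      omega
    obtain ⟨d, hd⟩ : ∃ d, numEdgesIn G W' + d = numEdges G + 1 :=
      ⟨numEdges G + 1 - numEdgesIn G W', by omega⟩
    have hd2 : 2 ≤ d := by omega
    -- numerical conditions
    have c1 : 16 * numEdgesIn G W₁ ^ 2 ≤ numEdges G + 1 := by
      calc 16 * numEdgesIn G W₁ ^ 2 ≤ 16 * (4 * b * (k + 1)) ^ 2 := by
            apply Nat.mul_le_mul_left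
            exact Nat.pow_le_pow_left hf2 2
        _ = 256 * b ^ 2 * (k + 1) ^ 2 := by ring
        _ ≤ _ := by omega
    have c2 : 16 * numEdgesIn G W₁ * (N + 2) ≤ numEdges G + 1 := by
      calc 16 * numEdgesIn G W₁ * (N + 2) ≤ 16 * (4 * b * (k + 1)) * (N + 2) := by
            apply Nat.mul_le_mul_right
            exact Nat.mul_le_mul_left _ hf2
        _ = 64 * b * (k + 1) * (N + 2) := by ring
        _ ≤ _ := by omega
    have hqk : q * k ≤ 4 * b * k := Nat.mul_le_mul_right _ (by omega)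
    have hk2 : 4 * b * (k + 1) = 4 * b * k + 4 * b := by ring
    have c3 : 2 * k * (numEdgesIn G W₁ + (N + 2) + q * k) ≤ numEdges G + 1 := by
      calc 2 * k * (numEdgesIn G W₁ + (N + 2) + q * k) ≤
            2 * k * (8 * b * (k + 1) + N + 2) := by
            apply Nat.mul_le_mul_left
            have : 8 * b * (k + 1) = 4 * b * (k + 1) + 4 * b * (k + 1) := by ring
            omega
        _ ≤ _ := by omega
    have c3' : 2 * k * (numEdgesIn G W₁ + 2 + q * k) ≤ numEdges G + 1 := by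
      refine le_trans ?_ c3
      apply Nat.mul_le_mul_left
      omega
    have c4 : 4 * N ≤ numEdges G + 1 := by
      have h1 : 4 * N ≤ 64 * b * (k + 1) * (N + 2) := by
        calc 4 * N ≤ 64 * 1 * 1 * (N + 2) := by omega
          _ ≤ _ := by
              apply Nat.mul_le_mul_right
              exact Nat.mul_le_mul (Nat.mul_le_mul_left _ hb) (by omega)
      omega
    have c5 : 2 * (numEdgesIn G W₁ + 2) * N ≤ numEdges G + 1 := by
      have h1 : numEdgesIn G W₁ + 2 ≤ 6 * b * (k + 1) := by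
        have h2 : 2 ≤ 2 * (b * (k + 1)) := by
          have : 1 ≤ b * (k + 1) := Nat.mul_pos (by omega) (by omega)
          omega
        have h3 : 6 * b * (k + 1) = 4 * b * (k + 1) + 2 * (b * (k + 1)) := by ring
        omega
      calc 2 * (numEdgesIn G W₁ + 2) * N ≤ 2 * (6 * b * (k + 1)) * N := by
            apply Nat.mul_le_mul_right
            exact Nat.mul_le_mul_left _ h1
        _ = 12 * (b * (k + 1)) * N := by ring
        _ ≤ 64 * (b * (k + 1)) * (N + 2) :=
            Nat.mul_le_mul (Nat.mul_le_mul_right _ (by norm_num)) (by omega)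
        _ = 64 * b * (k + 1) * (N + 2) := by ring
        _ ≤ _ := by omega
    set K : ℕ := numEdges G + 1 with hKdef
    have hKR : (10 : ℝ) ^ 6 ≤ (K : ℝ) := by
      have : 10 ^ 6 ≤ K := by omega
      exact_mod_cast this
    have hK0 : (0 : ℝ) < K := by linarith
    have hK1 : (1 : ℝ) ≤ K := by linarith
    have hN2 : 2 ≤ N := by
      by_contra hcon
      have h1 : (N : ℝ) ≤ 1 := by
        have : N ≤ 1 := by omega
        exact_mod_cast this
      have h2 : (N : ℝ) ^ 2 ≤ 1 := pow_le_one₀ (Nat.cast_nonneg N) h1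
      have h3 : 0 ≤ Real.log K := Real.log_nonneg hK1
      have h4 : (1 : ℝ) ≤ (Real.log K + 1) ^ 2 := one_le_pow₀ (by linarith)
      have h5 : 1000 * (K : ℝ) * 1 ≤ 1000 * (K : ℝ) * (Real.log K + 1) ^ 2 :=
        mul_le_mul_of_nonneg_left h4 (by positivity)
      linarith
    set θ : ℝ := 1 / (K : ℝ) ^ 20 with hθdef
    have hθ0 : 0 < θ := by positivity
    have hθK : θ * (K : ℝ) ^ 20 ≤ 1 := by
      rw [hθdef, one_div, inv_mul_cancel₀ (by positivity)]
    obtain ⟨δ₁, hδ₁, n₁, hn₁⟩ := hSysE K θ (by omega) hθ0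
    obtain ⟨δ₂, hδ₂, n₂, hn₂⟩ := hTight V G W' W₁ q k d d' (N + 2) m P i θ hθ0 hTL hP hch hd c1
      c2 c3 (by omega)
    apply forces_of
    rcases Nat.eq_or_lt_of_le hd2 with h2 | h3
    · subst h2
      set ζ : ℝ := 1 / (K : ℝ) ^ 5 with hζdef
      have hζ0 : 0 < ζ := by positivity
      have hθζ : 2 * (K : ℝ) * θ ≤ ζ := by
        rw [hζdef, hθdef, mul_one_div, div_le_div_iff₀ (by positivity) (by positivity), one_mul]
        have h14 : (2 : ℝ) ≤ (K : ℝ) ^ 14 := by
          calc (2 : ℝ) ≤ K := by linarith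
            _ = (K : ℝ) ^ 1 := (pow_one _).symm
            _ ≤ (K : ℝ) ^ 14 := pow_le_pow_right₀ hK1 (by norm_num)
        calc 2 * (K : ℝ) * (K : ℝ) ^ 5 ≤ (K : ℝ) ^ 14 * (K : ℝ) * (K : ℝ) ^ 5 := by gcongr
          _ = (K : ℝ) ^ 20 := by ring
      obtain ⟨δ₃, hδ₃, n₃, hn₃⟩ := hStruE K θ ζ (by omega) hθ0 hθζ
      have hE : ∃ δ : ℝ, 0 < δ ∧ ∃ n₀ : ℕ, ∀ n : ℕ, n₀ ≤ n → ∀ (c : Sym2 (Fin n) → Fin K)
          (B : Fin K → Matrix (Fin n) (Fin n) ℝ), Env c B δ →
          ∀ (r : ℕ) (g : Fin K ≃ (Fin r → ZMod 2)) (π : Fin n → Fin r → ZMod 2) (ξ : ℝ), 0 ≤ ξ →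
            Label c g π ξ → 32 * (K : ℝ) ^ 2 * ξ ≤ 1 → HasRainbowCopy G c := by
        by_cases hpow : ∃ r : ℕ, K = 2 ^ r
        · have hodd : (oddIn G W' W₁).Nonempty := by
            refine hOdd V G W' W₁ (q + 1) k m P hk hP (by omega) ?_
            intro h
            exact hno ⟨hpow, h⟩
          exact hEven V G W' W₁ q k d' m P i hTL hP hch hd hodd (by omega) c1 c3' (by omega)
            (by omega)
        · refine ⟨1, one_pos, 0, ?_⟩
          intro n _ c B _ r g
          exfalso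
          apply hpow
          refine ⟨r, ?_⟩
          have := Fintype.card_congr g
          rw [Fintype.card_fin, Fintype.card_fun, ZMod.card, Fintype.card_fin] at this
          exact this
      obtain ⟨δ₄, hδ₄, n₄, hn₄⟩ := hE
      obtain ⟨n₅, hn₅⟩ := exists_nat_gt ((K : ℝ) / ζ)
      refine ⟨min (min δ₁ δ₂) (min δ₃ δ₄), lt_min (lt_min hδ₁ hδ₂) (lt_min hδ₃ hδ₄),
        n₁ + n₂ + n₃ + n₄ + n₅ + 1, ?_⟩
      intro n hn c B hB
      have hB1 : Env c B δ₁ := hB.mono ((min_le_left _ _).trans (min_le_left _ _))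
      have hB2 : Env c B δ₂ := hB.mono ((min_le_left _ _).trans (min_le_right _ _))
      have hB3 : Env c B δ₃ := hB.mono ((min_le_right _ _).trans (min_le_left _ _))
      have hB4 : Env c B δ₄ := hB.mono ((min_le_right _ _).trans (min_le_right _ _))
      by_contra hcopy
      have hsys := hn₁ n (by omega) c B hB1
      have htight := hn₂ n (by omega) c B hB2 hcopy
      have htwo := hK₁ K (by omega) n (Cyc.nrm B) (fun x => reach c (Cyc.nrm B) θ x) θ (m i + 1)
        (numEdgesIn G W₁) N hsys hθK c4 hn5 c5 (by omega) htight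
      have hstruct := hn₃ n (by omega) c B hB3 (fun x a b hab => htwo x a b hab)
      have hz1 : 100000 * (K : ℝ) ^ 2 * ζ ≤ 1 := by
        rw [hζdef, mul_one_div, div_le_one (by positivity)]
        have : (100000 : ℝ) ≤ (K : ℝ) ^ 3 := by
          calc (100000 : ℝ) ≤ K := by linarith
            _ = (K : ℝ) ^ 1 := (pow_one _).symm
            _ ≤ (K : ℝ) ^ 3 := pow_le_pow_right₀ hK1 (by norm_num)
        calc 100000 * (K : ℝ) ^ 2 ≤ (K : ℝ) ^ 3 * (K : ℝ) ^ 2 := by gcongr
          _ = (K : ℝ) ^ 5 := by ring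
      have hz2 : (K : ℝ) ≤ ζ * n := by
        have h8 : (K : ℝ) / ζ ≤ n := by
          have : (n₅ : ℝ) ≤ n := by
            have : n₅ ≤ n := by omega
            exact_mod_cast this
          linarith
        rw [div_le_iff₀ hζ0] at h8
        linarith
      obtain ⟨r, g, π, hL⟩ := hLabel n K c ζ (by omega) hζ0.le hz1 hz2 hstruct
      apply hcopy
      apply hn₄ n (by omega) c B hB4 r g π (10000 * (K : ℝ) ^ 2 * ζ) (by positivity) hL
      have h9 : 32 * (K : ℝ) ^ 2 * (10000 * (K : ℝ) ^ 2 * ζ) = 320000 * (K : ℝ) ^ 4 * ζ := by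
        ring
      rw [h9, hζdef, mul_one_div, div_le_one (by positivity)]
      calc 320000 * (K : ℝ) ^ 4 ≤ K * (K : ℝ) ^ 4 := by
            apply mul_le_mul_of_nonneg_right _ (by positivity)
            linarith
        _ = (K : ℝ) ^ 5 := by ring
    · refine ⟨min δ₁ δ₂, lt_min hδ₁ hδ₂, n₁ + n₂ + 1, ?_⟩
      intro n hn c B hB
      have hB1 : Env c B δ₁ := hB.mono (min_le_left _ _)
      have hB2 : Env c B δ₂ := hB.mono (min_le_right _ _)
      by_contra hcopy
      have hsys := hn₁ n (by omega) c B hB1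
      have htight := hn₂ n (by omega) c B hB2 hcopy
      have hlow := hLow n K (Cyc.nrm B) (fun x => reach c (Cyc.nrm B) θ x) θ (m i + 1) d
        (numEdgesIn G W₁) (N + 2) 3 hsys htight (by omega) (by norm_num) (by omega)
        ⟨0, by omega⟩
      exact hK₂ K (by omega) n (Cyc.nrm B) _ θ N (hsys ⟨0, by omega⟩) hθK c4 hn5
        (fun Q hQ => hlow Q (by omega))

end Pool.Agent.Lib.MP_b1acb3_co.Leaf
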