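import Pool.Agent.Lib.MP_b1acb3_co.Leaf.Stmts
import Pool.Agent.Lib.MP_b1acb3_co.Cyc.Count

/-!
Vector form of the handshake lemma for a union of ears.
-/

namespace Pool.Agent.Lib.MP_b1acb3_co.Leaf

open Finset Uni

namespace ModHandV

section char2

variable {r : ℕ}

theorem dbl (a : Fin r → ZMod 2) : a + a = 0 := by
  funext i
  exact CharTwo.add_self_eq_zero (a i)

theorem nsmul_eq (k : ℕ) (a : Fin r → ZMod 2) : k • a = if Odd k then a else 0 := by
  rcases Nat.even_or_odd' k with ⟨c, rfl | rfl⟩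
  · rw [if_neg (by simp), mul_comm, mul_smul, two_smul, dbl, smul_zero]
  · rw [if_pos ⟨c, rfl⟩, add_smul, one_smul, mul_comm, mul_smul, two_smul, dbl, smul_zero, zero_add]

/-- Telescoping. -/
theorem tele (a : ℕ → Fin r → ZMod 2) (n : ℕ) :
    ∑ j ∈ range (n + 1), (a j + a (j + 1)) = a 0 + a (n + 1) := by
  induction n with
  | zero => rw [sum_range_one]
  | succ n ih =>
    rw [sum_range_succ, ih]
    calc a 0 + a (n + 1) + (a (n + 1) + a (n + 1 + 1))
        = a 0 + (a (n + 1) + a (n + 1)) + a (n + 1 + 1) := by abel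
      _ = a 0 + a (n + 1 + 1) := by rw [dbl, add_zero]

end char2

/-- The handshake lemma. -/
theorem handshake {V A : Type} [Fintype V] [AddCommMonoid A] (G : SimpleGraph V) (W : Finset V)
    (φ : V → A) :
    ∑ e ∈ edgesIn G W, esum φ e = ∑ v ∈ W, {u | u ∈ W ∧ G.Adj v u}.ncard • φ v := by
  classical
  set D : Finset (V × V) := (W ×ˢ W).filter (fun p => G.Adj p.1 p.2) with hD
  have h1 : ∑ p ∈ D, φ p.1 = ∑ v ∈ W, {u | u ∈ W ∧ G.Adj v u}.ncard • φ v := by
    rw [hD, sum_filter, sum_product]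
    refine sum_congr rfl fun v _ => ?_
    rw [← sum_filter]
    change ∑ _u ∈ W.filter (fun u => G.Adj v u), φ v = _
    rw [sum_const]
    congr 1
    rw [← Set.ncard_coe_finset]
    congr 1
    ext u
    simp
  have h2 : ∑ p ∈ D, φ p.1 = ∑ e ∈ edgesIn G W, esum φ e := by
    rw [← sum_fiberwise_of_maps_to (g := fun p : V × V => s(p.1, p.2)) (t := edgesIn G W)]
    · refine sum_congr rfl fun e he => ?_
      induction e using Sym2.inductionOn with
      | hf u v =>
        rw [mem_edgesIn] at he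
        have huv : G.Adj u v := he.1
        have hu : u ∈ W := he.2 u (Sym2.mem_mk_left _ _)
        have hv : v ∈ W := he.2 v (Sym2.mem_mk_right _ _)
        have h3 : D.filter (fun p => s(p.1, p.2) = s(u, v)) = {(u, v), (v, u)} := by
          ext ⟨a, b⟩
          simp only [hD, mem_filter, mem_product, mem_insert, mem_singleton, Sym2.eq_iff,
            Prod.mk.injEq]
          constructor
          · rintro ⟨-, h | h⟩
            · exact Or.inl h
            · exact Or.inr h
          · rintro (⟨rfl, rfl⟩ | ⟨rfl, rfl⟩)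
            · exact ⟨⟨⟨hu, hv⟩, huv⟩, Or.inl ⟨rfl, rfl⟩⟩
            · exact ⟨⟨⟨hv, hu⟩, huv.symm⟩, Or.inr ⟨rfl, rfl⟩⟩
        rw [h3, sum_pair, esum_mk]
        intro h
        exact huv.ne (congrArg Prod.fst h)
    · rintro ⟨a, b⟩ hp
      rw [hD, mem_filter, mem_product] at hp
      rw [mem_edgesIn]
      refine ⟨hp.2, fun x hx => ?_⟩
      rw [Sym2.mem_iff] at hx
      rcases hx with rfl | rfl
      · exact hp.1.1
      · exact hp.1.2
  rw [← h2, h1]

section ears

variable {V : Type} [Fintype V] {G : SimpleGraph V} {W W₁ : Finset V} {q k : ℕ}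
  {m : Fin q → ℕ} {P : Fin q → ℕ → V}

/-- Inner vertices of ears have two neighbours. -/
theorem ncard_inner (hP : Cyc.Ears G W W₁ q k m P) (i : Fin q) (j : ℕ) (h1 : 1 ≤ j)
    (h2 : j ≤ m i) : {u | u ∈ W ∧ G.Adj (P i j) u}.ncard = 2 := by
  have h3 : {u | u ∈ W ∧ G.Adj (P i j) u} = {P i (j - 1), P i (j + 1)} := by
    ext u
    simp only [Set.mem_ofPred_eq, Set.mem_insert_iff, Set.mem_singleton_iff]
    constructor
    · rintro ⟨hu, hadj⟩
      exact hP.only i j u h1 h2 hu hadj
    · rintro (rfl | rfl)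
      · refine ⟨Cyc.ears_mem hP i (j - 1) (by omega), ?_⟩
        have h4 := hP.adj i (j - 1) (by omega)
        rw [Nat.sub_add_cancel h1] at h4
        exact h4.symm
      · exact ⟨Cyc.ears_mem hP i (j + 1) (by omega), hP.adj i j h2⟩
  rw [h3, Set.ncard_pair (hP.ne i j h1 h2)]

/-- The sum over the edges of the ears. -/
theorem sum_ears (hk : 1 ≤ k) (hP : Cyc.Ears G W W₁ q k m P) {r : ℕ} (φ : V → Fin r → ZMod 2) :
    ∑ e ∈ edgesIn G W, esum φ e =
      ∑ e ∈ edgesIn G W₁, esum φ e + ∑ i, (φ (P i 0) + φ (P i (m i + 1))) := by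
  classical
  set E : Finset (Sym2 V) := (univ : Finset (Σ i : Fin q, Fin (m i + 1))).image
    (fun p => s(P p.1 p.2, P p.1 (p.2 + 1))) with hE
  have hdisj : Disjoint (edgesIn G W₁) E := by
    rw [Finset.disjoint_left]
    intro e he he'
    rw [hE, mem_image] at he'
    obtain ⟨⟨i, j⟩, _, rfl⟩ := he'
    rw [mem_edgesIn] at he
    simp only at he
    have hmi := hP.long i
    rcases Nat.eq_zero_or_pos (j : ℕ) with h0 | h0
    · have h1 := he.2 (P i (j + 1)) (Sym2.mem_mk_right _ _)
      exact (hP.inner i (j + 1) (by omega) (by omega)).2 h1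
    · have h1 := he.2 (P i j) (Sym2.mem_mk_left _ _)
      exact (hP.inner i j h0 (by have := j.isLt; omega)).2 h1
  have hunion : edgesIn G W = edgesIn G W₁ ∪ E := by
    ext e
    rw [mem_union]
    constructor
    · intro he
      rcases Cyc.edge_cases G W W₁ q k m P hP e he with h | ⟨i, j, hj, rfl⟩
      · exact Or.inl h
      · right
        rw [hE, mem_image]
        exact ⟨⟨i, ⟨j, by omega⟩⟩, mem_univ _, rfl⟩
    · rintro (h | h)
      · rw [mem_edgesIn] at h ⊢
        exact ⟨h.1, fun x hx => hP.sub (h.2 x hx)⟩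
      · rw [hE, mem_image] at h
        obtain ⟨⟨i, j⟩, _, rfl⟩ := h
        rw [mem_edgesIn]
        have hjlt := j.isLt
        refine ⟨hP.adj i j (by omega), ?_⟩
        intro x hx
        rw [Sym2.mem_iff] at hx
        rcases hx with rfl | rfl
        · exact Cyc.ears_mem hP i j (by omega)
        · exact Cyc.ears_mem hP i (j + 1) (by omega)
  have hsum : ∑ e ∈ E, esum φ e = ∑ i, (φ (P i 0) + φ (P i (m i + 1))) := by
    rw [hE, sum_image]
    · rw [Fintype.sum_sigma]
      refine sum_congr rfl fun i _ => ?_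
      have h1 := tele (fun j => φ (P i j)) (m i)
      rw [← h1, Finset.sum_range]
      rfl
    · rintro ⟨i, j⟩ _ ⟨i', j'⟩ _ h
      obtain ⟨h1, h2⟩ := Cyc.ear_edge_inj hk hP i i' j j' (by have := j.isLt; omega)
        (by have := j'.isLt; omega) h
      subst h1
      have : j = j' := Fin.ext h2
      rw [this]
  rw [hunion, sum_union hdisj, hsum]

end ears

end ModHandV

theorem thmHandV : StHandV := by
  classical
  intro V _ G W W₁ q k m P r φ hk hP
  rw [← ModHandV.sum_ears hk hP φ, ModHandV.handshake]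
  have h1 : ∑ v ∈ W, {u | u ∈ W ∧ G.Adj v u}.ncard • φ v =
      ∑ v ∈ W₁, {u | u ∈ W ∧ G.Adj v u}.ncard • φ v := by
    symm
    refine sum_subset hP.sub fun v hv hv1 => ?_
    obtain ⟨i, j, hj1, hj2, rfl⟩ := hP.cover v hv hv1
    rw [ModHandV.ncard_inner hP i j hj1 hj2, two_smul, ModHandV.dbl]
  rw [h1, sum_congr rfl fun v _ => ModHandV.nsmul_eq _ (φ v), ← sum_filter]
  refine sum_congr ?_ fun _ _ => rfl
  ext v
  rw [mem_oddIn, mem_filter]

end Pool.Agent.Lib.MP_b1acb3_co.Leaf
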