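import Pool.Agent.Lib.MP_b1acb3_co.Leaf.Stmts
import Pool.Agent.Lib.MP_b1acb3_co.Cyc.Ear

/-!
Module Ker: the label of the end of a word.
-/

namespace Pool.Agent.Lib.MP_b1acb3_co.Leaf

open Finset Uni

namespace ModKer

variable {n K r : ℕ} {c : Sym2 (Fin n) → Fin K} {B : Fin K → Matrix (Fin n) (Fin n) ℝ}
  {g : Fin K ≃ (Fin r → ZMod 2)} {π : Fin n → Fin r → ZMod 2} {ξ δ : ℝ}

lemma add_add_self (u t : Fin r → ZMod 2) : u + t + t = u := by
  have h : t + t = 0 := by
    funext i
    exact CharTwo.add_self_eq_zero (t i)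
  rw [add_assoc, h, add_zero]

lemma eq_add_comm (u v t : Fin r → ZMod 2) : u = v + t ↔ v = u + t := by
  constructor
  · rintro rfl
    rw [add_add_self]
  · rintro rfl
    rw [add_add_self]

/-- One step. -/
lemma step (hE : Env c B δ) (hL : Label c g π ξ) (hn : 0 < n) (hK : 0 < K) (y : Fin n)
    (a : Fin K) : ∑ z, (if π z ≠ π y + g a then (1 : ℝ) else 0) * Cyc.nrm B a y z ≤
      ξ + K / n + K * δ := by
  have hn' : (0 : ℝ) < n := by exact_mod_cast hn
  have hK' : (0 : ℝ) < K := by exact_mod_cast hK
  have hδ : 0 ≤ δ := by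
    have h1 := hE.upper a y y
    by_cases h2 : 0 ≤ δ
    · exact h2
    · exfalso
      -- some colour different from the colour of the loop, or only one colour
      push Not at h2
      have h3 : ∑ j, Cyc.nrm B a y j = 1 := Cyc.Ear.nrm_row hE.exact hK hn a y
      have h4 : ∀ k i j, (c s(i, j) ≠ k) → False := by
        intro k i j hk
        have h5 := hE.upper k i j
        rw [if_neg hk] at h5
        have h6 := hE.exact.nonneg k i j
        linarith
      have h5 : ∀ k : Fin K, c s(y, y) = k := fun k => by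
        by_contra h
        exact h4 k y y h
      have h6 := hE.exact.tot y y
      have h7 : ∑ k, B k y y ≤ 1 + δ := by
        have h8 : ∀ k ∈ (univ : Finset (Fin K)), k = a := fun k _ => (h5 k).symm.trans (h5 a)
        rw [Finset.sum_eq_single a (fun k hk hne => absurd (h8 k hk) hne)
          (fun h => absurd (mem_univ a) h)]
        rw [if_pos (h5 a)] at h1
        exact h1
      linarith
  have h1 : ∀ z, (if π z ≠ π y + g a then (1 : ℝ) else 0) * Cyc.nrm B a y z ≤
      (K : ℝ) / n * ((if z ∈ (nbr c y a).filter (fun z => π z ≠ π y + g a) then 1 else 0) +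
        (if z = y then 1 else 0) + δ) := by
    intro z
    have h2 : Cyc.nrm B a y z = (K : ℝ) / n * B a y z := rfl
    have h3 : (0 : ℝ) ≤ (K : ℝ) / n := by positivity
    by_cases hz : π z ≠ π y + g a
    · rw [if_pos hz, one_mul, h2]
      refine mul_le_mul_of_nonneg_left ?_ h3
      refine (hE.upper a y z).trans ?_
      by_cases hzy : z = y
      · rw [if_pos hzy]
        have h4 : (if c s(y, z) = a then (1 : ℝ) else 0) ≤ 1 := by split_ifs <;> norm_num
        have h5 : (0 : ℝ) ≤ (if z ∈ (nbr c y a).filter (fun z => π z ≠ π y + g a) then 1 else 0) := by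
          split_ifs <;> norm_num
        linarith
      · rw [if_neg hzy]
        by_cases hc : c s(y, z) = a
        · rw [if_pos hc, if_pos (mem_filter.2 ⟨(mem_nbr c y z a).2 ⟨hzy, hc⟩, hz⟩)]
          linarith
        · rw [if_neg hc]
          have h5 : (0 : ℝ) ≤ (if z ∈ (nbr c y a).filter (fun z => π z ≠ π y + g a) then 1 else 0) := by
            split_ifs <;> norm_num
          linarith
    · rw [if_neg hz, zero_mul]
      refine mul_nonneg h3 ?_
      have h5 : (0 : ℝ) ≤ (if z ∈ (nbr c y a).filter (fun z => π z ≠ π y + g a) then 1 else 0) := by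
        split_ifs <;> norm_num
      have h6 : (0 : ℝ) ≤ (if z = y then 1 else 0) := by split_ifs <;> norm_num
      linarith
  refine (Finset.sum_le_sum fun z _ => h1 z).trans ?_
  rw [← Finset.mul_sum, Finset.sum_add_distrib, Finset.sum_add_distrib, Finset.sum_ite_mem,
    Finset.univ_inter, Finset.sum_const, Finset.sum_ite_eq', if_pos (mem_univ _), Finset.sum_const,
    Finset.card_univ, Fintype.card_fin, nsmul_eq_mul, nsmul_eq_mul, mul_one]
  have h7 := hL.lab y a
  calc (K : ℝ) / n * ((((nbr c y a).filter (fun z => π z ≠ π y + g a)).card : ℝ) + 1 + n * δ)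
      ≤ (K : ℝ) / n * (ξ * ((n : ℝ) / K) + 1 + n * δ) := by
        refine mul_le_mul_of_nonneg_left ?_ (by positivity)
        linarith
    _ = ξ + K / n + K * δ := by field_simp

/-- The mass of a word on the vertices with the wrong label. -/
lemma mass (hE : Env c B δ) (hL : Label c g π ξ) (hn : 0 < n) (hK : 0 < K) :
    ∀ (w : List (Fin K)) (y : Fin n),
      ∑ z, (if π y ≠ π z + (w.map g).sum then (1 : ℝ) else 0) * Cyc.wker B w z y ≤
        w.length * (ξ + K / n + K * δ) := by
  intro w
  induction w with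
  | nil =>
    intro y
    rw [List.length_nil, Nat.cast_zero, zero_mul]
    refine Finset.sum_nonpos fun z _ => ?_
    rw [Cyc.Ear.wker_nil, Matrix.one_apply]
    by_cases hz : z = y
    · subst hz
      simp
    · rw [if_neg hz, mul_zero]
  | cons a w ih =>
    intro y
    have hB := hE.exact
    have h1 : ∀ z, (if π y ≠ π z + ((a :: w).map g).sum then (1 : ℝ) else 0) *
        Cyc.wker B (a :: w) z y ≤
        ∑ u, ((if π z ≠ π u + g a then (1 : ℝ) else 0) * Cyc.nrm B a u z * Cyc.wker B w u y +
          Cyc.nrm B a z u * ((if π y ≠ π u + (w.map g).sum then (1 : ℝ) else 0) *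
            Cyc.wker B w u y)) := by
      intro z
      rw [Cyc.Ear.wker_cons, Matrix.mul_apply, Finset.mul_sum]
      refine Finset.sum_le_sum fun u _ => ?_
      have h2 := Cyc.Ear.nrm_nonneg hB a z u
      have h3 := Cyc.Ear.wker_nonneg hB w u y
      have h4 := Cyc.Ear.nrm_symm hB a z u
      rw [← h4]
      have h5 : 0 ≤ Cyc.nrm B a z u * Cyc.wker B w u y := mul_nonneg h2 h3
      by_cases hz : π z ≠ π u + g a
      · rw [if_pos hz]
        have h6 : (if π y ≠ π z + ((a :: w).map g).sum then (1 : ℝ) else 0) ≤ 1 := by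
          split_ifs <;> norm_num
        have h7 : (0 : ℝ) ≤ (if π y ≠ π u + (w.map g).sum then (1 : ℝ) else 0) := by
          split_ifs <;> norm_num
        have h8 : 0 ≤ Cyc.nrm B a z u * ((if π y ≠ π u + (w.map g).sum then (1 : ℝ) else 0) *
            Cyc.wker B w u y) := mul_nonneg h2 (mul_nonneg h7 h3)
        have h9 := mul_le_mul_of_nonneg_right h6 h5
        linarith
      · rw [if_neg hz]
        push Not at hz
        have h6 : π u = π z + g a := (eq_add_comm _ _ _).1 hz
        have h7 : π z + ((a :: w).map g).sum = π u + (w.map g).sum := by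
          rw [List.map_cons, List.sum_cons, ← add_assoc, h6]
        rw [h7]
        apply le_of_eq
        ring
    refine (Finset.sum_le_sum fun z _ => h1 z).trans ?_
    rw [Finset.sum_comm]
    have h2 : ∀ u, ∑ z, ((if π z ≠ π u + g a then (1 : ℝ) else 0) * Cyc.nrm B a u z *
        Cyc.wker B w u y + Cyc.nrm B a z u * ((if π y ≠ π u + (w.map g).sum then (1 : ℝ) else 0) *
          Cyc.wker B w u y)) ≤
        (ξ + K / n + K * δ) * Cyc.wker B w u y +
          (if π y ≠ π u + (w.map g).sum then (1 : ℝ) else 0) * Cyc.wker B w u y := by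
      intro u
      rw [Finset.sum_add_distrib, ← Finset.sum_mul, ← Finset.sum_mul,
        Cyc.Ear.nrm_col hB hK hn a u, one_mul]
      have h3 := mul_le_mul_of_nonneg_right (step hE hL hn hK u a) (Cyc.Ear.wker_nonneg hB w u y)
      linarith
    refine (Finset.sum_le_sum fun u _ => h2 u).trans ?_
    rw [Finset.sum_add_distrib, ← Finset.mul_sum, Cyc.Ear.wker_col hB hK hn w y, mul_one,
      List.length_cons]
    have h3 := ih y
    push_cast
    linarith

end ModKer

open ModKer in
theorem thmKer : StKer := by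
  intro n K r c B g π ξ δ hE hL hn hK2 hξ hδ hs w x y hw hwK hm
  have hK : 0 < K := by omega
  have hB := hE.exact
  have hn' : (0 : ℝ) < n := by exact_mod_cast hn
  have hK' : (0 : ℝ) < K := by exact_mod_cast hK
  by_contra hne
  cases w with
  | nil => simp at hw
  | cons a w =>
    have hw0 : w ≠ [] := by
      rintro rfl
      simp at hw
    have h1 : Cyc.wker B (a :: w) x y ≤
        ∑ z, ((K : ℝ) / n * ((if π z ≠ π x + g a then (1 : ℝ) else 0) * Cyc.nrm B a x z) +
          (K : ℝ) / n * ((if π y ≠ π z + (w.map g).sum then (1 : ℝ) else 0) *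
            Cyc.wker B w z y)) := by
      rw [Cyc.Ear.wker_cons, Matrix.mul_apply]
      refine Finset.sum_le_sum fun z _ => ?_
      have h2 := Cyc.Ear.nrm_nonneg hB a x z
      have h3 := Cyc.Ear.wker_nonneg hB w z y
      have h4 := Cyc.Ear.nrm_le hB a x z
      have h5 := Cyc.Ear.wker_le hB hK hn w hw0 z y
      have h6 : (0 : ℝ) ≤ (K : ℝ) / n := by positivity
      by_cases hz : π z ≠ π x + g a
      · rw [if_pos hz, one_mul]
        have h7 : (0 : ℝ) ≤ (if π y ≠ π z + (w.map g).sum then (1 : ℝ) else 0) := by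
          split_ifs <;> norm_num
        have h8 : 0 ≤ (K : ℝ) / n * ((if π y ≠ π z + (w.map g).sum then (1 : ℝ) else 0) *
            Cyc.wker B w z y) := mul_nonneg h6 (mul_nonneg h7 h3)
        have h9 := mul_le_mul_of_nonneg_left h5 h2
        linarith
      · rw [if_neg hz, zero_mul, mul_zero, zero_add]
        push Not at hz
        have h7 : π y ≠ π z + (w.map g).sum := by
          intro h
          apply hne
          rw [h, hz, List.map_cons, List.sum_cons, add_assoc]
        rw [if_pos h7, one_mul]
        exact mul_le_mul_of_nonneg_right h4 h3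
    rw [Finset.sum_add_distrib, ← Finset.mul_sum, ← Finset.mul_sum] at h1
    have h2 := ModKer.step hE hL hn hK x a
    have h3 := ModKer.mass hE hL hn hK w y
    have h6 : (0 : ℝ) ≤ (K : ℝ) / n := by positivity
    have h7 := mul_le_mul_of_nonneg_left h2 h6
    have h8 := mul_le_mul_of_nonneg_left h3 h6
    have h9 : (n : ℝ) * Cyc.wker B (a :: w) x y ≤
        (n : ℝ) * ((K : ℝ) / n * (ξ + K / n + K * δ) +
          (K : ℝ) / n * (w.length * (ξ + K / n + K * δ))) :=
      mul_le_mul_of_nonneg_left (by linarith) hn'.le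
    have h10 : (n : ℝ) * ((K : ℝ) / n * (ξ + K / n + K * δ) +
          (K : ℝ) / n * (w.length * (ξ + K / n + K * δ))) =
        K * ((w.length + 1) * (ξ + K / n + K * δ)) := by
      field_simp
      ring
    have h11 : ((w.length : ℝ) + 1) ≤ K := by
      rw [List.length_cons] at hwK
      exact_mod_cast hwK
    have h12 : 0 ≤ ξ + K / n + K * δ := by positivity
    have h13 : (K : ℝ) * ((w.length + 1) * (ξ + K / n + K * δ)) ≤
        K * (K * (ξ + K / n + K * δ)) :=
      mul_le_mul_of_nonneg_left (mul_le_mul_of_nonneg_right h11 h12) hK'.le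
    have h14 : (K : ℝ) * (K * (ξ + K / n + K * δ)) * 16 ≤ 1 := by
      calc _ = 16 * (K : ℝ) ^ 2 * (ξ + K / n + K * δ) := by ring
        _ ≤ 1 := hs
    rw [h10] at h9
    linarith

end Pool.Agent.Lib.MP_b1acb3_co.Leaf
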