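import Pool.Agent.Lib.MP_b1acb3_co.Leaf.Stmts
import Pool.Agent.Lib.MP_b1acb3_co.Uni.S3

/-!
# Labels of the vertices
-/

namespace Pool.Agent.Lib.MP_b1acb3_co.Leaf

open Finset Uni

namespace ModLabel

theorem cnt_low {α : Type} [DecidableEq α] (S : Finset α) (f : α → ℝ) {A u t : ℝ}
    (hA : (S.card : ℝ) ≤ A) (hu0 : 0 ≤ u) (hu : ∀ z ∈ S, f z ≤ u) :
    ((S.filter (fun z => f z < t)).card : ℝ) * (u - t) ≤ A * u - ∑ z ∈ S, f z := by
  have h1 : ∑ z ∈ S, f z = ∑ z ∈ S.filter (fun z => f z < t), f z +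
      ∑ z ∈ S.filter (fun z => ¬ f z < t), f z := (sum_filter_add_sum_filter_not S _ _).symm
  have h2 : ∑ z ∈ S.filter (fun z => f z < t), f z ≤
      ((S.filter (fun z => f z < t)).card : ℝ) * t := by
    rw [← nsmul_eq_mul]
    exact sum_le_card_nsmul _ _ _ fun z hz => (mem_filter.mp hz).2.le
  have h3 : ∑ z ∈ S.filter (fun z => ¬ f z < t), f z ≤
      ((S.filter (fun z => ¬ f z < t)).card : ℝ) * u := by
    rw [← nsmul_eq_mul]
    exact sum_le_card_nsmul _ _ _ fun z hz => hu z (mem_filter.mp hz).1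
  have h4 : ((S.filter (fun z => f z < t)).card : ℝ) +
      ((S.filter (fun z => ¬ f z < t)).card : ℝ) = S.card := by
    exact_mod_cast card_filter_add_card_filter_not (s := S) (fun z => f z < t)
  nlinarith

theorem cnt_high {α : Type} [DecidableEq α] (S : Finset α) (f : α → ℝ) {t T : ℝ}
    (hf : ∀ z ∈ S, 0 ≤ f z) (hT : ∑ z ∈ S, f z ≤ T) :
    ((S.filter (fun z => t < f z)).card : ℝ) * t ≤ T := by
  have h2 : ((S.filter (fun z => t < f z)).card : ℝ) * t ≤
      ∑ z ∈ S.filter (fun z => t < f z), f z := by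
    rw [← nsmul_eq_mul]
    exact card_nsmul_le_sum _ _ _ fun z hz => (mem_filter.mp hz).2.le
  have h3 : ∑ z ∈ S.filter (fun z => t < f z), f z ≤ ∑ z ∈ S, f z :=
    sum_le_sum_of_subset_of_nonneg (filter_subset _ _) fun z hz _ => hf z hz
  linarith

theorem two_self {r : ℕ} (v : Fin r → ZMod 2) : v + v = 0 := by
  funext i
  exact CharTwo.add_self_eq_zero (v i)

end ModLabel

open ModLabel in
/-- (Label) Labels of the vertices. -/
theorem thmLabel (hS3 : StS3) (hS4 : StS4) (h6 : StS6) : StLabel := by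
  intro n K c ζ hK hζ hK2 hn hS
  classical
  have hK' : (2 : ℝ) ≤ K := by exact_mod_cast hK
  have hK0 : (0 : ℝ) < K := by linarith
  obtain ⟨m, hm⟩ : ∃ m : ℝ, m = (n : ℝ) / K := ⟨_, rfl⟩
  have hζm : 1 ≤ ζ * m := by
    rw [hm, ← mul_div_assoc, le_div_iff₀ hK0]
    linarith
  have hm0 : 0 < m := by
    by_contra hcon
    push Not at hcon
    nlinarith
  obtain ⟨κ, hκ⟩ : ∃ κ : ℝ, κ = K * ζ := ⟨_, rfl⟩
  obtain ⟨τ, hτ⟩ : ∃ τ : ℝ, τ = (K : ℝ) ^ 2 * ζ := ⟨_, rfl⟩
  have hκ0 : 0 ≤ κ := by rw [hκ]; positivity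
  have hκτ : 2 * κ ≤ τ := by
    rw [hκ, hτ]
    nlinarith
  have hζκ : 2 * ζ ≤ κ := by
    rw [hκ]
    nlinarith
  have hτ1 : 100000 * τ ≤ 1 := by
    rw [hτ]
    linarith
  have hnpos : 0 < n := by
    rcases Nat.eq_zero_or_pos n with h | h
    · rw [h, Nat.cast_zero, zero_div] at hm
      linarith
    · exact h
  have hdeg : ∀ y a, (1 - ζ) * m ≤ ((nbr c y a).card : ℝ) := by
    intro y a
    rw [hm]
    exact hS.deg y a
  have hup : ∀ y a, ((nbr c y a).card : ℝ) ≤ (1 + κ) * m := by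
    intro y a
    rw [hm, hκ]
    exact S3.card_le hS hζ (by omega) y a
  obtain ⟨x⟩ : Nonempty (Fin n) := ⟨⟨0, hnpos⟩⟩
  obtain ⟨σ, hσ1, hσ2, hσ3⟩ := hS3 n K c ζ hK hζ (by nlinarith) hn hS x
  have hσ4 := hS4 n K c ζ hK hζ (by nlinarith) hn hS x σ hσ1
  obtain ⟨r, g, E, hE⟩ := h6 K σ (by omega) hσ2 hσ4 hσ3
  -- the exceptional vertices
  obtain ⟨Z, hZ⟩ : ∃ Z : Fin K → Finset (Fin n), ∀ b, Z b = univ.filter (fun z => z ≠ x ∧
      ((nbr c z b ∩ nbr c x (σ b (c s(x, z)))).card : ℝ) < 9 / 10 * m) := ⟨_, fun _ => rfl⟩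
  have hZcard : ∀ b, ((Z b).card : ℝ) ≤ 4030 * τ * m := by
    intro b
    have h1 : Z b ⊆ univ.biUnion (fun p => (nbr c x p).filter (fun z =>
        ((nbr c z b ∩ nbr c x (σ b p)).card : ℝ) < 9 / 10 * m)) := by
      intro z hz
      rw [hZ, mem_filter] at hz
      rw [mem_biUnion]
      refine ⟨c s(x, z), mem_univ _, ?_⟩
      rw [mem_filter, mem_nbr]
      exact ⟨⟨hz.2.1, rfl⟩, hz.2.2⟩
    have h2 : ((Z b).card : ℝ) ≤ ∑ p, (((nbr c x p).filter (fun z =>
        ((nbr c z b ∩ nbr c x (σ b p)).card : ℝ) < 9 / 10 * m)).card : ℝ) := by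
      exact_mod_cast (card_le_card h1).trans card_biUnion_le
    have h3 : ∀ p, (((nbr c x p).filter (fun z =>
        ((nbr c z b ∩ nbr c x (σ b p)).card : ℝ) < 9 / 10 * m)).card : ℝ) ≤ 4030 * κ * m := by
      intro p
      have h4 := cnt_low (nbr c x p) (fun z => ((nbr c z b ∩ nbr c x (σ b p)).card : ℝ))
        (A := (1 + κ) * m) (u := (1 + κ) * m) (t := 9 / 10 * m) (hup x p) (by positivity)
        (fun z _ => le_trans (by exact_mod_cast card_le_card inter_subset_left) (hup z b))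
      have h5 := hσ1 b p
      rw [← hm] at h5
      have h6 : (ecount c x b p (σ b p) : ℝ) =
          ∑ z ∈ nbr c x p, ((nbr c z b ∩ nbr c x (σ b p)).card : ℝ) := by
        unfold ecount
        push_cast
        rfl
      rw [h6] at h5
      set D : ℝ := (((nbr c x p).filter (fun z =>
        ((nbr c z b ∩ nbr c x (σ b p)).card : ℝ) < 9 / 10 * m)).card : ℝ) with hD
      have hD0 : 0 ≤ D := Nat.cast_nonneg _
      have h7 : D * ((1 + κ) * m - 9 / 10 * m) ≤ (402 * κ + κ ^ 2) * m ^ 2 := by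
        have h8 : (1 - 400 * K * ζ) * m ^ 2 = (1 - 400 * κ) * m ^ 2 := by rw [hκ]; ring
        rw [h8] at h5
        nlinarith
      have h9 : (402 * κ + κ ^ 2) * m ^ 2 ≤ 403 * κ * m ^ 2 := by
        apply mul_le_mul_of_nonneg_right _ (by positivity)
        nlinarith
      have h10 : D * (1 / 10 * m) ≤ D * ((1 + κ) * m - 9 / 10 * m) := by
        apply mul_le_mul_of_nonneg_left _ hD0
        nlinarith
      have h11 : D * (1 / 10 * m) ≤ (4030 * κ * m) * (1 / 10 * m) := by
        nlinarith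
      exact le_of_mul_le_mul_right h11 (by positivity)
    calc ((Z b).card : ℝ) ≤ ∑ _p : Fin K, 4030 * κ * m := h2.trans (sum_le_sum fun p _ => h3 p)
      _ = 4030 * τ * m := by
          rw [sum_const, card_univ, Fintype.card_fin, nsmul_eq_mul, hκ, hτ]
          ring
  -- two big classes in a small set are equal
  have huniq : ∀ (R : Finset (Fin n)) (q q' : Fin K), (R.card : ℝ) ≤ (1 + ζ) * m →
      8 / 10 * m ≤ ((R ∩ nbr c x q).card : ℝ) → 8 / 10 * m ≤ ((R ∩ nbr c x q').card : ℝ) →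
      q = q' := by
    intro R q q' hR h1 h2
    by_contra hne
    have hd : Disjoint (R ∩ nbr c x q) (R ∩ nbr c x q') := by
      rw [disjoint_left]
      intro z hz hz'
      rw [mem_inter, mem_nbr] at hz hz'
      exact hne (hz.2.2.symm.trans hz'.2.2)
    have h3 : (R ∩ nbr c x q).card + (R ∩ nbr c x q').card ≤ R.card := by
      rw [← card_union_of_disjoint hd]
      exact card_le_card (union_subset inter_subset_left inter_subset_left)
    have h4 : ((R ∩ nbr c x q).card : ℝ) + ((R ∩ nbr c x q').card : ℝ) ≤ R.card := by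
      exact_mod_cast h3
    nlinarith
  -- most neighbours of `y` of colour `a` see the set `R`
  obtain ⟨β, hβ⟩ : ∃ β : ℝ, β = 4033 * τ * m := ⟨_, rfl⟩
  have hβm : 20 * β ≤ m := by
    rw [hβ]
    nlinarith
  have hA : ∀ (y : Fin n) (a b : Fin K) (R : Finset (Fin n)),
      ((∑ z ∈ nbr c y a, (nbr c z b \ R).card : ℕ) : ℝ) ≤ ζ * m ^ 2 →
      (((nbr c y a).filter (fun z => ¬ (z ≠ x ∧
        8 / 10 * m ≤ ((R ∩ nbr c x (σ b (c s(x, z)))).card : ℝ)))).card : ℝ) ≤ β := by
    intro y a b R hR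
    push_cast at hR
    have h1 := cnt_high (nbr c y a) (fun z => ((nbr c z b \ R).card : ℝ)) (t := 1 / 10 * m)
      (fun z _ => Nat.cast_nonneg _) hR
    have h2 : (((nbr c y a).filter (fun z => 1 / 10 * m < ((nbr c z b \ R).card : ℝ))).card : ℝ) ≤
        10 * ζ * m := by
      have h3 : (((nbr c y a).filter (fun z =>
          1 / 10 * m < ((nbr c z b \ R).card : ℝ))).card : ℝ) * (1 / 10 * m) ≤
          (10 * ζ * m) * (1 / 10 * m) := by nlinarith
      exact le_of_mul_le_mul_right h3 (by positivity)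
    have h4 : (nbr c y a).filter (fun z => ¬ (z ≠ x ∧
        8 / 10 * m ≤ ((R ∩ nbr c x (σ b (c s(x, z)))).card : ℝ))) ⊆
        ((nbr c y a).filter (fun z => 1 / 10 * m < ((nbr c z b \ R).card : ℝ)) ∪ Z b) ∪ {x} := by
      intro z hz
      rw [mem_filter] at hz
      rw [mem_union, mem_union, mem_filter, mem_singleton]
      by_contra hcon
      push Not at hcon
      obtain ⟨⟨h5, h6⟩, h7⟩ := hcon
      apply hz.2
      refine ⟨h7, ?_⟩
      have h8 := h5 hz.1
      rw [hZ, mem_filter] at h6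
      have h9 : 9 / 10 * m ≤ ((nbr c z b ∩ nbr c x (σ b (c s(x, z)))).card : ℝ) := by
        by_contra hlt
        push Not at hlt
        exact h6 ⟨mem_univ _, h7, hlt⟩
      have h10 : (nbr c z b ∩ nbr c x (σ b (c s(x, z)))).card ≤
          (R ∩ nbr c x (σ b (c s(x, z)))).card + (nbr c z b \ R).card := by
        refine (card_le_card (t := (R ∩ nbr c x (σ b (c s(x, z)))) ∪ (nbr c z b \ R)) ?_).trans
          (card_union_le _ _)
        intro w hw
        rw [mem_inter] at hw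
        rw [mem_union, mem_inter, mem_sdiff]
        by_cases hwR : w ∈ R
        · exact Or.inl ⟨hwR, hw.2⟩
        · exact Or.inr ⟨hw.1, hwR⟩
      have h11 : ((nbr c z b ∩ nbr c x (σ b (c s(x, z)))).card : ℝ) ≤
          ((R ∩ nbr c x (σ b (c s(x, z)))).card : ℝ) + ((nbr c z b \ R).card : ℝ) := by
        exact_mod_cast h10
      linarith
    have h5 : (((nbr c y a).filter (fun z => ¬ (z ≠ x ∧
        8 / 10 * m ≤ ((R ∩ nbr c x (σ b (c s(x, z)))).card : ℝ)))).card : ℝ) ≤
        ((nbr c y a).filter (fun z => 1 / 10 * m < ((nbr c z b \ R).card : ℝ))).card +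
          (Z b).card + 1 := by
      have h6 := (card_le_card h4).trans ((card_union_le _ _).trans
        (Nat.add_le_add_right (card_union_le _ _) _))
      rw [card_singleton] at h6
      exact_mod_cast h6
    have h6 := hZcard b
    rw [hβ]
    nlinarith
  -- Claim 1
  have : Nontrivial (Fin K) := Fin.nontrivial_iff_two_le.mpr hK
  have hC1 : ∀ (y : Fin n) (a : Fin K), ∃ p, ((nbr c y a \ nbr c x p).card : ℝ) ≤ β := by
    intro y a
    obtain ⟨b, hb⟩ := exists_ne a
    obtain ⟨R, hR0, hR1, _⟩ := hS.two y a b hb.symm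
    rw [← hm] at hR0 hR1
    have h1 := hA y a b R hR1
    by_cases hz : ∃ z ∈ nbr c y a, z ≠ x ∧
        8 / 10 * m ≤ ((R ∩ nbr c x (σ b (c s(x, z)))).card : ℝ)
    · obtain ⟨z₀, _, hz1, hz2⟩ := hz
      refine ⟨c s(x, z₀), le_trans ?_ h1⟩
      norm_cast
      apply card_le_card
      intro z hz
      rw [mem_sdiff] at hz
      rw [mem_filter]
      refine ⟨hz.1, fun h2 => hz.2 ?_⟩
      rw [mem_nbr]
      refine ⟨h2.1, ?_⟩
      have h3 := huniq R _ _ hR0 h2.2 hz2
      have h4 := congrArg (σ b) h3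
      rwa [hσ2, hσ2] at h4
    · push Not at hz
      refine ⟨a, le_trans ?_ h1⟩
      norm_cast
      apply card_le_card
      intro z hz'
      rw [mem_sdiff] at hz'
      rw [mem_filter]
      exact ⟨hz'.1, fun h2 => absurd h2.2 (not_le.mpr (hz z hz'.1 h2.1))⟩
  choose P hP using hC1
  -- Claim 2
  have hbig : ∀ (y : Fin n) (a b : Fin K) (R : Finset (Fin n)),
      ((∑ z ∈ nbr c y a, (nbr c z b \ R).card : ℕ) : ℝ) ≤ ζ * m ^ 2 →
      8 / 10 * m ≤ ((R ∩ nbr c x (σ b (P y a))).card : ℝ) := by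
    intro y a b R hR
    have h1 := hA y a b R hR
    by_contra hcon
    have h2 : nbr c y a ⊆ (nbr c y a).filter (fun z => ¬ (z ≠ x ∧
        8 / 10 * m ≤ ((R ∩ nbr c x (σ b (c s(x, z)))).card : ℝ))) ∪
        (nbr c y a \ nbr c x (P y a)) := by
      intro z hz
      rw [mem_union, mem_filter, mem_sdiff]
      by_cases h3 : z ∈ nbr c x (P y a)
      · refine Or.inl ⟨hz, fun h4 => hcon ?_⟩
        rw [mem_nbr] at h3
        rw [← h3.2]
        exact h4.2
      · exact Or.inr ⟨hz, h3⟩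
    have h3 : ((nbr c y a).card : ℝ) ≤ ((nbr c y a).filter (fun z => ¬ (z ≠ x ∧
        8 / 10 * m ≤ ((R ∩ nbr c x (σ b (c s(x, z)))).card : ℝ)))).card +
        (nbr c y a \ nbr c x (P y a)).card := by
      exact_mod_cast (card_le_card h2).trans (card_union_le _ _)
    have h4 := hdeg y a
    have h5 := hP y a
    nlinarith
  have hC2 : ∀ (y : Fin n) (a b : Fin K), a ≠ b → σ b (P y a) = σ a (P y b) := by
    intro y a b hab
    obtain ⟨R, hR0, hR1, hR2⟩ := hS.two y a b hab
    rw [← hm] at hR0 hR1 hR2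
    exact huniq R _ _ hR0 (hbig y a b R hR1) (hbig y b a R hR2)
  -- Claim 3
  have hC3 : ∀ (b : Fin K) (z : Fin n), z ≠ x → z ∉ Z b → P z b = σ b (c s(x, z)) := by
    intro b z hzx hzZ
    rw [hZ, mem_filter] at hzZ
    have h9 : 9 / 10 * m ≤ ((nbr c z b ∩ nbr c x (σ b (c s(x, z)))).card : ℝ) := by
      by_contra hlt
      push Not at hlt
      exact hzZ ⟨mem_univ _, hzx, hlt⟩
    by_contra hne
    have h1 : nbr c z b ∩ nbr c x (σ b (c s(x, z))) ⊆ nbr c z b \ nbr c x (P z b) := by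
      intro w hw
      rw [mem_inter] at hw
      rw [mem_sdiff]
      refine ⟨hw.1, fun h2 => hne ?_⟩
      rw [mem_nbr] at h2
      rw [← h2.2, ((mem_nbr c x w _).mp hw.2).2]
    have h2 : ((nbr c z b ∩ nbr c x (σ b (c s(x, z)))).card : ℝ) ≤
        (nbr c z b \ nbr c x (P z b)).card := by exact_mod_cast card_le_card h1
    have h3 := hP z b
    linarith
  -- the labels
  obtain ⟨b₀⟩ : Nonempty (Fin K) := ⟨⟨0, by omega⟩⟩
  have hπ : ∀ (y : Fin n) (a : Fin K), E (P y b₀) + g b₀ = E (P y a) + g a := by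
    intro y a
    by_cases hab : a = b₀
    · rw [hab]
    · have h1 := congrArg E (hC2 y a b₀ hab)
      rw [hE, hE] at h1
      calc E (P y b₀) + g b₀ = (E (P y b₀) + g a) + (g b₀ + g a) := by
            rw [add_add_add_comm, add_comm (g a) (g a), two_self, add_zero]
        _ = (E (P y a) + g b₀) + (g b₀ + g a) := by rw [h1]
        _ = E (P y a) + g a + (g b₀ + g b₀) := by abel
        _ = E (P y a) + g a := by rw [two_self, add_zero]
  refine ⟨r, g, fun y => E (P y b₀) + g b₀, ?_, ?_⟩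
  · intro y a
    rw [← hm]
    refine le_trans ?_ (hdeg y a)
    apply mul_le_mul_of_nonneg_right _ hm0.le
    have h1 : ζ ≤ 10000 * K ^ 2 * ζ := by nlinarith
    linarith
  · intro y a
    rw [← hm]
    have h1 : (nbr c y a).filter (fun z => E (P z b₀) + g b₀ ≠ E (P y b₀) + g b₀ + g a) ⊆
        ((nbr c y a \ nbr c x (P y a)) ∪ Z b₀) ∪ {x} := by
      intro z hz
      rw [mem_filter] at hz
      rw [mem_union, mem_union, mem_sdiff, mem_singleton]
      by_contra hcon
      push Not at hcon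
      obtain ⟨⟨h5, h6⟩, h7⟩ := hcon
      apply hz.2
      have h8 := (mem_nbr c x z _).mp (h5 hz.1)
      rw [hC3 b₀ z h7 h6, hE, h8.2, add_assoc, two_self, add_zero, hπ y a, add_assoc, two_self,
        add_zero]
    have h2 : (((nbr c y a).filter (fun z =>
        E (P z b₀) + g b₀ ≠ E (P y b₀) + g b₀ + g a)).card : ℝ) ≤
        (nbr c y a \ nbr c x (P y a)).card + (Z b₀).card + 1 := by
      have h6 := (card_le_card h1).trans ((card_union_le _ _).trans
        (Nat.add_le_add_right (card_union_le _ _) _))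
      rw [card_singleton] at h6
      exact_mod_cast h6
    have h3 := hZcard b₀
    have h4 := hP y a
    have h5 : 10000 * (K : ℝ) ^ 2 * ζ * m = 10000 * τ * m := by rw [hτ]; ring
    rw [h5]
    refine h2.trans ?_
    rw [hβ] at h4
    nlinarith

end Pool.Agent.Lib.MP_b1acb3_co.Leaf
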