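import Pool.Agent.Lib.MP_b1acb3_co.Leaf.Stmts
import Pool.Agent.Lib.MP_b1acb3_co.Uni.G1
import Pool.Agent.Lib.MP_b1acb3_co.Cyc.Embed

/-!
(Last) The last ear: two rainbow paths with disjoint sets of colours and a common end vertex.
-/

namespace Pool.Agent.Lib.MP_b1acb3_co.Leaf

open Finset Uni

namespace ModLast

/-- Two rainbow paths with disjoint sets of colours and a common end vertex, joined. -/
theorem join {n K : ℕ} (c : Sym2 (Fin n) → Fin K) (U U' : Finset (Fin K)) (hdis : Disjoint U U')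
    (u u' : ℕ) (x y s : Fin n) (Z : Finset (Fin n)) (hs : s ∉ Z)
    (z1 z2 : ℕ → Fin n) (h10 : z1 0 = x) (h1u : z1 u = s)
    (h1c : ∀ i, i < u → c s(z1 i, z1 (i + 1)) ∈ U)
    (h1i : ∀ i j, i < u → j < u → c s(z1 i, z1 (i + 1)) = c s(z1 j, z1 (j + 1)) → i = j)
    (h1Z : ∀ i, 1 ≤ i → i < u → z1 i ∉ Z)
    (h1inj : ∀ i j, i ≤ u → j ≤ u → z1 i = z1 j → i = j)
    (h20 : z2 0 = y) (h2u : z2 u' = s)
    (h2c : ∀ i, i < u' → c s(z2 i, z2 (i + 1)) ∈ U')
    (h2i : ∀ i j, i < u' → j < u' → c s(z2 i, z2 (i + 1)) = c s(z2 j, z2 (j + 1)) → i = j)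
    (h2Z : ∀ i, 1 ≤ i → i < u' → z2 i ∉ Z ∪ (range (u + 1)).image z1)
    (h2inj : ∀ i j, i ≤ u' → j ≤ u' → z2 i = z2 j → i = j) :
    ∃ z : ℕ → Fin n, z 0 = x ∧ z (u + u') = y ∧
      (∀ i, i < u + u' → c s(z i, z (i + 1)) ∈ U ∪ U') ∧
      (∀ i j, i < u + u' → j < u + u' → c s(z i, z (i + 1)) = c s(z j, z (j + 1)) → i = j) ∧
      (∀ i, 1 ≤ i → i < u + u' → z i ∉ Z) ∧
      (∀ i j, 1 ≤ i → i < u + u' → 1 ≤ j → j < u + u' → z i = z j → i = j) := by
  set z : ℕ → Fin n := fun i => if i ≤ u then z1 i else z2 (u + u' - i) with hz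
  have hz1 : ∀ i, i ≤ u → z i = z1 i := by
    intro i hi
    simp only [hz, if_pos hi]
  have hz2 : ∀ i, u ≤ i → z i = z2 (u + u' - i) := by
    intro i hi
    rcases Nat.eq_or_lt_of_le hi with h2 | h2
    · rw [← h2, hz1 u le_rfl, h1u, show u + u' - u = u' by omega, h2u]
    · simp only [hz]
      rw [if_neg (by omega)]
  have hcol1 : ∀ i, i < u → c s(z i, z (i + 1)) = c s(z1 i, z1 (i + 1)) := by
    intro i hi
    rw [hz1 i (by omega), hz1 (i + 1) (by omega)]
  have hcol2 : ∀ i, u ≤ i → i < u + u' →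
      c s(z i, z (i + 1)) = c s(z2 (u + u' - i - 1), z2 (u + u' - i - 1 + 1)) := by
    intro i hi hi2
    rw [hz2 i hi, hz2 (i + 1) (by omega), show u + u' - (i + 1) = u + u' - i - 1 by omega,
      show u + u' - i - 1 + 1 = u + u' - i by omega, Sym2.eq_swap]
  have hm1 : ∀ i, i < u → c s(z i, z (i + 1)) ∈ U := by
    intro i hi
    rw [hcol1 i hi]
    exact h1c i hi
  have hm2 : ∀ i, u ≤ i → i < u + u' → c s(z i, z (i + 1)) ∈ U' := by
    intro i hi hi2
    rw [hcol2 i hi hi2]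
    exact h2c _ (by omega)
  refine ⟨z, ?_, ?_, ?_, ?_, ?_, ?_⟩
  · rw [hz1 0 (by omega), h10]
  · rw [hz2 (u + u') (by omega), show u + u' - (u + u') = 0 by omega, h20]
  · intro i hi
    rw [mem_union]
    rcases Nat.lt_or_ge i u with h3 | h3
    · exact Or.inl (hm1 i h3)
    · exact Or.inr (hm2 i h3 hi)
  · intro i j hi hj hij
    rcases Nat.lt_or_ge i u with h3 | h3
    · rcases Nat.lt_or_ge j u with h4 | h4
      · rw [hcol1 i h3, hcol1 j h4] at hij
        exact h1i i j h3 h4 hij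
      · exfalso
        exact disjoint_left.1 hdis (hm1 i h3) (hij ▸ hm2 j h4 hj)
    · rcases Nat.lt_or_ge j u with h4 | h4
      · exfalso
        exact disjoint_left.1 hdis (hm1 j h4) (hij ▸ hm2 i h3 hi)
      · rw [hcol2 i h3 hi, hcol2 j h4 hj] at hij
        have := h2i _ _ (by omega) (by omega) hij
        omega
  · intro i hi1 hi2
    rcases Nat.lt_trichotomy i u with h3 | h3 | h3
    · rw [hz1 i (by omega)]
      exact h1Z i hi1 h3
    · rw [hz1 i (by omega), h3, h1u]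
      exact hs
    · rw [hz2 i (by omega)]
      exact fun h => h2Z (u + u' - i) (by omega) (by omega) (mem_union_left _ h)
  · intro i j _ hi _ hj hij
    rcases Nat.lt_or_ge u i with h3 | h3
    · rcases Nat.lt_or_ge u j with h4 | h4
      · rw [hz2 i (by omega), hz2 j (by omega)] at hij
        have := h2inj _ _ (by omega) (by omega) hij
        omega
      · exfalso
        rw [hz2 i (by omega), hz1 j h4] at hij
        apply h2Z (u + u' - i) (by omega) (by omega)
        rw [hij]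
        exact mem_union_right _ (mem_image_of_mem z1 (mem_range.2 (by omega)))
    · rcases Nat.lt_or_ge u j with h4 | h4
      · exfalso
        rw [hz1 i h3, hz2 j (by omega)] at hij
        apply h2Z (u + u' - j) (by omega) (by omega)
        rw [← hij]
        exact mem_union_right _ (mem_image_of_mem z1 (mem_range.2 (by omega)))
      · rw [hz1 i h3, hz1 j h4] at hij
        exact h1inj i j h3 h4 hij

/-- One ear is placed on a given path. -/
theorem place {V : Type} [Fintype V] (G : SimpleGraph V) (W W₂ : Finset V) (k m : ℕ)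
    (P : ℕ → V) (hP : Cyc.Ears G W W₂ 1 k (fun _ => m) (fun _ => P)) {n K : ℕ}
    (c : Sym2 (Fin n) → Fin K) (f : V → Fin n) (hf : Function.Injective f)
    (hfc : Set.InjOn (fun e : Sym2 V => c (e.map f)) (edgesIn G W₂ : Set (Sym2 V)))
    (T : Finset (Fin K)) (hT : ∀ e ∈ edgesIn G W₂, c (e.map f) ∉ T)
    (z : ℕ → Fin n) (hz0 : z 0 = f (P 0)) (hz1 : z (m + 1) = f (P (m + 1)))
    (hzT : ∀ i, i < m + 1 → c s(z i, z (i + 1)) ∈ T)
    (hzc : ∀ i j, i < m + 1 → j < m + 1 → c s(z i, z (i + 1)) = c s(z j, z (j + 1)) → i = j)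
    (hzZ : ∀ i, 1 ≤ i → i < m + 1 → ∀ v, z i ≠ f v)
    (hzi : ∀ i j, 1 ≤ i → i < m + 1 → 1 ≤ j → j < m + 1 → z i = z j → i = j) :
    ∃ g : V → Fin n, Function.Injective g ∧
      Set.InjOn (fun e : Sym2 V => c (e.map g)) (edgesIn G W : Set (Sym2 V)) := by
  classical
  set g : V → Fin n := fun v => if h : ∃ j, 1 ≤ j ∧ j ≤ m ∧ P j = v then z h.choose
    else f v with hg
  have hg1 : ∀ j, 1 ≤ j → j ≤ m → g (P j) = z j := by
    intro j hj1 hj2
    have h : ∃ j', 1 ≤ j' ∧ j' ≤ m ∧ P j' = P j := ⟨j, hj1, hj2, rfl⟩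
    simp only [hg]
    rw [dif_pos h]
    have h2 := h.choose_spec
    rw [(hP.inj 0 _ 0 j h2.1 h2.2.1 hj1 hj2 h2.2.2).2]
  have hg2 : ∀ v, (∀ j, 1 ≤ j → j ≤ m → P j ≠ v) → g v = f v := by
    intro v hv
    simp only [hg]
    rw [dif_neg]
    rintro ⟨j, h1, h2, h3⟩
    exact hv j h1 h2 h3
  have hgW : ∀ v ∈ W₂, g v = f v := by
    intro v hv
    apply hg2 v
    intro j h1 h2 h3
    exact (hP.inner 0 j h1 h2).2 (h3 ▸ hv)
  have hgz : ∀ j, j ≤ m + 1 → g (P j) = z j := by
    intro j hj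
    rcases Nat.eq_zero_or_pos j with rfl | hj0
    · rw [hgW _ (hP.start 0), hz0]
    · rcases Nat.lt_or_ge j (m + 1) with h | h
      · exact hg1 j hj0 (by omega)
      · have : j = m + 1 := by omega
        rw [this, hgW _ (hP.stop 0), hz1]
  refine ⟨g, ?_, ?_⟩
  · intro a b hab
    by_cases ha : ∃ j, 1 ≤ j ∧ j ≤ m ∧ P j = a
    · obtain ⟨j, hj1, hj2, rfl⟩ := ha
      by_cases hb : ∃ j, 1 ≤ j ∧ j ≤ m ∧ P j = b
      · obtain ⟨j', hj1', hj2', rfl⟩ := hb
        rw [hg1 j hj1 hj2, hg1 j' hj1' hj2'] at hab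
        rw [hzi j j' hj1 (by omega) hj1' (by omega) hab]
      · exfalso
        push Not at hb
        rw [hg1 j hj1 hj2, hg2 b hb] at hab
        exact hzZ j hj1 (by omega) b hab
    · push Not at ha
      by_cases hb : ∃ j, 1 ≤ j ∧ j ≤ m ∧ P j = b
      · exfalso
        obtain ⟨j', hj1', hj2', rfl⟩ := hb
        rw [hg1 j' hj1' hj2', hg2 a ha] at hab
        exact hzZ j' hj1' (by omega) a hab.symm
      · push Not at hb
        rw [hg2 a ha, hg2 b hb] at hab
        exact hf hab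
  · have hold : ∀ e ∈ edgesIn G W₂, e.map g = e.map f := by
      intro e he
      exact map_congr_of e g f (fun x hx => hgW x (((mem_edgesIn G W₂ e).1 he).2 x hx))
    have hear : ∀ j, j ≤ m → c ((s(P j, P (j + 1)) : Sym2 V).map g) = c s(z j, z (j + 1)) := by
      intro j hj
      rw [Sym2.map_mk, hgz j (by omega), hgz (j + 1) (by omega)]
    intro a ha b hb hab
    simp only at hab
    rcases Cyc.edge_cases G W W₂ 1 k (fun _ => m) (fun _ => P) hP a ha with ha' | ⟨_, j, hj, rfl⟩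
    · rcases Cyc.edge_cases G W W₂ 1 k (fun _ => m) (fun _ => P) hP b hb with
        hb' | ⟨_, j', hj', rfl⟩
      · rw [hold a ha', hold b hb'] at hab
        exact hfc ha' hb' hab
      · exfalso
        rw [hold a ha', hear j' hj'] at hab
        apply hT a ha'
        rw [hab]
        exact hzT j' (by omega)
    · rcases Cyc.edge_cases G W W₂ 1 k (fun _ => m) (fun _ => P) hP b hb with
        hb' | ⟨_, j', hj', rfl⟩
      · exfalso
        rw [hear j hj, hold b hb'] at hab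
        apply hT b hb'
        rw [← hab]
        exact hzT j (by omega)
      · rw [hear j hj, hear j' hj'] at hab
        rw [hzc j j' (by omega) (by omega) hab]

end ModLast

theorem thmLast : StLast := by
  classical
  intro V _ G W W₂ k m P θ hθ _ hW hP
  have hK : 0 < numEdges G + 1 := Nat.succ_pos _
  have hKR : (0 : ℝ) < ((numEdges G + 1 : ℕ) : ℝ) := by exact_mod_cast hK
  obtain ⟨δ₁, hδ₁, hv⟩ := thmG1 (numEdges G + 1) θ hK hθ
  obtain ⟨n₁, hn₁⟩ := hv (Fintype.card V + (numEdges G + 1) + 1)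
  obtain ⟨n₂, hn₂⟩ := exists_nat_gt ((Fintype.card V : ℝ) / θ)
  obtain ⟨n₃, hn₃⟩ := exists_nat_gt
    (2 * ((numEdges G + 1 : ℕ) : ℝ) * ((Fintype.card V : ℝ) + 1))
  refine ⟨min δ₁ (1 / (2 * ((numEdges G + 1 : ℕ) : ℝ))), lt_min hδ₁ (by positivity),
    n₁ + n₂ + n₃ + 1, ?_⟩
  intro n hn c B hB f hf hfc U U' hU hU' hdis hUU hcol hmu
  have hn0 : 0 < n := by omega
  have hnR : (0 : ℝ) < n := by exact_mod_cast hn0
  have hB1 : ∀ k i j, B k i j ≤ (if c s(i, j) = k then 1 else 0) + δ₁ := fun k i j =>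
    (hB.upper k i j).trans (by have := min_le_left δ₁ (1 / (2 * ((numEdges G + 1 : ℕ) : ℝ)))
                               linarith)
  have hlow : ∀ i k, Fintype.card V < colourDegree c i k := by
    intro i k
    have h1 := hB.deg_ge i k
    have h2 := min_le_right δ₁ (1 / (2 * ((numEdges G + 1 : ℕ) : ℝ)))
    have h3 := mul_le_mul_of_nonneg_left h2 hnR.le
    have h4 : (n₃ : ℝ) ≤ n := by exact_mod_cast (by omega : n₃ ≤ n)
    have h5 : (Fintype.card V : ℝ) + 1 < (n : ℝ) / (2 * ((numEdges G + 1 : ℕ) : ℝ)) := by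
      rw [lt_div_iff₀ (by positivity)]
      linarith
    have h6 : (n : ℝ) * (1 / (2 * ((numEdges G + 1 : ℕ) : ℝ))) =
        (n : ℝ) / (2 * ((numEdges G + 1 : ℕ) : ℝ)) := by ring
    have h7 : (n : ℝ) / ((numEdges G + 1 : ℕ) : ℝ) =
        2 * ((n : ℝ) / (2 * ((numEdges G + 1 : ℕ) : ℝ))) := by
      field_simp
    have h8 : (Fintype.card V : ℝ) < colourDegree c i k := by linarith
    exact_mod_cast h8
  -- the common end vertex
  obtain ⟨s, hsS, hsZ⟩ : ∃ s ∈ reach c (Cyc.nrm B) θ (f (P 0)) U ∩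
      reach c (Cyc.nrm B) θ (f (P (m + 1))) U', s ∉ univ.image f := by
    by_contra hcon
    push Not at hcon
    have h1 := card_le_card (show _ ⊆ univ.image f from fun s hs => hcon s hs)
    have h2 : (univ.image f).card ≤ Fintype.card V :=
      card_image_le.trans (le_of_eq card_univ)
    unfold mu at hmu
    rw [lt_div_iff₀ hnR] at hmu
    rw [div_lt_iff₀ hθ] at hn₂
    have h3 : (n₂ : ℝ) ≤ n := by exact_mod_cast (by omega : n₂ ≤ n)
    have h4 := mul_le_mul_of_nonneg_right h3 hθ.le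
    have h5 : (((reach c (Cyc.nrm B) θ (f (P 0)) U ∩
      reach c (Cyc.nrm B) θ (f (P (m + 1))) U').card : ℕ) : ℝ) ≤ (Fintype.card V : ℝ) := by
      exact_mod_cast h1.trans h2
    linarith
  have hsx : ∀ v, s ≠ f v := fun v h => hsZ (h ▸ mem_image_of_mem f (mem_univ v))
  rw [mem_inter] at hsS
  have hUK : U.card ≤ numEdges G + 1 := by
    have := card_le_univ U
    rwa [Fintype.card_fin] at this
  have hZcard : (univ.image f).card ≤ Fintype.card V :=
    card_image_le.trans (le_of_eq card_univ)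
  obtain ⟨z1, h10, h1u, h1c, h1i, h1Z, h1inj⟩ := hn₁ n (by omega) c B hB.exact.nonneg hB1
    (f (P 0)) U s (univ.image f) hU (hsx _) hsS.1 (by omega)
  obtain ⟨z2, h20, h2u, h2c, h2i, h2Z, h2inj⟩ := hn₁ n (by omega) c B hB.exact.nonneg hB1
    (f (P (m + 1))) U' s (univ.image f ∪ (range (U.card + 1)).image z1) hU' (hsx _) hsS.2
    (by
      have h1 := card_union_le (univ.image f) ((range (U.card + 1)).image z1)
      have h2 : ((range (U.card + 1)).image z1).card ≤ U.card + 1 :=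
        card_image_le.trans (by rw [card_range])
      omega)
  obtain ⟨z, hz0, hz1, hzT, hzc, hzZ, hzi⟩ := ModLast.join c U U' hdis U.card U'.card
    (f (P 0)) (f (P (m + 1))) s (univ.image f) hsZ z1 z2 h10 h1u h1c h1i h1Z h1inj h20 h2u h2c
    h2i h2Z h2inj
  rw [hUU] at hz1 hzT hzc hzZ hzi
  obtain ⟨f₁, hf₁, hf₁'⟩ := ModLast.place G W W₂ k m P hP c f hf hfc (U ∪ U')
    (fun e he h => by
      rcases mem_union.1 h with h | h
      · exact (hcol e he).1 h
      · exact (hcol e he).2 h)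
    z hz0 hz1 hzT hzc
    (fun i h1 h2 v h => hzZ i h1 h2 (h ▸ mem_image_of_mem f (mem_univ v))) hzi
  obtain ⟨g, hg1, hg2⟩ := extend G W hW c hlow f₁ hf₁ hf₁' ((univ : Finset V).card - W.card) univ
    (subset_univ _) (by have := card_le_card (subset_univ W); omega)
  refine ⟨g, hg1, ?_⟩
  intro a ha b hb hab
  exact hg2 ((mem_edgesIn G univ a).2 ⟨ha, fun _ _ => mem_univ _⟩)
    ((mem_edgesIn G univ b).2 ⟨hb, fun _ _ => mem_univ _⟩) hab

end Pool.Agent.Lib.MP_b1acb3_co.Leaf
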