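import Pool.Agent.Lib.MP_b1acb3_co.Leaf.Stmts
import Pool.Agent.Lib.MP_b1acb3_co.Uni.R

/-!
Module (LowN): lower bounds for the defects from `Tight`.
-/

namespace Pool.Agent.Lib.MP_b1acb3_co.Leaf

open Finset Uni

namespace ModLowN

variable {n K : ℕ}

/-- The set `rem R j Q` nearly misses a set which nearly misses all `R (Q \ A)`. -/
theorem inter_rem (R : Finset (Fin K) → Finset (Fin n)) (θ : ℝ) (hθ : 0 ≤ θ) (hR : R ∅ = ∅)
    (j : ℕ) (Q : Finset (Fin K)) (S : Finset (Fin n))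
    (h : ∀ A, A ⊆ Q → A.card = j → (Q \ A).Nonempty → mu (R (Q \ A) ∩ S) ≤ θ) :
    mu (S ∩ rem R j Q) ≤ (K : ℝ) ^ j * θ := by
  have h1 : S ∩ rem R j Q = (Q.powersetCard j).biUnion (fun A => S ∩ R (Q \ A)) := by
    unfold rem
    rw [inter_biUnion]
  rw [h1]
  have h2 := mu_biUnion_le (Q.powersetCard j) (fun A => S ∩ R (Q \ A))
  have h3 : ∑ A ∈ Q.powersetCard j, mu (S ∩ R (Q \ A)) ≤ ∑ A ∈ Q.powersetCard j, θ := by
    apply sum_le_sum
    intro A hA
    rw [mem_powersetCard] at hA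
    by_cases hne : (Q \ A).Nonempty
    · rw [inter_comm]
      exact h A hA.1 hA.2 hne
    · rw [not_nonempty_iff_eq_empty] at hne
      rw [hne, hR, inter_empty, mu_empty]
      exact hθ
  rw [sum_const, nsmul_eq_mul, card_powersetCard] at h3
  have h4 : ((Q.card.choose j : ℕ) : ℝ) ≤ (K : ℝ) ^ j := by
    have h5 : Q.card ≤ K := by
      have := card_le_univ Q
      rwa [Fintype.card_fin] at this
    have h6 : Q.card.choose j ≤ K ^ j :=
      (Nat.choose_le_pow Q.card j).trans (Nat.pow_le_pow_left h5 j)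
    exact_mod_cast h6
  calc _ ≤ _ := h2
    _ ≤ _ := h3
    _ ≤ _ := mul_le_mul_of_nonneg_right h4 hθ

end ModLowN

/-- (LowN) Lower bounds for the defects. -/
theorem thmLowN : StLowN := by
  intro n K P R θ l d h N j hS hT hNl hj hjd x Q hQ
  have hθ := (hS x).nonneg
  have hK1 : 1 ≤ K := (hS x).markov.kpos
  obtain ⟨y, F, -, hFQ, hy⟩ := hT x Q hQ
  obtain ⟨T, hQT, hTc, hT'⟩ := hy Q hQ hFQ
  have hc1 : (T \ Q).card = l + d - Q.card := by
    rw [card_sdiff_of_subset hQT, hTc]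
  obtain ⟨U', hU'T, hU'c⟩ : ∃ U' ⊆ T \ Q, U'.card = l - Q.card + j :=
    exists_subset_card_eq (by omega)
  have hU'ne : U'.Nonempty := by
    rw [← card_pos]
    omega
  have hU'Q : Disjoint Q U' := (disjoint_sdiff).mono_right hU'T
  have h1 : mu (R y U' ∩ rem (R x) j Q) ≤ (K : ℝ) ^ j * θ := by
    refine ModLowN.inter_rem (R x) θ hθ (hS x).empty j Q (R y U') fun A hA hAc hne => ?_
    refine hT' (Q \ A) U' hne hU'ne (hU'Q.mono_left sdiff_subset)
      (sdiff_subset.trans hQT) (hU'T.trans sdiff_subset) ?_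
    rw [card_sdiff_of_subset hA, hU'c]
    have := card_le_card hA
    omega
  have h2 := mu_union_add_inter (R y U') (rem (R x) j Q)
  have h3 := mu_le_one (R y U' ∪ rem (R x) j Q)
  have h4 : mu (R y U') - (K : ℝ) ^ j * θ ≤ 1 - mu (rem (R x) j Q) := by linarith
  have hK : (0 : ℝ) ≤ K := Nat.cast_nonneg K
  have h5 := mul_le_mul_of_nonneg_left h4 hK
  have h6 := (thmR1 n K P (R y) θ (K + 1) (hS y)).1 U' hU'ne
  have h7 : (K : ℝ) ^ 2 * θ ≤ (K : ℝ) ^ (j + 1) * θ :=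
    mul_le_mul_of_nonneg_right (pow_le_pow_right₀ (by exact_mod_cast hK1) (by omega)) hθ
  have h8 : (K : ℝ) * (mu (R y U') - (K : ℝ) ^ j * θ) =
      K * mu (R y U') - (K : ℝ) ^ (j + 1) * θ := by ring
  unfold dfc
  linarith

end Pool.Agent.Lib.MP_b1acb3_co.Leaf
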