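import Pool.Agent.Lib.MP_b1acb3_co.Leaf.Stmts
import Pool.Agent.Lib.MP_b1acb3_co.Uni.M
import Pool.Agent.Lib.MP_b1acb3_co.Uni.Main

/-!
Module (MN): the main inequality (`d = 2`).
-/

namespace Pool.Agent.Lib.MP_b1acb3_co.Leaf

open Finset Uni

namespace ModMN

open Uni.ModM

/-- The defects are at least `1 / 2`. -/
theorem half {n K : ℕ} {R : Finset (Fin K) → Finset (Fin n)} {θ : ℝ} {N : ℕ} (hK : 12 ≤ K)
    (hθ0 : 0 ≤ θ) (hθ : 100 * (K : ℝ) ^ 6 * θ ≤ 1) (hLow : Low R θ 2 N) (Q : Finset (Fin K))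
    (hQ : Q.card ≤ N) : 1 / 2 ≤ dfc (rem R 2) Q := by
  have h1 := hLow Q hQ
  obtain ⟨hs1, hs2, hs3⟩ := small hK hθ0 hθ
  norm_num at h1
  linarith

/-- Lower bound for the mean of `loss / dfc`. -/
theorem sE_ge {n K : ℕ} (P : Fin K → Matrix (Fin n) (Fin n) ℝ)
    (R : Finset (Fin K) → Finset (Fin n)) (θ : ℝ) (N : ℕ) (hS : Sys P R θ (K + 1)) (hK : 12 ≤ K)
    (hθ : 100 * (K : ℝ) ^ 6 * θ ≤ 1) (hLow : Low R θ 2 N) (j : ℕ) (hj : j < K) (hjN : j ≤ N) :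
    -(2 * ((K : ℝ) ^ 3 * θ)) ≤ sE (rem R 2) j / K := by
  have hP := hS.markov
  have hθ0 := hS.nonneg
  have hK0 : (0 : ℝ) < K := by exact_mod_cast hP.kpos
  have hη0 : (0 : ℝ) ≤ (K : ℝ) ^ 2 * θ := by positivity
  have hgr : Grows P (rem R 2) ((K : ℝ) ^ 2 * θ) := grows_rem hP R θ hθ0 hS.grow 2
  have hpt : ∀ Q : Finset (Fin K), Q.card = j →
      -(2 * ((K : ℝ) * ((K : ℝ) ^ 3 * θ))) ≤ loss (rem R 2) Q / dfc (rem R 2) Q := by
    intro Q hQ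
    have hD1 := half hK hθ0 hθ hLow Q (by omega)
    have hcard : ((Qᶜ.card : ℕ) : ℝ) = (K : ℝ) - j := by
      rw [card_compl, Fintype.card_fin, hQ, Nat.cast_sub (by omega)]
    have e1 : -((K : ℝ) * ((K : ℝ) ^ 3 * θ)) ≤ loss (rem R 2) Q := by
      have e2 : -(((K : ℝ) - j) * (K * ((K : ℝ) ^ 2 * θ))) ≤ loss (rem R 2) Q := by
        unfold loss
        calc -(((K : ℝ) - j) * (K * ((K : ℝ) ^ 2 * θ)))
            = ∑ _c ∈ Qᶜ, (-((K : ℝ) * ((K : ℝ) ^ 2 * θ))) := by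
              rw [sum_const, nsmul_eq_mul, hcard]; ring
          _ ≤ _ := by
              apply sum_le_sum
              intro c hc
              have h3 := dfc_grow hP (rem R 2) _ hη0 hgr Q c (mem_compl.1 hc)
              linarith
      have e3 : ((K : ℝ) - j) * (K * ((K : ℝ) ^ 2 * θ)) ≤ K * ((K : ℝ) ^ 3 * θ) := by
        have e4 : (0 : ℝ) ≤ K * ((K : ℝ) ^ 2 * θ) := by positivity
        have e5 : (0 : ℝ) ≤ j := Nat.cast_nonneg j
        nlinarith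
      linarith
    rw [le_div_iff₀ (by linarith)]
    have e6 : (0 : ℝ) ≤ (K : ℝ) * ((K : ℝ) ^ 3 * θ) := by positivity
    nlinarith
  have hE := ModL.EQ_mono (K := K) (i := j) hpt
  rw [ModL.EQ_const (by omega)] at hE
  have hs : EQ K j (fun Q => loss (rem R 2) Q / dfc (rem R 2) Q) = sE (rem R 2) j := rfl
  rw [hs] at hE
  rw [le_div_iff₀ hK0]
  linarith

/-- Upper bound for the mean of `mh`. -/
theorem mh_bound (hT : StTN) {n K : ℕ} (P : Fin K → Matrix (Fin n) (Fin n) ℝ)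
    (R : Finset (Fin K) → Finset (Fin n)) (θ : ℝ) (N : ℕ) (hS : Sys P R θ (K + 1)) (hK : 12 ≤ K)
    (hθ : 100 * (K : ℝ) ^ 6 * θ ≤ 1) (hLow : Low R θ 2 N) (j : ℕ) (hj : 2 ≤ j) (hjN : j ≤ N)
    (hjK : 4 * j ≤ K) :
    EQ K j (mh P (rem R 2)) ≤ 9 / 4 * (sE (rem R 2) j / K) + 3 / 2 * ((K : ℝ) ^ 4 * θ) := by
  have hP := hS.markov
  have hθ0 := hS.nonneg
  have hK0 : (0 : ℝ) < K := by exact_mod_cast hP.kpos
  have hjK' : 4 * (j : ℝ) ≤ K := by exact_mod_cast hjK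
  have hη0 : (0 : ℝ) ≤ (K : ℝ) ^ 2 * θ := by positivity
  have hgr : Grows P (rem R 2) ((K : ℝ) ^ 2 * θ) := grows_rem hP R θ hθ0 hS.grow 2
  obtain ⟨hs1, hs2, hs3⟩ := small hK hθ0 hθ
  have hpt : ∀ Q : Finset (Fin K), Q.card = j →
      mh P (rem R 2) Q ≤ ((j : ℝ) / K - mu (rem R 1 Q)) +
        ((2 / (K : ℝ)) * (loss (rem R 2) Q / dfc (rem R 2) Q) + 4 * ((K : ℝ) ^ 3 * θ)) := by
    intro Q hQ
    have hD1 := half hK hθ0 hθ hLow Q (by omega)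
    have hD1' : 0 < dfc (rem R 2) Q := by linarith
    have e1 := (thmA n K P (rem R 2) (rem R 1) ((K : ℝ) ^ 2 * θ) hP hη0 hgr
      (fun Q c hc => rem_sub R 1 Q c hc) Q hD1').2
    rw [hQ] at e1
    have herr : (K : ℝ) * ((K : ℝ) ^ 2 * θ) / dfc (rem R 2) Q ≤ 2 * ((K : ℝ) ^ 3 * θ) := by
      rw [div_le_iff₀ hD1']
      nlinarith
    have e3 : (loss (rem R 2) Q / K + K * ((K : ℝ) ^ 2 * θ)) / dfc (rem R 2) Q =
        loss (rem R 2) Q / dfc (rem R 2) Q / K +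
          (K : ℝ) * ((K : ℝ) ^ 2 * θ) / dfc (rem R 2) Q := by
      rw [add_div, div_right_comm]
    rw [e3] at e1
    have e5 : (2 / (K : ℝ)) * (loss (rem R 2) Q / dfc (rem R 2) Q) =
        2 * (loss (rem R 2) Q / dfc (rem R 2) Q / K) := by ring
    rw [e5]
    linarith
  have hEQ := ModL.EQ_mono (K := K) (i := j) hpt
  rw [EQ_add, EQ_add, ModL.EQ_sub, ModL.EQ_const (by omega), ModL.EQ_mul,
    ModL.EQ_const (by omega)] at hEQ
  have hs : EQ K j (fun Q => loss (rem R 2) Q / dfc (rem R 2) Q) = sE (rem R 2) j := rfl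
  rw [hs] at hEQ
  have e6 := all_E n K P R θ (K + 1) hS hK j hj hjK
  have e7 := hT n K P R θ N hS hK hθ hLow j hj hjN hjK
  have e8 : 0 ≤ EQ K j (bad R θ) := EQ_nonneg (by
    intro Q
    unfold bad
    split_ifs <;> norm_num)
  have e9 : (j : ℝ) / (2 * K) * EQ K j (bad R θ) ≤ 1 / 8 * EQ K j (bad R θ) := by
    apply mul_le_mul_of_nonneg_right _ e8
    rw [div_le_iff₀ (by positivity)]
    linarith
  have e10 : (2 / (K : ℝ)) * sE (rem R 2) j = 2 * (sE (rem R 2) j / K) := by ring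
  rw [e10] at hEQ e7
  have e11 : EQ K j (fun Q => mh P (rem R 2) Q) = EQ K j (mh P (rem R 2)) := rfl
  rw [e11] at hEQ
  linarith

end ModMN

open ModMN Uni.ModM in
theorem thmMN (hT : StTN) : StMN := by
  intro n K P R θ N A hS hK hθ hLow hA i hi hiN hiK hKA
  have hP := hS.markov
  have hθ0 := hS.nonneg
  have hK0 : (0 : ℝ) < K := by exact_mod_cast hP.kpos
  have hiK' : 4 * ((i : ℝ) + 1) ≤ K := by exact_mod_cast hiK
  have hi0 : (0 : ℝ) ≤ i := Nat.cast_nonneg i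
  have hη0 : (0 : ℝ) ≤ (K : ℝ) ^ 2 * θ := by positivity
  have hgr : Grows P (rem R 2) ((K : ℝ) ^ 2 * θ) := grows_rem hP R θ hθ0 hS.grow 2
  obtain ⟨hs1, hs2, hs3⟩ := small hK hθ0 hθ
  -- the means of `mh` at `i` and `i + 1`
  have m1 := mh_bound hT P R θ N hS hK hθ hLow i hi (by omega) (by omega)
  have m2 := mh_bound hT P R θ N hS hK hθ hLow (i + 1) (by omega) hiN hiK
  have m3 : 0 ≤ EQ K i (mh P (rem R 2)) := EQ_nonneg fun Q => mh_nonneg hP _ Q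
  have m4 : 0 ≤ EQ K (i + 1) (mh P (rem R 2)) := EQ_nonneg fun Q => mh_nonneg hP _ Q
  have m5 : 0 ≤ EQ K i (offd P (rem R 2)) := EQ_nonneg fun Q => offd_nonneg hP _ Q
  have m6 := ModMN.sE_ge P R θ N hS hK hθ hLow i (by omega) (by omega)
  -- (O)
  have o1 := all_O n K P (rem R 2) ((K : ℝ) ^ 2 * θ) i hP hη0 (by nlinarith) hgr (by omega)
    (fun Q hQ => half hK hθ0 hθ hLow Q (by omega))
  have o2 : ((K : ℝ) - i) / ((i : ℝ) + 1) ≤ A := by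
    rw [div_le_iff₀ (by positivity)]
    linarith
  have o3 : ((K : ℝ) - i) / ((i : ℝ) + 1) * EQ K (i + 1) (mh P (rem R 2)) ≤
      A * EQ K (i + 1) (mh P (rem R 2)) := mul_le_mul_of_nonneg_right o2 m4
  have o4 : (2 / (K : ℝ)) * sE (rem R 2) i = 2 * (sE (rem R 2) i / K) := by ring
  have o5 : 9 * (K : ℝ) ^ 2 * ((K : ℝ) ^ 2 * θ) = 9 * ((K : ℝ) ^ 4 * θ) := by ring
  rw [o4, o5] at o1
  have o6 : A * EQ K (i + 1) (mh P (rem R 2)) ≤
      9 / 4 * (A * (sE (rem R 2) (i + 1) / K)) + 3 / 2 * (A * ((K : ℝ) ^ 4 * θ)) := by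
    have := mul_le_mul_of_nonneg_left m2 (by linarith : (0 : ℝ) ≤ A)
    calc A * EQ K (i + 1) (mh P (rem R 2)) ≤ _ := this
      _ = _ := by ring
  -- (C)
  have hpt : ∀ Q : Finset (Fin K), Q.card = i →
      (1 - (i : ℝ) / K) * (1 - 1 / dfc (rem R 2) Q) ≤ mh P (rem R 2) Q + offd P (rem R 2) Q := by
    intro Q hQ
    have hD1 := half hK hθ0 hθ hLow Q (by omega)
    have := thmC n K P (rem R 2) hP Q (by linarith)
    rw [hQ] at this
    exact this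
  have hEQ := ModL.EQ_mono (K := K) (i := i) hpt
  rw [ModL.EQ_mul, EQ_add] at hEQ
  have e11 : EQ K i (fun Q => mh P (rem R 2) Q) = EQ K i (mh P (rem R 2)) := rfl
  have e12 : EQ K i (fun Q => offd P (rem R 2) Q) = EQ K i (offd P (rem R 2)) := rfl
  rw [e11, e12] at hEQ
  set X := EQ K i (fun Q => 1 - 1 / dfc (rem R 2) Q) with hX
  have t1 : (3 : ℝ) / 4 ≤ 1 - (i : ℝ) / K := by
    have : (i : ℝ) / K ≤ 1 / 4 := by
      rw [div_le_iff₀ hK0]; linarith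
    linarith
  have fin1 : 3 / 4 * X ≤ EQ K i (mh P (rem R 2)) + EQ K i (offd P (rem R 2)) := by
    rcases le_total 0 X with hX0 | hX0
    · calc 3 / 4 * X ≤ (1 - (i : ℝ) / K) * X := mul_le_mul_of_nonneg_right t1 hX0
        _ ≤ _ := hEQ
    · linarith
  have e0 : (0 : ℝ) ≤ (K : ℝ) ^ 4 * θ := by positivity
  have e13 : 40 * A * (K : ℝ) ^ 4 * θ = 40 * (A * ((K : ℝ) ^ 4 * θ)) := by ring
  have e14 : 3 * A * (sE (rem R 2) (i + 1) / K) = 3 * (A * (sE (rem R 2) (i + 1) / K)) := by ring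
  have e15 : 2 * ((K : ℝ) ^ 4 * θ) ≤ A * ((K : ℝ) ^ 4 * θ) := mul_le_mul_of_nonneg_right hA e0
  rw [e13, e14]
  linarith

end Pool.Agent.Lib.MP_b1acb3_co.Leaf
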