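import Pool.Agent.Lib.MP_b1acb3_co.Leaf.Stmts

/-!
(Num) Numerical choices for the classification of graphs with a leaf.
-/

namespace Pool.Agent.Lib.MP_b1acb3_co.Leaf

open Finset Uni

namespace ModNum

theorem two_pow_le_choose (d : ℕ) (hd : 4 ≤ d) : 2 ^ d ≤ (2 * d).choose d := by
  have h1 := Nat.four_pow_lt_mul_centralBinom d hd
  rw [Nat.centralBinom_eq_two_mul_choose] at h1
  have h2 : d < 2 ^ d := Nat.lt_two_pow_self
  have h3 : (4 : ℕ) ^ d = 2 ^ d * 2 ^ d := by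
    rw [← mul_pow]
    norm_num
  rw [h3] at h1
  by_contra hlt
  rw [not_le] at hlt
  have h4 : d * (2 * d).choose d ≤ 2 ^ d * 2 ^ d := Nat.mul_le_mul h2.le hlt.le
  omega

end ModNum

open ModNum in
theorem thmNum : StNum := by
  intro K₀
  refine ⟨10 ^ 12 + K₀, fun b e hb he => ?_⟩
  set L : ℕ := Nat.log 2 e + 1 with hL
  have hL1 : 1 ≤ L := Nat.le_add_left 1 _
  set A : ℕ := b ^ 2 * L ^ 4 with hA
  have heA : (10 ^ 12 + K₀) * A ≤ e := by
    rw [hA, ← mul_assoc]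
    exact he
  have hb2 : b ≤ b ^ 2 := Nat.le_self_pow (by norm_num) b
  have hL2 : L ≤ L ^ 2 := Nat.le_self_pow (by norm_num) L
  have hL4 : L ≤ L ^ 4 := Nat.le_self_pow (by norm_num) L
  have hL24 : L ^ 2 ≤ L ^ 4 := Nat.pow_le_pow_right hL1 (by norm_num)
  have a1 : b * L ≤ A := Nat.mul_le_mul hb2 hL4
  have a2 : b * L ^ 2 ≤ A := Nat.mul_le_mul hb2 hL24
  have a3 : b ^ 2 * L ^ 2 ≤ A := Nat.mul_le_mul le_rfl hL24
  have a4 : b ^ 2 * L ≤ A := Nat.mul_le_mul le_rfl hL4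
  have a5 : L ≤ A := le_trans (Nat.le_mul_of_pos_left L hb) a1
  have a6 : b ≤ A := le_trans (Nat.le_mul_of_pos_right b hL1) a1
  have a7 : 1 ≤ A := le_trans hL1 a5
  have e1 : 10 ^ 12 * A ≤ e := le_trans (Nat.mul_le_mul (Nat.le_add_right _ _) le_rfl) heA
  have e2 : K₀ ≤ e := by
    refine le_trans ?_ heA
    calc K₀ ≤ 10 ^ 12 + K₀ := Nat.le_add_left _ _
      _ = (10 ^ 12 + K₀) * 1 := (mul_one _).symm
      _ ≤ (10 ^ 12 + K₀) * A := Nat.mul_le_mul le_rfl a7
  set N : ℕ := e / (4096 * (b * L)) with hN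
  have hbL : 1 ≤ b * L := Nat.mul_pos hb hL1
  have n1 : 4096 * (b * L * N) ≤ e := by
    have := Nat.div_mul_le_self e (4096 * (b * L))
    rw [← hN] at this
    calc 4096 * (b * L * N) = N * (4096 * (b * L)) := by ring
      _ ≤ e := this
  have n2 : e < 4096 * (b * L * N) + 4096 * (b * L) := by
    have := Nat.lt_div_mul_add (a := e) (b := 4096 * (b * L)) (by positivity)
    rw [← hN] at this
    calc e < N * (4096 * (b * L)) + 4096 * (b * L) := this
      _ = 4096 * (b * L * N) + 4096 * (b * L) := by ring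
  have p1 : L * N ≤ b * L * N := by
    calc L * N = 1 * (L * N) := (one_mul _).symm
      _ ≤ b * (L * N) := Nat.mul_le_mul hb le_rfl
      _ = b * L * N := by ring
  have p2 : b * N ≤ b * L * N := by
    calc b * N = b * 1 * N := by ring
      _ ≤ b * L * N := Nat.mul_le_mul (Nat.mul_le_mul le_rfl hL1) le_rfl
  have elt : e + 1 ≤ 2 ^ L := Nat.lt_pow_succ_log_self (by norm_num) e
  refine ⟨4 * L + 12, 2 * L + 6, N, e2, ?_, ?_, ?_, ?_, ?_, ?_⟩
  · -- the binomial coefficient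
    have h1 := two_pow_le_choose (2 * L + 6) (by omega)
    have h2 : 2 * (2 * L + 6) = 4 * L + 12 := by ring
    rw [h2] at h1
    refine le_trans ?_ h1
    calc 16 * (e + 1) ^ 2 ≤ 16 * (2 ^ L) ^ 2 :=
          Nat.mul_le_mul le_rfl (Nat.pow_le_pow_left elt 2)
      _ = 2 ^ 4 * 2 ^ (L * 2) := by rw [← pow_mul]; norm_num
      _ = 2 ^ (4 + L * 2) := by rw [← pow_add]
      _ ≤ 2 ^ (2 * L + 6) := Nat.pow_le_pow_right (by norm_num) (by omega)
  · have h1 : (4 * L + 12 + 1) ^ 2 ≤ 289 * L ^ 2 := by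
      calc (4 * L + 12 + 1) ^ 2 ≤ (17 * L) ^ 2 := Nat.pow_le_pow_left (by omega) 2
        _ = 289 * L ^ 2 := by ring
    calc 256 * b ^ 2 * (4 * L + 12 + 1) ^ 2 ≤ 256 * b ^ 2 * (289 * L ^ 2) :=
          Nat.mul_le_mul le_rfl h1
      _ = 73984 * (b ^ 2 * L ^ 2) := by ring
      _ ≤ 73984 * A := Nat.mul_le_mul le_rfl a3
      _ ≤ e := by omega
  · calc 64 * b * (4 * L + 12 + 1) * (N + 2) ≤ 64 * b * (17 * L) * (N + 2) :=
          Nat.mul_le_mul (Nat.mul_le_mul le_rfl (by omega)) le_rfl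
      _ = 1088 * (b * L * N) + 2176 * (b * L) := by ring
      _ ≤ e := by omega
  · calc 2 * (4 * L + 12) * (8 * b * (4 * L + 12 + 1) + N + 2)
        ≤ 2 * (16 * L) * (8 * b * (17 * L) + N + 2) := by
          refine Nat.mul_le_mul (Nat.mul_le_mul le_rfl (by omega)) ?_
          have : 8 * b * (4 * L + 12 + 1) ≤ 8 * b * (17 * L) :=
            Nat.mul_le_mul le_rfl (by omega)
          omega
      _ = 4352 * (b * L ^ 2) + 32 * (L * N) + 64 * L := by ring
      _ ≤ e := by omega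
  · calc 16 * b * (N + 2 + 4 * b * (2 * L + 6) + (4 * L + 12) + 1)
        ≤ 16 * b * (N + 2 + 4 * b * (8 * L) + 17 * L) := by
          refine Nat.mul_le_mul le_rfl ?_
          have : 4 * b * (2 * L + 6) ≤ 4 * b * (8 * L) := Nat.mul_le_mul le_rfl (by omega)
          omega
      _ = 16 * (b * N) + 32 * b + 512 * (b ^ 2 * L) + 272 * (b * L) := by ring
      _ ≤ e := by omega
  · -- the logarithm
    have l1 : Real.log ((e + 1 : ℕ) : ℝ) + 1 ≤ 17 / 10 * (L : ℝ) := by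
      have h1 : ((e + 1 : ℕ) : ℝ) ≤ 2 ^ L := by exact_mod_cast elt
      have h2 : Real.log ((e + 1 : ℕ) : ℝ) ≤ L * Real.log 2 := by
        rw [← Real.log_pow]
        exact Real.log_le_log (by positivity) h1
      have h3 := Real.log_two_lt_d9
      have h4 : (1 : ℝ) ≤ L := by exact_mod_cast hL1
      have h5 : (L : ℝ) * Real.log 2 ≤ L * (7 / 10) :=
        mul_le_mul_of_nonneg_left (by linarith) (by linarith)
      linarith
    have l0 : 0 ≤ Real.log ((e + 1 : ℕ) : ℝ) + 1 := by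
      have : 0 ≤ Real.log ((e + 1 : ℕ) : ℝ) :=
        Real.log_nonneg (by exact_mod_cast Nat.le_add_left 1 e)
      linarith
    have l2 : (Real.log ((e + 1 : ℕ) : ℝ) + 1) ^ 2 ≤ 289 / 100 * (L : ℝ) ^ 2 := by
      calc (Real.log ((e + 1 : ℕ) : ℝ) + 1) ^ 2 ≤ (17 / 10 * (L : ℝ)) ^ 2 :=
            pow_le_pow_left₀ l0 l1 2
        _ = 289 / 100 * (L : ℝ) ^ 2 := by ring
    have q1 : e ≤ 8192 * (b * L * N) := by omega
    have q1' : (e : ℝ) ≤ 8192 * ((b : ℝ) * L * N) := by exact_mod_cast q1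
    have q2 : (10 : ℝ) ^ 12 * ((b : ℝ) ^ 2 * (L : ℝ) ^ 4) ≤ e := by
      have : ((10 ^ 12 * A : ℕ) : ℝ) ≤ (e : ℝ) := by exact_mod_cast e1
      rw [hA] at this
      push_cast at this
      norm_num
      exact this
    have hbp : (1 : ℝ) ≤ b := by exact_mod_cast hb
    have hLp : (1 : ℝ) ≤ L := by exact_mod_cast hL1
    have hep : (1 : ℝ) ≤ e := by
      have : 1 ≤ e := by omega
      exact_mod_cast this
    have hcast : ((e + 1 : ℕ) : ℝ) ≤ 2 * e := by
      push_cast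
      linarith
    have hpos : (0 : ℝ) < (8192 * ((b : ℝ) * L)) ^ 2 := by positivity
    refine le_of_mul_le_mul_right ?_ hpos
    calc 1000 * ((e + 1 : ℕ) : ℝ) * (Real.log ((e + 1 : ℕ) : ℝ) + 1) ^ 2 *
          (8192 * ((b : ℝ) * L)) ^ 2
        ≤ 1000 * (2 * e) * (289 / 100 * (L : ℝ) ^ 2) * (8192 * ((b : ℝ) * L)) ^ 2 := by
          refine mul_le_mul_of_nonneg_right ?_ hpos.le
          exact mul_le_mul (mul_le_mul_of_nonneg_left hcast (by norm_num)) l2 (by positivity)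
            (by positivity)
      _ = e * (387889233920 * ((b : ℝ) ^ 2 * (L : ℝ) ^ 4)) := by ring
      _ ≤ e * (10 ^ 12 * ((b : ℝ) ^ 2 * (L : ℝ) ^ 4)) := by
          refine mul_le_mul_of_nonneg_left ?_ (by linarith)
          refine mul_le_mul_of_nonneg_right (by norm_num) (by positivity)
      _ ≤ e * e := mul_le_mul_of_nonneg_left q2 (by linarith)
      _ ≤ (8192 * ((b : ℝ) * L * N)) * (8192 * ((b : ℝ) * L * N)) :=
          mul_le_mul q1' q1' (by linarith) (by positivity)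
      _ = (N : ℝ) ^ 2 * (8192 * ((b : ℝ) * L)) ^ 2 := by ring

end Pool.Agent.Lib.MP_b1acb3_co.Leaf
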