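import Pool.Agent.Lib.MP_b1acb3_co.Leaf.Stmts
import Pool.Agent.Lib.MP_b1acb3_co.Cyc.Count

/-!
An odd vertex of the core.
-/

namespace Pool.Agent.Lib.MP_b1acb3_co.Leaf

open Finset Uni

namespace ModOddNe

/-- An inner vertex of an ear has exactly two neighbours in `W`. -/
theorem inner_nbrs {V : Type} [Fintype V] {G : SimpleGraph V} {W W₁ : Finset V} {q k : ℕ}
    {m : Fin q → ℕ} {P : Fin q → ℕ → V} (hP : Cyc.Ears G W W₁ q k m P) (i : Fin q) (j : ℕ)
    (hj : 1 ≤ j) (hj' : j ≤ m i) : {u | u ∈ W ∧ G.Adj (P i j) u}.ncard = 2 := by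
  have h : {u | u ∈ W ∧ G.Adj (P i j) u} = {P i (j - 1), P i (j + 1)} := by
    ext u
    constructor
    · rintro ⟨h1, h2⟩
      rcases hP.only i j u hj hj' h1 h2 with h | h
      · exact Or.inl h
      · exact Or.inr h
    · rintro (h | h)
      · rw [h]
        refine ⟨Cyc.ears_mem hP i (j - 1) (by omega), ?_⟩
        have h1 := hP.adj i (j - 1) (by omega)
        rw [Nat.sub_add_cancel hj] at h1
        exact h1.symm
      · rw [Set.mem_singleton_iff] at h
        rw [h]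
        exact ⟨Cyc.ears_mem hP i (j + 1) (by omega), hP.adj i j hj'⟩
  rw [h, Set.ncard_pair (hP.ne i j hj hj')]

end ModOddNe

theorem thmOddNe : StOddNe := by
  classical
  intro V _ G W W₁ q k m P hk hP hnum hodd
  set EW : Set (Sym2 V) := {e ∈ G.edgeSet | ∀ x ∈ e, x ∈ W} with hEW
  have hsub : EW ⊆ G.edgeSet := fun e he => he.1
  have hdiff : (G.edgeSet \ EW).ncard = 1 := by
    have h1 := Set.ncard_sdiff_add_ncard_of_subset hsub (Set.toFinite _)
    unfold numEdgesIn numEdges at hnum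
    rw [← hEW] at hnum
    omega
  obtain ⟨e₀, he₀⟩ := Set.ncard_eq_one.1 hdiff
  have hmem : ∀ e, e ∈ G.edgeSet → (e ≠ e₀ ↔ e ∈ EW) := by
    intro e he
    constructor
    · intro hne
      by_contra hcon
      have : e ∈ G.edgeSet \ EW := ⟨he, hcon⟩
      rw [he₀] at this
      exact hne this
    · intro h heq
      have : e₀ ∈ G.edgeSet \ EW := by
        rw [he₀]
        exact rfl
      rw [← heq] at this
      exact this.2 h
  have he₀G : e₀ ∈ G.edgeSet := by
    have : e₀ ∈ G.edgeSet \ EW := by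
      rw [he₀]
      exact rfl
    exact this.1
  have h1 : ¬ ∀ v, Even {u | G.Adj v u ∧ s(v, u) ≠ e₀}.ncard := by
    intro h
    exact hodd ⟨e₀, he₀G, h⟩
  push Not at h1
  obtain ⟨v, hv⟩ := h1
  have hvW : v ∈ W := by
    by_contra hcon
    apply hv
    have : {u | G.Adj v u ∧ s(v, u) ≠ e₀} = ∅ := by
      rw [Set.eq_empty_iff_forall_notMem]
      rintro u ⟨h2, h3⟩
      have h4 := (hmem s(v, u) h2).1 h3
      exact hcon (h4.2 v (Sym2.mem_mk_left _ _))
    rw [this, Set.ncard_empty]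
    exact Even.zero
  have hset : {u | G.Adj v u ∧ s(v, u) ≠ e₀} = {u | u ∈ W ∧ G.Adj v u} := by
    ext u
    constructor
    · rintro ⟨h2, h3⟩
      have h4 := (hmem s(v, u) h2).1 h3
      exact ⟨h4.2 u (Sym2.mem_mk_right _ _), h2⟩
    · rintro ⟨h2, h3⟩
      refine ⟨h3, (hmem s(v, u) h3).2 ⟨h3, ?_⟩⟩
      intro x hx
      rw [Sym2.mem_iff] at hx
      rcases hx with rfl | rfl
      · exact hvW
      · exact h2
  rw [hset] at hv
  have hvodd : Odd {u | u ∈ W ∧ G.Adj v u}.ncard := Nat.not_even_iff_odd.1 hv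
  refine ⟨v, ?_⟩
  rw [mem_oddIn]
  refine ⟨?_, hvodd⟩
  by_contra hcon
  obtain ⟨i, j, hj1, hj2, hij⟩ := hP.cover v hvW hcon
  rw [← hij, ModOddNe.inner_nbrs hP i j hj1 hj2] at hvodd
  exact absurd hvodd (by decide)

end Pool.Agent.Lib.MP_b1acb3_co.Leaf
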