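import Pool.Agent.Lib.MP_b1acb3_co.Leaf.Stmts
import Pool.Agent.Lib.MP_b1acb3_co.Uni.R

/-!
Module (PairLow): a pair of colours seen from another vertex (`d = 2`).
-/

namespace Pool.Agent.Lib.MP_b1acb3_co.Leaf

open Finset Uni

namespace ModPairLow

variable {n K : ℕ} {P : Fin K → Matrix (Fin n) (Fin n) ℝ} {R : Finset (Fin K) → Finset (Fin n)}
  {θ : ℝ} {d : ℕ}

/-- The intersection with `rem R 2 Q`. -/
theorem inter_rem (h : Sys P R θ d) (S : Finset (Fin n)) (Q : Finset (Fin K))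
    (hS : ∀ A ⊆ Q, A.card = 2 → (Q \ A).Nonempty → mu (S ∩ R (Q \ A)) ≤ θ) :
    mu (S ∩ rem R 2 Q) ≤ (K : ℝ) ^ 2 * θ := by
  have h1 : S ∩ rem R 2 Q = (Q.powersetCard 2).biUnion (fun A => S ∩ R (Q \ A)) := by
    unfold rem
    rw [inter_biUnion]
  rw [h1]
  have h2 := mu_biUnion_le (Q.powersetCard 2) (fun A => S ∩ R (Q \ A))
  have h3 : ∑ A ∈ Q.powersetCard 2, mu (S ∩ R (Q \ A)) ≤ ∑ A ∈ Q.powersetCard 2, θ := by
    apply sum_le_sum
    intro A hA
    rw [mem_powersetCard] at hA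
    by_cases hne : (Q \ A).Nonempty
    · exact hS A hA.1 hA.2 hne
    · rw [not_nonempty_iff_eq_empty] at hne
      rw [hne, h.empty, inter_empty, mu_empty]
      exact h.nonneg
  rw [sum_const, nsmul_eq_mul, card_powersetCard] at h3
  have h4 : ((Q.card.choose 2 : ℕ) : ℝ) ≤ (K : ℝ) ^ 2 := by
    have h5 : Q.card ≤ K := by
      have := card_le_univ Q
      rwa [Fintype.card_fin] at this
    have h6 : Q.card.choose 2 ≤ K ^ 2 :=
      (Nat.choose_le_pow Q.card 2).trans (Nat.pow_le_pow_left h5 2)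
    exact_mod_cast h6
  calc _ ≤ _ := h2
    _ ≤ _ := h3
    _ ≤ _ := mul_le_mul_of_nonneg_right h4 h.nonneg

end ModPairLow

/-- (PairLow) A pair of colours seen from another vertex. -/
theorem thmPairLow : StPairLow := by
  intro n K P R θ l h N hSys hT _ x a b hab
  have hc : ({a, b} : Finset (Fin K)).card = 2 := card_pair hab
  obtain ⟨y, F₀, hF, hd, hQ⟩ := hT x {a, b} (by rw [hc]; omega)
  refine ⟨y, F₀ ∪ {a, b}, ?_, ?_⟩
  · have := card_union_le F₀ {a, b}
    rw [hc] at this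
    omega
  · intro Q hQN hQd
    rw [disjoint_union_left] at hQd
    obtain ⟨T, hQT, hTc, hT2⟩ := hQ (Q ∪ {a, b}) (by
        have := card_union_le Q {a, b}
        rw [hc] at this
        omega) (by
        rw [disjoint_union_right]
        exact ⟨hQd.1, hd⟩)
    have hQT1 : Q ⊆ T := subset_union_left.trans hQT
    have hQT2 : {a, b} ⊆ T := subset_union_right.trans hQT
    have hcU : (T \ Q).card = l + 2 - Q.card := by
      rw [card_sdiff_of_subset hQT1, hTc]
    have hle : Q.card + 2 ≤ l + 2 := by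
      have h1 := card_le_card hQT
      rw [card_union_of_disjoint hQd.2.symm, hc, hTc] at h1
      exact h1
    have hsub : {a, b} ⊆ T \ Q := by
      intro z hz
      rw [mem_sdiff]
      exact ⟨hQT2 hz, fun hzQ => disjoint_left.1 hQd.2 hz hzQ⟩
    have h1 := ModPairLow.inter_rem (hSys y) (R x (T \ Q)) Q (by
      intro A hA hAc hne
      apply hT2 (T \ Q) (Q \ A)
      · exact ⟨a, hsub (by simp)⟩
      · exact hne
      · exact disjoint_sdiff_self_left.mono_right sdiff_subset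
      · exact sdiff_subset
      · exact sdiff_subset.trans hQT1
      · have h2 : (Q \ A).card = Q.card - 2 := by
          rw [card_sdiff_of_subset hA, hAc]
        have h3 := card_le_card hA
        omega)
    have h2 := mu_union_add_inter (R x (T \ Q)) (rem (R y) 2 Q)
    have h3 := mu_le_one (R x (T \ Q) ∪ rem (R y) 2 Q)
    have h4 := (thmR1 n K P (R x) θ (K + 1) (hSys x)).2 {a, b} (T \ Q) hsub
    have h5 : mu (R x {a, b}) ≤ 1 - mu (rem (R y) 2 Q) + ((K : ℝ) ^ 2 * θ + K * θ) := by linarith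
    have hK : (0 : ℝ) ≤ K := Nat.cast_nonneg K
    have hK1 : (1 : ℝ) ≤ K := by
      have := (hSys x).markov.kpos
      exact_mod_cast this
    have h6 := mul_le_mul_of_nonneg_left h5 hK
    have h7 : (K : ℝ) ^ 2 * θ ≤ (K : ℝ) ^ 3 * θ :=
      mul_le_mul_of_nonneg_right (pow_le_pow_right₀ hK1 (by norm_num)) (hSys x).nonneg
    unfold dfc
    calc (K : ℝ) * mu (R x {a, b})
        ≤ K * (1 - mu (rem (R y) 2 Q) + ((K : ℝ) ^ 2 * θ + K * θ)) := h6
      _ = K * (1 - mu (rem (R y) 2 Q)) + ((K : ℝ) ^ 3 * θ + (K : ℝ) ^ 2 * θ) := by ring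
      _ ≤ K * (1 - mu (rem (R y) 2 Q)) + 2 * (K : ℝ) ^ 3 * θ := by linarith

end Pool.Agent.Lib.MP_b1acb3_co.Leaf
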