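import Pool.Agent.Lib.MP_b1acb3_co.Leaf.Stmts

/-!
From the potential to a lower bound for the defects of the sets disjoint from a small set.
-/

namespace Pool.Agent.Lib.MP_b1acb3_co.Leaf

open Finset Uni

namespace ModPairN

/-- The sets of `i` elements which meet a set of `f` elements. -/
theorem choose_le_add {K j : ℕ} : ∀ f : ℕ, f ≤ K →
    K.choose (j + 1) ≤ (K - f).choose (j + 1) + f * (K - 1).choose j := by
  intro f
  induction f with
  | zero => intro _; simp
  | succ f ih =>
    intro hf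
    have h1 := ih (by omega)
    have h2 : K - f = (K - (f + 1)) + 1 := by omega
    rw [h2, Nat.choose_succ_succ] at h1
    have h3 : (K - (f + 1)).choose j ≤ (K - 1).choose j := Nat.choose_le_choose j (by omega)
    have h4 : (f + 1) * (K - 1).choose j = f * (K - 1).choose j + (K - 1).choose j := by ring
    rw [h4]
    simp only [Nat.succ_eq_add_one] at h1
    omega

/-- At least half of the sets of `i` elements avoid a small set. -/
theorem choose_half {K f i : ℕ} (hf : f ≤ K) (h : 2 * f * i ≤ K) :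
    K.choose i ≤ 2 * (K - f).choose i := by
  rcases i with _ | j
  · simp
  · rcases K with _ | n
    · have : f = 0 := by omega
      subst this
      simp
    · have h1 := choose_le_add (K := n + 1) (j := j) f hf
      have h2 : (n + 1) * n.choose j = (n + 1).choose (j + 1) * (j + 1) :=
        Nat.add_one_mul_choose_eq n j
      rw [Nat.add_sub_cancel] at h1
      have h3 : (2 * (f * n.choose j)) * (n + 1) ≤ (n + 1).choose (j + 1) * (n + 1) := by
        calc (2 * (f * n.choose j)) * (n + 1) = 2 * f * ((n + 1) * n.choose j) := by ring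
          _ = (n + 1).choose (j + 1) * (2 * f * (j + 1)) := by rw [h2]; ring
          _ ≤ _ := Nat.mul_le_mul_left _ h
      have h4 := Nat.le_of_mul_le_mul_right h3 (Nat.succ_pos n)
      omega

end ModPairN

open ModPairN in
theorem thmPairN : StPairN := by
  refine ⟨4, fun K hK n R θ β N i F hθ hθK hlow hiN hiK hFi hlam hβ => ?_⟩
  have hK4 : (4 : ℝ) ≤ K := by exact_mod_cast hK
  have hK0 : (0 : ℝ) < K := by linarith
  -- the small quantities
  set y : ℝ := (K : ℝ) ^ 3 * θ with hy
  have hy0 : 0 ≤ y := by positivity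
  set u : ℝ := 1 / (K : ℝ) ^ 8 with hu
  have hu0 : 0 < u := by positivity
  have hyu : y ≤ u / 16 := by
    rw [hu, div_div, le_div_iff₀ (by positivity), hy]
    have h9 : (16 : ℝ) ≤ (K : ℝ) ^ 9 := by
      calc (16 : ℝ) ≤ 4 ^ 9 := by norm_num
        _ ≤ (K : ℝ) ^ 9 := pow_le_pow_left₀ (by norm_num) hK4 9
    calc (K : ℝ) ^ 3 * θ * ((K : ℝ) ^ 8 * 16) = (θ * (K : ℝ) ^ 11) * 16 := by ring
      _ ≤ (θ * (K : ℝ) ^ 11) * (K : ℝ) ^ 9 := mul_le_mul_of_nonneg_left h9 (by positivity)
      _ = θ * (K : ℝ) ^ 20 := by ring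
      _ ≤ 1 := hθK
  have hu1 : u ≤ 1 / 64 := by
    rw [hu]
    apply one_div_le_one_div_of_le (by norm_num)
    calc (64 : ℝ) ≤ 4 ^ 8 := by norm_num
      _ ≤ (K : ℝ) ^ 8 := pow_le_pow_left₀ (by norm_num) hK4 8
  have hu5 : 64 * u ≤ 1 / (K : ℝ) ^ 5 := by
    rw [hu, mul_one_div, div_le_div_iff₀ (by positivity) (by positivity), one_mul]
    have h3 : (64 : ℝ) ≤ (K : ℝ) ^ 3 := by
      calc (64 : ℝ) = 4 ^ 3 := by norm_num
        _ ≤ (K : ℝ) ^ 3 := pow_le_pow_left₀ (by norm_num) hK4 3
    calc 64 * (K : ℝ) ^ 5 ≤ (K : ℝ) ^ 3 * (K : ℝ) ^ 5 :=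
          mul_le_mul_of_nonneg_right h3 (by positivity)
      _ = (K : ℝ) ^ 8 := by ring
  have hD1 : ∀ Q : Finset (Fin K), Q.card = i → 1 - 2 * y ≤ dfc (rem R 2) Q := by
    intro Q hQ
    have := hlow Q (by omega)
    rw [hy, ← mul_assoc]
    exact this
  have hD2 : ∀ Q : Finset (Fin K), Q.card = i → Q ⊆ Fᶜ → β - 2 * y ≤ dfc (rem R 2) Q := by
    intro Q hQ hsub
    have := hβ Q hQ (by
      rw [disjoint_right]
      intro a ha
      exact mem_compl.1 (hsub ha))
    rw [mul_assoc] at this
    linarith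
  by_cases hcase : β ≤ 1 + 2 * y
  · linarith
  push Not at hcase
  -- lower bound of the potential
  set l : ℝ := Real.log (β - 2 * y) with hl
  have hβ1 : 1 < β - 2 * y := by linarith
  have hl0 : 0 < l := Real.log_pos hβ1
  have hlog1 : ∀ Q : Finset (Fin K), Q.card = i → 0 ≤ Real.log (dfc (rem R 2) Q) + 4 * y := by
    intro Q hQ
    have h3 := hD1 Q hQ
    have h4 : 0 < 1 - 2 * y := by linarith
    have h5 : Real.log (1 - 2 * y) ≤ Real.log (dfc (rem R 2) Q) := Real.log_le_log h4 h3
    have h6 := Real.one_sub_inv_le_log_of_pos h4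
    have h7 : -(4 * y) ≤ 1 - (1 - 2 * y)⁻¹ := by
      have h8 : (1 - 2 * y)⁻¹ ≤ 1 + 4 * y := by
        rw [inv_le_comm₀ h4 (by linarith), ← one_div, div_le_iff₀ (by linarith)]
        nlinarith
      linarith
    linarith
  have hlog2 : ∀ Q : Finset (Fin K), Q.card = i → Q ⊆ Fᶜ →
      l ≤ Real.log (dfc (rem R 2) Q) + 4 * y := by
    intro Q hQ hsub
    have h3 := Real.log_le_log (by linarith) (hD2 Q hQ hsub)
    linarith
  have hcab : Fᶜ.card = K - F.card := by
    rw [card_compl, Fintype.card_fin]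
  have hsum : l * ((K - F.card).choose i : ℝ) ≤
      ∑ Q ∈ powersetCard i (univ : Finset (Fin K)), (Real.log (dfc (rem R 2) Q) + 4 * y) := by
    calc l * ((K - F.card).choose i : ℝ) = ∑ Q ∈ powersetCard i Fᶜ, l := by
          rw [sum_const, card_powersetCard, hcab, nsmul_eq_mul, mul_comm]
      _ ≤ ∑ Q ∈ powersetCard i Fᶜ, (Real.log (dfc (rem R 2) Q) + 4 * y) := by
          apply sum_le_sum
          intro Q hQ
          rw [mem_powersetCard] at hQ
          exact hlog2 Q hQ.2 hQ.1
      _ ≤ _ := by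
          apply sum_le_sum_of_subset_of_nonneg
          · exact powersetCard_mono (subset_univ _)
          · intro Q hQ _
            rw [mem_powersetCard] at hQ
            exact hlog1 Q hQ.2
  have hch : ((K.choose i : ℕ) : ℝ) ≤ 2 * ((K - F.card).choose i : ℝ) := by
    have hFK : F.card ≤ K := by
      calc F.card ≤ Fintype.card (Fin K) := card_le_univ F
        _ = K := Fintype.card_fin K
    have := choose_half hFK hFi
    exact_mod_cast this
  have hCpos : 0 < ((K.choose i : ℕ) : ℝ) := by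
    have : 0 < K.choose i := Nat.choose_pos hiK
    exact_mod_cast this
  have hlam' : lamE (rem R 2) i * (K.choose i : ℝ) =
      ∑ Q ∈ powersetCard i (univ : Finset (Fin K)), Real.log (dfc (rem R 2) Q) := by
    unfold lamE EQ
    rw [div_mul_cancel₀ _ hCpos.ne']
  have hcard : ∑ Q ∈ powersetCard i (univ : Finset (Fin K)), (4 * y) =
      (K.choose i : ℝ) * (4 * y) := by
    rw [sum_const, card_powersetCard, card_univ, Fintype.card_fin, nsmul_eq_mul]
  rw [sum_add_distrib, ← hlam', hcard] at hsum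
  have hl2 : l ≤ 2 * u + 8 * y := by
    have h3 : l * (K.choose i : ℝ) ≤ (2 * (lamE (rem R 2) i + 4 * y)) * (K.choose i : ℝ) := by
      calc l * (K.choose i : ℝ) ≤ l * (2 * ((K - F.card).choose i : ℝ)) :=
            mul_le_mul_of_nonneg_left hch hl0.le
        _ = 2 * (l * ((K - F.card).choose i : ℝ)) := by ring
        _ ≤ 2 * (lamE (rem R 2) i * (K.choose i : ℝ) + (K.choose i : ℝ) * (4 * y)) :=
            mul_le_mul_of_nonneg_left hsum (by norm_num)
        _ = _ := by ring
    have h4 := le_of_mul_le_mul_right h3 hCpos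
    have h5 : lamE (rem R 2) i ≤ u := hlam
    linarith
  -- conclusion
  have hl3 : l ≤ 1 / 2 := by linarith
  have hexp : Real.exp l ≤ 1 + 2 * l := by
    have h3 := Real.add_one_le_exp (-l)
    rw [Real.exp_neg] at h3
    have h4 : 0 < 1 - l := by linarith
    have h5 : Real.exp l ≤ (1 - l)⁻¹ := by
      rw [← inv_inv (Real.exp l)]
      exact inv_anti₀ h4 (by linarith)
    refine h5.trans ?_
    rw [inv_le_comm₀ h4 (by linarith), ← one_div, div_le_iff₀ (by linarith)]
    nlinarith
  have hβe : β - 2 * y = Real.exp l := by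
    rw [hl, Real.exp_log (by linarith)]
  linarith

end Pool.Agent.Lib.MP_b1acb3_co.Leaf
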