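import Pool.Agent.Lib.MP_b1acb3_co.Leaf.Stmts

/-!
(ReachL) The sets `reach` contain the classes of a labelling.
-/

namespace Pool.Agent.Lib.MP_b1acb3_co.Leaf

open Finset Uni

namespace ModReachL

variable {n K r : ℕ} {c : Sym2 (Fin n) → Fin K} {B : Fin K → Matrix (Fin n) (Fin n) ℝ}
  {g : Fin K ≃ (Fin r → ZMod 2)} {π : Fin n → Fin r → ZMod 2} {ξ δ θ : ℝ}

theorem app_gt (hE : Env c B δ) (hδ : 0 ≤ δ) (hn : 0 < n) (hK : 0 < K) (h : K * δ ≤ 1 / 64)
    (S : Finset (Fin n)) (z : Fin n) (a : Fin K)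
    (hS : 7 / 8 * ((n : ℝ) / K) ≤ ((nbr c z a ∩ S).card : ℝ)) (hθ : θ ≤ 1 / 4) :
    θ < app (Cyc.nrm B) a S z := by
  have hnR : (0 : ℝ) < n := by exact_mod_cast hn
  have hKR : (0 : ℝ) < K := by exact_mod_cast hK
  have h1 : ((nbr c z a ∩ S).card : ℝ) * ((K : ℝ) / n * (63 / 64)) ≤
      app (Cyc.nrm B) a S z := by
    unfold app
    have h2 : ∑ j ∈ nbr c z a ∩ S, Cyc.nrm B a z j ≤ ∑ j ∈ S, Cyc.nrm B a z j := by
      apply sum_le_sum_of_subset_of_nonneg inter_subset_right
      intro j _ _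
      simp only [Cyc.nrm, Matrix.smul_apply, smul_eq_mul]
      exact mul_nonneg (by positivity) (hE.exact.nonneg a z j)
    have h3 : ∑ _j ∈ nbr c z a ∩ S, (K : ℝ) / n * (63 / 64) ≤
        ∑ j ∈ nbr c z a ∩ S, Cyc.nrm B a z j := by
      apply sum_le_sum
      intro j hj
      have hj' := (mem_nbr c z j a).1 (mem_inter.1 hj).1
      have h4 := hE.lower hδ a z j
      rw [if_pos hj'.2] at h4
      simp only [Cyc.nrm, Matrix.smul_apply, smul_eq_mul]
      exact mul_le_mul_of_nonneg_left (by linarith) (by positivity)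
    rw [sum_const, nsmul_eq_mul] at h3
    exact h3.trans h2
  have h5 : 7 / 8 * ((n : ℝ) / K) * ((K : ℝ) / n * (63 / 64)) = 7 / 8 * (63 / 64) := by
    field_simp
  have h6 := mul_le_mul_of_nonneg_right hS
    (show (0 : ℝ) ≤ (K : ℝ) / n * (63 / 64) by positivity)
  rw [h5] at h6
  have h7 : θ < 7 / 8 * (63 / 64) := by linarith
  linarith

theorem card_class (hL : Label c g π ξ) (z : Fin n) (a : Fin K) (t : Fin r → ZMod 2)
    (ht : π z + g a = t) : (1 - 2 * ξ) * ((n : ℝ) / K) ≤
      ((nbr c z a ∩ univ.filter (fun w => π w = t)).card : ℝ) := by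
  have h1 := hL.deg z a
  have h2 := hL.lab z a
  have h3 : ((nbr c z a).filter (fun w => π w = t)).card +
      ((nbr c z a).filter (fun w => ¬ π w = t)).card = (nbr c z a).card :=
    card_filter_add_card_filter_not _
  have h4 : nbr c z a ∩ univ.filter (fun w => π w = t) =
      (nbr c z a).filter (fun w => π w = t) := by
    ext w
    simp
  rw [h4]
  rw [ht] at h2
  have h5 : (((nbr c z a).filter (fun w => π w = t)).card : ℝ) +
      (((nbr c z a).filter (fun w => ¬ π w = t)).card : ℝ) = ((nbr c z a).card : ℝ) := by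
    exact_mod_cast h3
  have h6 : (((nbr c z a).filter (fun w => ¬ π w = t)).card : ℝ) ≤ ξ * ((n : ℝ) / K) := h2
  linarith

theorem add_self_fun (v : Fin r → ZMod 2) : v + v = 0 := by
  ext i
  exact CharTwo.add_self_eq_zero _

theorem reach_single (c : Sym2 (Fin n) → Fin K) (P : Fin K → Matrix (Fin n) (Fin n) ℝ)
    (θ : ℝ) (x : Fin n) (a : Fin K) : reach c P θ x {a} = nbr c x a := by
  classical
  unfold reach nbr
  rw [card_singleton]
  ext y
  simp [reachN]

theorem mem_reach {P : Fin K → Matrix (Fin n) (Fin n) ℝ} {x z : Fin n} {U : Finset (Fin K)}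
    {a : Fin K} (hU : 2 ≤ U.card) (ha : a ∈ U)
    (h : θ < app P a (reach c P θ x (U.erase a)) z) : z ∈ reach c P θ x U := by
  obtain ⟨k, hk⟩ : ∃ k, U.card = k + 2 := ⟨U.card - 2, by omega⟩
  unfold reach at h ⊢
  rw [card_erase_of_mem ha, hk] at h
  rw [hk]
  exact mem_filter.2 ⟨mem_univ z, a, ha, h⟩

end ModReachL

open ModReachL in
/-- (ReachL) -/
theorem thmReachL (hC : StClass) : StReachL := by
  classical
  intro n K r c B g π ξ δ θ hE hL hn hK hξ hδ hsmall hθ x
  have hnR : (0 : ℝ) < n := by exact_mod_cast hn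
  have hK0 : 0 < K := by omega
  have hKR : (2 : ℝ) ≤ K := by exact_mod_cast hK
  have hm : 0 < (n : ℝ) / K := by positivity
  have hKn : (0 : ℝ) ≤ K / n := by positivity
  have hKδ : (0 : ℝ) ≤ K * δ := by positivity
  have hK2 : (4 : ℝ) ≤ K ^ 2 := by nlinarith
  have h64 : K * δ ≤ 1 / 64 := by nlinarith
  have hξ64 : ξ ≤ 1 / 64 := by nlinarith
  have hKξ : 2 * (K : ℝ) * ξ ≤ 1 / 16 := by nlinarith
  have key : ∀ (k : ℕ) (U : Finset (Fin K)), U.card = k + 2 → ∀ z, π z = π x + ∑ a ∈ U, g a →
      z ∈ reach c (Cyc.nrm B) θ x U := by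
    intro k
    induction k with
    | zero =>
      intro U hU z hz
      obtain ⟨a, b, hab, rfl⟩ := card_eq_two.1 hU
      rw [sum_pair hab] at hz
      refine mem_reach (by omega) (mem_insert_self a {b}) ?_
      rw [erase_insert (by simpa using hab), reach_single]
      have h2 : π z + g a = π x + g b := by
        rw [hz]
        calc π x + (g a + g b) + g a = π x + g b + (g a + g a) := by abel
          _ = π x + g b := by rw [add_self_fun, add_zero]
      have h3 := card_class hL z a (π x + g b) h2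
      have h4 := card_class hL x b (π x + g b) rfl
      have h5 := (hC n K r c g π ξ hL hn hK0 hξ (π x + g b)).1
      set Cl := univ.filter (fun w => π w = π x + g b) with hCl
      have h6 : ((nbr c z a ∩ Cl) ∪ (nbr c x b ∩ Cl)).card ≤ Cl.card :=
        card_le_card (union_subset inter_subset_right inter_subset_right)
      have h7 := card_union_add_card_inter (nbr c z a ∩ Cl) (nbr c x b ∩ Cl)
      have h8 : ((nbr c z a ∩ Cl) ∩ (nbr c x b ∩ Cl)).card ≤ (nbr c z a ∩ nbr c x b).card := by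
        apply card_le_card
        intro w hw
        rw [mem_inter, mem_inter, mem_inter] at hw
        exact mem_inter.2 ⟨hw.1.1, hw.2.1⟩
      have h9 : (nbr c z a ∩ Cl).card + (nbr c x b ∩ Cl).card ≤
          Cl.card + (nbr c z a ∩ nbr c x b).card := by omega
      have h10 : ((nbr c z a ∩ Cl).card : ℝ) + ((nbr c x b ∩ Cl).card : ℝ) ≤
          (Cl.card : ℝ) + ((nbr c z a ∩ nbr c x b).card : ℝ) := by exact_mod_cast h9
      have h11 : 7 / 8 * ((n : ℝ) / K) ≤ ((nbr c z a ∩ nbr c x b).card : ℝ) := by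
        nlinarith
      exact app_gt hE hδ hn hK0 h64 _ z a h11 hθ
    | succ k ih =>
      intro U hU z hz
      obtain ⟨a, ha⟩ : U.Nonempty := card_pos.1 (by omega)
      have hcard : (U.erase a).card = k + 2 := by
        rw [card_erase_of_mem ha]
        omega
      have h1 := ih (U.erase a) hcard
      have hsum : ∑ b ∈ U, g b = g a + ∑ b ∈ U.erase a, g b := (add_sum_erase U _ ha).symm
      have h2 : π z + g a = π x + ∑ b ∈ U.erase a, g b := by
        rw [hz, hsum]
        calc π x + (g a + ∑ b ∈ U.erase a, g b) + g a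
            = π x + ∑ b ∈ U.erase a, g b + (g a + g a) := by abel
          _ = _ := by rw [add_self_fun, add_zero]
      have h3 := card_class hL z a _ h2
      refine mem_reach (by omega) ha (app_gt hE hδ hn hK0 h64 _ z a ?_ hθ)
      have h5 : ((nbr c z a ∩ univ.filter
          (fun w => π w = π x + ∑ b ∈ U.erase a, g b)).card : ℝ) ≤
          ((nbr c z a ∩ reach c (Cyc.nrm B) θ x (U.erase a)).card : ℝ) := by
        norm_cast
        apply card_le_card
        intro w hw
        rw [mem_inter, mem_filter] at hw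
        exact mem_inter.2 ⟨hw.1, h1 w hw.2.2⟩
      nlinarith
  intro U hU z hz
  exact key (U.card - 2) U (by omega) z hz

end Pool.Agent.Lib.MP_b1acb3_co.Leaf
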