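import Pool.Agent.Lib.MP_b1acb3_co.Leaf.TN
import Pool.Agent.Lib.MP_b1acb3_co.Uni.Rec
import Pool.Agent.Lib.MP_b1acb3_co.Uni.Main

/-!
Module (RecN): the recurrence for the potential.
-/

namespace Pool.Agent.Lib.MP_b1acb3_co.Leaf

open Finset Uni

open ModRec ModM in
theorem thmRecN (hM : StMN) : StRecN := by
  intro n K P R θ N A hS hK hθ hlow hA i hi hiN hiK hKA
  have hP := hS.markov
  have hθ0 := hS.nonneg
  have hK0 : (0 : ℝ) < K := by exact_mod_cast hP.kpos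
  have hK1 : (1 : ℝ) ≤ K := by exact_mod_cast hP.kpos
  have hη0 : (0 : ℝ) ≤ (K : ℝ) ^ 2 * θ := by positivity
  have hgr : Grows P (rem R 2) ((K : ℝ) ^ 2 * θ) := grows_rem hP R θ hθ0 hS.grow 2
  obtain ⟨hs1, hs2, hs3⟩ := small hK hθ0 hθ
  have hlog : 0 ≤ Real.log K := Real.log_nonneg hK1
  -- the pointwise comparison
  have hpt : ∀ Q : Finset (Fin K), Q.card = i →
      Real.log (dfc (rem R 2) Q) ≤ (Real.log K + 1) * (1 - 1 / dfc (rem R 2) Q) +
        5 * (Real.log K + 1) * ((K : ℝ) ^ 3 * θ) := by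
    intro Q hQ
    have hD1 := (low_half hK hθ0 hθ hlow Q (by omega)).1
    exact log_le hK1 hs1 (by linarith) (by linarith) (dfc_le _ Q)
  have hEQ := ModL.EQ_mono (K := K) (i := i) hpt
  rw [EQ_add, ModL.EQ_mul, ModL.EQ_const (by omega)] at hEQ
  have hlam : EQ K i (fun Q => Real.log (dfc (rem R 2) Q)) = lamE (rem R 2) i := rfl
  rw [hlam] at hEQ
  have m := hM n K P R θ N A hS hK hθ hlow hA i hi (by omega) (by omega) hKA
  have l1 := all_L n K P (rem R 2) ((K : ℝ) ^ 2 * θ) i hP hη0 hgr (by omega)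
    (fun Q hQ => (low_half hK hθ0 hθ hlow Q (by omega)).2)
  have l2 := all_L n K P (rem R 2) ((K : ℝ) ^ 2 * θ) (i + 1) hP hη0 hgr (by omega)
    (fun Q hQ => (low_half hK hθ0 hθ hlow Q (by omega)).2)
  have c1 : 2 * (K : ℝ) * ((K : ℝ) ^ 2 * θ) = 2 * ((K : ℝ) ^ 3 * θ) := by ring
  rw [c1] at l1 l2
  obtain ⟨l11, l12, -, -⟩ := l1
  obtain ⟨l21, l22, -, -⟩ := l2
  have c2 : 40 * A * (K : ℝ) ^ 4 * θ = 40 * (A * ((K : ℝ) ^ 4 * θ)) := by ring
  rw [c2] at m
  set X := EQ K i (fun Q => 1 - 1 / dfc (rem R 2) Q) with hX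
  set T := (K : ℝ) ^ 3 * θ with hT
  set T4 := (K : ℝ) ^ 4 * θ with hT4
  set s1 := sE (rem R 2) i / (K : ℝ) with hs1d
  set s2 := sE (rem R 2) (i + 1) / (K : ℝ) with hs2d
  set a0 := lamE (rem R 2) i with ha0
  set a1 := lamE (rem R 2) (i + 1) with ha1
  have e : lamE (rem R 2) (i + 1 + 1) = lamE (rem R 2) (i + 2) := rfl
  rw [e] at l21 l22
  set a2 := lamE (rem R 2) (i + 2) with ha2
  have hA0 : 0 ≤ A := by linarith
  have hXb : X ≤ 3 * A * (a0 - a2) + 12 * (A * T) + 40 * (A * T4) := by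
    have e1 : 3 * A * s2 ≤ 3 * A * (a1 - a2 + 2 * T) :=
      mul_le_mul_of_nonneg_left l22 (by linarith)
    have e2 : (3 * A - 6) * 0 ≤ (3 * A - 6) * (a0 - a1 + 2 * T) :=
      mul_le_mul_of_nonneg_left (by linarith) (by linarith)
    have e3 : 0 ≤ A * T := mul_nonneg hA0 hs1
    nlinarith
  have hAT : 12 * (A * T) ≤ A * T4 := by
    have := mul_le_mul_of_nonneg_left hs2 hA0
    linarith
  have hAT0 : 0 ≤ A * T4 := mul_nonneg hA0 (by linarith)
  have hTA : T ≤ A * T4 := by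
    have : T4 ≤ A * T4 := by nlinarith
    linarith
  have hmul : (Real.log K + 1) * X ≤ (Real.log K + 1) *
      (3 * A * (a0 - a2) + 41 * (A * T4)) :=
    mul_le_mul_of_nonneg_left (by linarith) (by linarith)
  have hfin : 5 * (Real.log K + 1) * T ≤ (Real.log K + 1) * (5 * (A * T4)) := by
    have := mul_le_mul_of_nonneg_left hTA (by linarith : (0 : ℝ) ≤ Real.log K + 1)
    linarith
  have hfin2 : 0 ≤ (Real.log K + 1) * (A * T4) := mul_nonneg (by linarith) hAT0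
  have c3 : 60 * A * (Real.log K + 1) * (K : ℝ) ^ 4 * θ =
      60 * ((Real.log K + 1) * (A * T4)) := by
    rw [hT4]
    ring
  rw [c3]
  have c4 : 3 * A * (Real.log K + 1) * (a0 - a2) =
      (Real.log K + 1) * (3 * A * (a0 - a2)) := by ring
  rw [c4]
  have c5 : (Real.log K + 1) * (3 * A * (a0 - a2) + 41 * (A * T4)) =
      (Real.log K + 1) * (3 * A * (a0 - a2)) + 41 * ((Real.log K + 1) * (A * T4)) := by ring
  have c6 : (Real.log K + 1) * (5 * (A * T4)) = 5 * ((Real.log K + 1) * (A * T4)) := by ring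
  linarith

end Pool.Agent.Lib.MP_b1acb3_co.Leaf
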