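import Pool.Agent.Lib.MP_b1acb3_co.Leaf.Basic

/-!
Statements of the modules of the classification of graphs with a leaf and small cyclomatic number.
-/

namespace Pool.Agent.Lib.MP_b1acb3_co.Leaf

open Finset Uni

/-! ### Embeddings -/

/-- (SysE) The sets `reach` form a system (without condition `excl`). -/
def StSysE : Prop := ∀ (K : ℕ) (θ : ℝ), 0 < K → 0 < θ → ∃ δ : ℝ, 0 < δ ∧ ∃ n₀ : ℕ,
  ∀ n : ℕ, n₀ ≤ n → ∀ (c : Sym2 (Fin n) → Fin K) (B : Fin K → Matrix (Fin n) (Fin n) ℝ),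
  Env c B δ → ∀ x, Sys (Cyc.nrm B) (reach c (Cyc.nrm B) θ x) θ (K + 1)

/-- (StruE) The hypotheses `Struct` from small sets `reach {a, b}`. -/
def StStruE : Prop := ∀ (K : ℕ) (θ ζ : ℝ), 2 ≤ K → 0 < θ → 2 * K * θ ≤ ζ → ∃ δ : ℝ, 0 < δ ∧
  ∃ n₀ : ℕ, ∀ n : ℕ, n₀ ≤ n → ∀ (c : Sym2 (Fin n) → Fin K)
  (B : Fin K → Matrix (Fin n) (Fin n) ℝ), Env c B δ →
  (∀ x a b, a ≠ b → K * mu (reach c (Cyc.nrm B) θ x {a, b}) ≤ 1 + ζ) → Struct c ζ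

/-- (CoreX) Rainbow embedding of a small part with one prescribed image and few forbidden
colours. -/
def StCoreX : Prop := ∀ (V : Type) [Fintype V] (G : SimpleGraph V) (W : Finset V) (K N : ℕ),
  0 < K → 16 * numEdgesIn G W ^ 2 ≤ K → 16 * numEdgesIn G W * N ≤ K → ∃ n₀ : ℕ,
  ∀ n : ℕ, n₀ ≤ n → ∀ c : Sym2 (Fin n) → Fin K,
  (∀ i k, (colourDegree c i k : ℝ) ≤ 2 * ((n : ℝ) / K)) →
  ∀ (w : V) (x : Fin n) (Q : Finset (Fin K)), Q.card ≤ N → ∃ f : V → Fin n,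
    Function.Injective f ∧ f w = x ∧
    Set.InjOn (fun e : Sym2 V => c (e.map f)) (edgesIn G W : Set (Sym2 V)) ∧
    ∀ e ∈ edgesIn G W, c (e.map f) ∉ Q

/-- (Split) One of the ears is taken as the last one. -/
def StSplit : Prop := ∀ (V : Type) [Fintype V] (G : SimpleGraph V) (W W₁ : Finset V) (q k : ℕ)
  (m : Fin (q + 1) → ℕ) (P : Fin (q + 1) → ℕ → V) (i : Fin (q + 1)), 1 ≤ k →
  Cyc.Ears G W W₁ (q + 1) k m P → ∃ W₂ : Finset V,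
    Cyc.Ears G W₂ W₁ q k (fun j => m (i.succAbove j)) (fun j => P (i.succAbove j)) ∧
    Cyc.Ears G W W₂ 1 k (fun _ => m i) (fun _ => P i)

/-- (Ears2) Embedding of the ears with forbidden colours. -/
def StEars2 : Prop := ∀ (V : Type) [Fintype V] (G : SimpleGraph V) (W₂ W₁ : Finset V)
  (q k d K : ℕ) (m : Fin q → ℕ) (P : Fin q → ℕ → V), 0 < K → Cyc.Ears G W₂ W₁ q k m P →
  16 * K ^ 2 ≤ k.choose d → ∃ δ : ℝ, 0 < δ ∧ ∃ n₀ : ℕ, ∀ n : ℕ, n₀ ≤ n →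
  ∀ (c : Sym2 (Fin n) → Fin K) (B : Fin K → Matrix (Fin n) (Fin n) ℝ), Env c B δ →
  ∀ f₀ : V → Fin n, Function.Injective f₀ →
  Set.InjOn (fun e : Sym2 V => c (e.map f₀)) (edgesIn G W₁ : Set (Sym2 V)) →
  ∀ F : Finset (Fin K), (∀ e ∈ edgesIn G W₁, c (e.map f₀) ∈ F) →
  2 * k * (F.card + q * k) ≤ K → F.card + ∑ i, (m i + 1) + q * d ≤ K →
  ∃ (f : V → Fin n) (w : Fin q → List (Fin K)), Function.Injective f ∧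
    (∀ v ∈ W₁, f v = f₀ v) ∧
    Set.InjOn (fun e : Sym2 V => c (e.map f)) (edgesIn G W₂ : Set (Sym2 V)) ∧
    (∀ e ∈ edgesIn G W₂, e ∉ edgesIn G W₁ → c (e.map f) ∉ F) ∧
    (∀ i, (w i).length = m i + 1) ∧
    (∀ i, 1 / 2 ≤ (n : ℝ) * Cyc.wker B (w i) (f (P i 0)) (f (P i (m i + 1)))) ∧
    ∀ (i : Fin q) (j : ℕ) (hj : j < (w i).length), c s(f (P i j), f (P i (j + 1))) = (w i)[j]

/-- (Last) The last ear. -/
def StLast : Prop := ∀ (V : Type) [Fintype V] (G : SimpleGraph V) (W W₂ : Finset V) (k m : ℕ)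
  (P : ℕ → V) (θ : ℝ), 0 < θ → 1 ≤ k → TreeLikeOutside G W →
  Cyc.Ears G W W₂ 1 k (fun _ => m) (fun _ => P) → ∃ δ : ℝ, 0 < δ ∧ ∃ n₀ : ℕ, ∀ n : ℕ, n₀ ≤ n →
  ∀ (c : Sym2 (Fin n) → Fin (numEdges G + 1))
    (B : Fin (numEdges G + 1) → Matrix (Fin n) (Fin n) ℝ), Env c B δ →
  ∀ f : V → Fin n, Function.Injective f →
  Set.InjOn (fun e : Sym2 V => c (e.map f)) (edgesIn G W₂ : Set (Sym2 V)) →
  ∀ U U' : Finset (Fin (numEdges G + 1)), U.Nonempty → U'.Nonempty → Disjoint U U' →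
  U.card + U'.card = m + 1 → (∀ e ∈ edgesIn G W₂, c (e.map f) ∉ U ∧ c (e.map f) ∉ U') →
  θ < mu (reach c (Cyc.nrm B) θ (f (P 0)) U ∩ reach c (Cyc.nrm B) θ (f (P (m + 1))) U') →
  HasRainbowCopy G c

/-- (Tight) No rainbow copy. -/
def StTight : Prop := ∀ (V : Type) [Fintype V] (G : SimpleGraph V) (W W₁ : Finset V)
  (q k d d' N : ℕ) (m : Fin (q + 1) → ℕ) (P : Fin (q + 1) → ℕ → V) (i : Fin (q + 1)) (θ : ℝ),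
  0 < θ → TreeLikeOutside G W → Cyc.Ears G W W₁ (q + 1) k m P →
  16 * (numEdges G + 1) ^ 2 ≤ k.choose d' → numEdgesIn G W + d = numEdges G + 1 →
  16 * numEdgesIn G W₁ ^ 2 ≤ numEdges G + 1 → 16 * numEdgesIn G W₁ * N ≤ numEdges G + 1 →
  2 * k * (numEdgesIn G W₁ + N + q * k) ≤ numEdges G + 1 → N + q * d' ≤ m i + 1 + d →
  ∃ δ : ℝ, 0 < δ ∧ ∃ n₀ : ℕ, ∀ n : ℕ, n₀ ≤ n →
  ∀ (c : Sym2 (Fin n) → Fin (numEdges G + 1))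
    (B : Fin (numEdges G + 1) → Matrix (Fin n) (Fin n) ℝ), Env c B δ → ¬ HasRainbowCopy G c →
  Tight (fun x => reach c (Cyc.nrm B) θ x) θ (m i + 1) d (numEdgesIn G W₁) N

/-! ### The analytic part -/

/-- (LowN) Lower bounds for the defects. -/
def StLowN : Prop := ∀ (n K : ℕ) (P : Fin K → Matrix (Fin n) (Fin n) ℝ)
  (R : Fin n → Finset (Fin K) → Finset (Fin n)) (θ : ℝ) (l d h N j : ℕ),
  (∀ x, Sys P (R x) θ (K + 1)) → Tight R θ l d h N → N < l → 1 ≤ j → j ≤ d →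
  ∀ x, Low (R x) θ j N

/-- (PairLow) A pair of colours seen from another vertex (`d = 2`). -/
def StPairLow : Prop := ∀ (n K : ℕ) (P : Fin K → Matrix (Fin n) (Fin n) ℝ)
  (R : Fin n → Finset (Fin K) → Finset (Fin n)) (θ : ℝ) (l h N : ℕ),
  (∀ x, Sys P (R x) θ (K + 1)) → Tight R θ l 2 h (N + 2) → N < l →
  ∀ (x : Fin n) (a b : Fin K), a ≠ b → ∃ (y : Fin n) (F : Finset (Fin K)), F.card ≤ h + 2 ∧
    ∀ Q : Finset (Fin K), Q.card ≤ N → Disjoint F Q →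
      K * mu (R x {a, b}) ≤ dfc (rem (R y) 2) Q + 2 * (K : ℝ) ^ 3 * θ

/-- (TN) The bad event is rare. -/
def StTN : Prop := ∀ (n K : ℕ) (P : Fin K → Matrix (Fin n) (Fin n) ℝ)
  (R : Finset (Fin K) → Finset (Fin n)) (θ : ℝ) (N : ℕ), Sys P R θ (K + 1) → 12 ≤ K →
  100 * K ^ 6 * θ ≤ 1 → Low R θ 2 N → ∀ i : ℕ, 2 ≤ i → i ≤ N → 4 * i ≤ K →
  EQ K i (bad R θ) ≤ (2 / K) * sE (rem R 2) i + 10 * K ^ 3 * θ

/-- (MN) Main inequality. -/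
def StMN : Prop := ∀ (n K : ℕ) (P : Fin K → Matrix (Fin n) (Fin n) ℝ)
  (R : Finset (Fin K) → Finset (Fin n)) (θ : ℝ) (N : ℕ) (A : ℝ), Sys P R θ (K + 1) → 12 ≤ K →
  100 * K ^ 6 * θ ≤ 1 → Low R θ 2 N → 2 ≤ A → ∀ i : ℕ, 2 ≤ i → i + 1 ≤ N → 4 * (i + 1) ≤ K →
  K ≤ A * (i + 1) → EQ K i (fun Q => 1 - 1 / dfc (rem R 2) Q) ≤
    6 * (sE (rem R 2) i / K) + 3 * A * (sE (rem R 2) (i + 1) / K) + 40 * A * K ^ 4 * θ

/-- (RecN) Recurrence for the potential. -/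
def StRecN : Prop := ∀ (n K : ℕ) (P : Fin K → Matrix (Fin n) (Fin n) ℝ)
  (R : Finset (Fin K) → Finset (Fin n)) (θ : ℝ) (N : ℕ) (A : ℝ), Sys P R θ (K + 1) → 12 ≤ K →
  100 * K ^ 6 * θ ≤ 1 → Low R θ 2 N → 2 ≤ A → ∀ i : ℕ, 2 ≤ i → i + 2 ≤ N → 4 * (i + 2) ≤ K →
  K ≤ A * (i + 1) →
  lamE (rem R 2) i ≤ 3 * A * (Real.log K + 1) * (lamE (rem R 2) i - lamE (rem R 2) (i + 2)) +
    60 * A * (Real.log K + 1) * K ^ 4 * θ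

/-- (SeqN) Numerical consequence of the recurrence. -/
def StSeqN : Prop := ∃ K₀ : ℕ, ∀ K N : ℕ, K₀ ≤ K → 4 * N ≤ K →
  1000 * (K : ℝ) * (Real.log K + 1) ^ 2 ≤ (N : ℝ) ^ 2 → ∀ (lam : ℕ → ℝ) (θ : ℝ), 0 ≤ θ →
  θ * K ^ 20 ≤ 1 → (∀ i : ℕ, 2 ≤ i → i ≤ N → lam i ≤ Real.log K) →
  (∀ i : ℕ, 2 ≤ i → i + 2 ≤ N → N ≤ 2 * (i + 1) →
    lam i ≤ 3 * (2 * K / N) * (Real.log K + 1) * (lam i - lam (i + 2)) +
      60 * (2 * K / N) * (Real.log K + 1) * K ^ 4 * θ) →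
  ∃ i : ℕ, 2 ≤ i ∧ i ≤ N ∧ lam i ≤ 1 / K ^ 8

/-- (PairN) From the potential to a number `β` that is a lower bound for the defects of the sets
disjoint from `F`. -/
def StPairN : Prop := ∃ K₀ : ℕ, ∀ K : ℕ, K₀ ≤ K → ∀ (n : ℕ)
  (R : Finset (Fin K) → Finset (Fin n)) (θ β : ℝ) (N i : ℕ) (F : Finset (Fin K)),
  0 ≤ θ → θ * K ^ 20 ≤ 1 → Low R θ 2 N → i ≤ N → i ≤ K → 2 * F.card * i ≤ K →
  lamE (rem R 2) i ≤ 1 / K ^ 8 →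
  (∀ Q : Finset (Fin K), Q.card = i → Disjoint F Q →
    β ≤ dfc (rem R 2) Q + 2 * (K : ℝ) ^ 3 * θ) → β ≤ 1 + 1 / K ^ 5

/-- (TwoN) Conclusion of the analytic part for `d = 2`. -/
def StTwoN : Prop := ∃ K₀ : ℕ, ∀ K : ℕ, K₀ ≤ K → ∀ (n : ℕ)
  (P : Fin K → Matrix (Fin n) (Fin n) ℝ) (R : Fin n → Finset (Fin K) → Finset (Fin n)) (θ : ℝ)
  (l h N : ℕ), (∀ x, Sys P (R x) θ (K + 1)) → θ * K ^ 20 ≤ 1 → 4 * N ≤ K →
  1000 * (K : ℝ) * (Real.log K + 1) ^ 2 ≤ (N : ℝ) ^ 2 → 2 * (h + 2) * N ≤ K → N + 2 < l →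
  Tight R θ l 2 h (N + 2) → ∀ (x : Fin n) (a b : Fin K), a ≠ b →
  K * mu (R x {a, b}) ≤ 1 + 1 / K ^ 5

/-- (ThreeN) Conclusion of the analytic part for `d ≥ 3`. -/
def StThreeN : Prop := ∃ K₀ : ℕ, ∀ K : ℕ, K₀ ≤ K → ∀ (n : ℕ)
  (P : Fin K → Matrix (Fin n) (Fin n) ℝ) (R : Finset (Fin K) → Finset (Fin n)) (θ : ℝ) (N : ℕ),
  Sys P R θ (K + 1) → θ * K ^ 20 ≤ 1 → 4 * N ≤ K →
  1000 * (K : ℝ) * (Real.log K + 1) ^ 2 ≤ (N : ℝ) ^ 2 → ¬ Low R θ 3 N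

/-! ### The structure of the colouring -/

/-- (S6) Commuting involutions generating a transitive group: coordinates. -/
def StS6 : Prop := ∀ (K : ℕ) (σ : Fin K → Fin K → Fin K), 0 < K →
  (∀ b a, σ b (σ b a) = a) → (∀ b b' a, σ b (σ b' a) = σ b' (σ b a)) →
  (∀ a a', ∃ b, σ b a = a') →
  ∃ (r : ℕ) (g E : Fin K ≃ (Fin r → ZMod 2)), ∀ b a, E (σ b a) = E a + g b

/-- (Label) Labels of the vertices. -/
def StLabel : Prop := ∀ (n K : ℕ) (c : Sym2 (Fin n) → Fin K) (ζ : ℝ), 2 ≤ K → 0 ≤ ζ →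
  100000 * K ^ 2 * ζ ≤ 1 → K ≤ ζ * n → Struct c ζ →
  ∃ (r : ℕ) (g : Fin K ≃ (Fin r → ZMod 2)) (π : Fin n → Fin r → ZMod 2),
    Label c g π (10000 * K ^ 2 * ζ)

/-- (Ker) The label of the end of a word. -/
def StKer : Prop := ∀ (n K r : ℕ) (c : Sym2 (Fin n) → Fin K)
  (B : Fin K → Matrix (Fin n) (Fin n) ℝ) (g : Fin K ≃ (Fin r → ZMod 2))
  (π : Fin n → Fin r → ZMod 2) (ξ δ : ℝ), Env c B δ → Label c g π ξ → 0 < n → 2 ≤ K →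
  0 ≤ ξ → 0 ≤ δ → 16 * K ^ 2 * (ξ + K / n + K * δ) ≤ 1 →
  ∀ (w : List (Fin K)) (x y : Fin n), 2 ≤ w.length → w.length ≤ K →
  1 / 2 ≤ (n : ℝ) * Cyc.wker B w x y → π y = π x + (w.map g).sum

/-- (Class) The sizes of the classes. -/
def StClass : Prop := ∀ (n K r : ℕ) (c : Sym2 (Fin n) → Fin K) (g : Fin K ≃ (Fin r → ZMod 2))
  (π : Fin n → Fin r → ZMod 2) (ξ : ℝ), Label c g π ξ → 0 < n → 0 < K → 0 ≤ ξ →
  ∀ t : Fin r → ZMod 2,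
    ((univ.filter (fun z => π z = t)).card : ℝ) ≤ (1 + 2 * K * ξ) * ((n : ℝ) / K) ∧
    (1 - 2 * ξ) * ((n : ℝ) / K) ≤ ((univ.filter (fun z => π z = t)).card : ℝ)

/-- (ReachL) The sets `reach` contain the classes. -/
def StReachL : Prop := ∀ (n K r : ℕ) (c : Sym2 (Fin n) → Fin K)
  (B : Fin K → Matrix (Fin n) (Fin n) ℝ) (g : Fin K ≃ (Fin r → ZMod 2))
  (π : Fin n → Fin r → ZMod 2) (ξ δ θ : ℝ), Env c B δ → Label c g π ξ → 0 < n → 2 ≤ K →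
  0 ≤ ξ → 0 ≤ δ → 16 * K ^ 2 * (ξ + K / n + K * δ) ≤ 1 → θ ≤ 1 / 4 →
  ∀ (x : Fin n) (U : Finset (Fin K)), 2 ≤ U.card → ∀ z, π z = π x + ∑ a ∈ U, g a →
    z ∈ reach c (Cyc.nrm B) θ x U

/-- (CoreY) Rainbow embedding of a small part with typical edges and with nonzero sum over a
nonempty set `O`. -/
def StCoreY : Prop := ∀ (V : Type) [Fintype V] (G : SimpleGraph V) (W O : Finset V) (K : ℕ),
  O.Nonempty → 16 ≤ K → 16 * numEdgesIn G W ^ 2 ≤ K → ∃ n₀ : ℕ, ∀ n : ℕ, n₀ ≤ n →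
  ∀ (c : Sym2 (Fin n) → Fin K) (r : ℕ) (g : Fin K ≃ (Fin r → ZMod 2))
    (π : Fin n → Fin r → ZMod 2) (ξ : ℝ), 0 ≤ ξ → Label c g π ξ → 4 * K * ξ ≤ 1 →
  16 * numEdgesIn G W * ξ ≤ 1 → ∃ f : V → Fin n, Function.Injective f ∧
    Set.InjOn (fun e : Sym2 V => c (e.map f)) (edgesIn G W : Set (Sym2 V)) ∧
    (∀ u v, s(u, v) ∈ edgesIn G W → π (f u) + π (f v) = g (c s(f u, f v))) ∧
    ∑ v ∈ O, π (f v) ≠ 0

/-- (HandV) Vector form of the handshake lemma for a union of ears. -/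
def StHandV : Prop := ∀ (V : Type) [Fintype V] (G : SimpleGraph V) (W W₁ : Finset V) (q k : ℕ)
  (m : Fin q → ℕ) (P : Fin q → ℕ → V) (r : ℕ) (φ : V → Fin r → ZMod 2), 1 ≤ k →
  Cyc.Ears G W W₁ q k m P →
  ∑ e ∈ edgesIn G W₁, esum φ e + ∑ i, (φ (P i 0) + φ (P i (m i + 1))) =
    ∑ v ∈ oddIn G W W₁, φ v

/-- (Even) Rainbow copies in labelled colourings (`d = 2`, the core is not even). -/
def StEven : Prop := ∀ (V : Type) [Fintype V] (G : SimpleGraph V) (W W₁ : Finset V)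
  (q k d' : ℕ) (m : Fin (q + 1) → ℕ) (P : Fin (q + 1) → ℕ → V) (i : Fin (q + 1)),
  TreeLikeOutside G W → Cyc.Ears G W W₁ (q + 1) k m P →
  16 * (numEdges G + 1) ^ 2 ≤ k.choose d' → numEdgesIn G W + 2 = numEdges G + 1 →
  (oddIn G W W₁).Nonempty → 16 ≤ numEdges G + 1 →
  16 * numEdgesIn G W₁ ^ 2 ≤ numEdges G + 1 →
  2 * k * (numEdgesIn G W₁ + 2 + q * k) ≤ numEdges G + 1 → q * d' ≤ m i + 1 → 3 ≤ m i →
  ∃ δ : ℝ, 0 < δ ∧ ∃ n₀ : ℕ, ∀ n : ℕ, n₀ ≤ n →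
  ∀ (c : Sym2 (Fin n) → Fin (numEdges G + 1))
    (B : Fin (numEdges G + 1) → Matrix (Fin n) (Fin n) ℝ), Env c B δ →
  ∀ (r : ℕ) (g : Fin (numEdges G + 1) ≃ (Fin r → ZMod 2)) (π : Fin n → Fin r → ZMod 2)
    (ξ : ℝ), 0 ≤ ξ → Label c g π ξ → 32 * ((numEdges G + 1 : ℕ) : ℝ) ^ 2 * ξ ≤ 1 →
  HasRainbowCopy G c

/-! ### Graph theory, numbers and assembly -/

/-- (OddNe) If no deletion of an edge makes all degrees even then a core with all edges but one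
has a vertex of odd degree. -/
def StOddNe : Prop := ∀ (V : Type) [Fintype V] (G : SimpleGraph V) (W W₁ : Finset V) (q k : ℕ)
  (m : Fin q → ℕ) (P : Fin q → ℕ → V), 1 ≤ k → Cyc.Ears G W W₁ q k m P →
  numEdgesIn G W + 1 = numEdges G →
  (¬ ∃ e₀ ∈ G.edgeSet, ∀ v, Even {u | G.Adj v u ∧ s(v, u) ≠ e₀}.ncard) →
  (oddIn G W W₁).Nonempty

/-- (Num) Numerical choices. -/
def StNum : Prop := ∀ K₀ : ℕ, ∃ C : ℕ, ∀ b e : ℕ, 1 ≤ b →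
  C * b ^ 2 * (Nat.log 2 e + 1) ^ 4 ≤ e → ∃ k d' N : ℕ, K₀ ≤ e ∧
    16 * (e + 1) ^ 2 ≤ k.choose d' ∧ 256 * b ^ 2 * (k + 1) ^ 2 ≤ e ∧
    64 * b * (k + 1) * (N + 2) ≤ e ∧ 2 * k * (8 * b * (k + 1) + N + 2) ≤ e ∧
    16 * b * (N + 2 + 4 * b * d' + k + 1) ≤ e ∧
    1000 * ((e + 1 : ℕ) : ℝ) * (Real.log ((e + 1 : ℕ) : ℝ) + 1) ^ 2 ≤ (N : ℝ) ^ 2

/-- (Final) The classification. -/
def StFinal : Prop := ∃ C : ℕ, ∀ (V : Type) [Fintype V] (G : SimpleGraph V) (b : ℕ), 1 ≤ b →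
  (∃ S : Finset (Sym2 V), S.card ≤ b ∧ (G.deleteEdges (S : Set (Sym2 V))).IsAcyclic) →
  (∃ v, {u | G.Adj v u}.ncard = 1) → C * b ^ 2 * (Nat.log 2 (numEdges G) + 1) ^ 4 ≤ numEdges G →
  (ForcesRainbow G ↔ ¬ ((∃ r : ℕ, numEdges G + 1 = 2 ^ r) ∧
    ∃ e₀ ∈ G.edgeSet, ∀ v, Even {u | G.Adj v u ∧ s(v, u) ≠ e₀}.ncard))

end Pool.Agent.Lib.MP_b1acb3_co.Leaf
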