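import Mathlib
import Pool.Agent.Lib.MP_b1acb3_co.Leaf.Stmts

/-!
# Module S6 (helper60, project Leaf of helper44)

Commuting involutions generating a transitive group: coordinates.
-/

set_option autoImplicit false

namespace Pool.Agent.Lib.MP_b1acb3_co.Leaf

open Finset Uni

namespace ModS6

/-- a finite elementary abelian group of exponent two has coordinates -/
theorem exists_coord (A : Type) [Finite A] (add : A → A → A) (z : A)
    (hassoc : ∀ a b c, add (add a b) c = add a (add b c)) (hcomm : ∀ a b, add a b = add b a)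
    (hz : ∀ a, add z a = a) (hself : ∀ a, add a a = z) :
    ∃ (r : ℕ) (E : A ≃ (Fin r → ZMod 2)), ∀ a b, E (add a b) = E a + E b := by
  let _ : Add A := ⟨add⟩
  let _ : Zero A := ⟨z⟩
  let _ : Neg A := ⟨id⟩
  let gA : AddGroup A := AddGroup.ofLeftAxioms hassoc hz hself
  let _ : AddCommGroup A := { gA with add_comm := hcomm }
  let _ : Module (ZMod 2) A := AddCommGroup.zmodModule (n := 2) fun x => by
    rw [two_nsmul]
    exact hself x
  have : Module.Finite (ZMod 2) A := inferInstance
  exact ⟨_, (Module.finBasis (ZMod 2) A).equivFun.toEquiv,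
    fun a b => map_add (Module.finBasis (ZMod 2) A).equivFun a b⟩

end ModS6

theorem thmS6 : StS6 := by
  intro K σ hK hinv hcom htr
  let a0 : Fin K := ⟨0, hK⟩
  have hsurj : Function.Surjective fun b => σ b a0 := fun a => htr a0 a
  have hbij : Function.Bijective fun b => σ b a0 := Finite.surjective_iff_bijective.mp hsurj
  let e : Fin K ≃ Fin K := Equiv.ofBijective _ hbij
  have he : ∀ b, e b = σ b a0 := fun b => rfl
  have hs : ∀ a, σ (e.symm a) a0 = a := fun a => by rw [← he, e.apply_symm_apply]
  have hcomm : ∀ a a', σ (e.symm a) a' = σ (e.symm a') a := by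
    intro a a'
    conv_lhs => rw [← hs a']
    rw [hcom, hs]
  obtain ⟨r, E, hE⟩ := ModS6.exists_coord (Fin K) (fun a a' => σ (e.symm a) a') a0
    (by
      intro a a' a''
      rw [hcomm (σ (e.symm a) a') a'', hcom, hcomm a'' a'])
    hcomm
    (by
      intro a
      rw [hcomm, hs])
    (by
      intro a
      have h := hinv (e.symm a) a0
      rwa [hs] at h)
  refine ⟨r, e.trans E, E, fun b a => ?_⟩
  have h1 := hE (σ b a0) a
  have h2 : e.symm (σ b a0) = b := by rw [← he, e.symm_apply_apply]
  rw [h2] at h1
  rw [h1, Equiv.trans_apply, he, add_comm]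

end Pool.Agent.Lib.MP_b1acb3_co.Leaf
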