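import Pool.Agent.Lib.MP_b1acb3_co.Leaf.Stmts

/-!
(SeqN): numerical consequence of the recurrence.
-/

namespace Pool.Agent.Lib.MP_b1acb3_co.Leaf

open Finset Uni

namespace ModSeqN

/-- Iteration of the recurrence. -/
theorem iterate {lam : ℕ → ℝ} {a b M : ℝ} {i₀ N : ℕ} (ha : 1 ≤ a) (h0 : lam i₀ ≤ M + b)
    (hrec : ∀ i, i₀ ≤ i → i + 2 ≤ N → lam i ≤ a * (lam i - lam (i + 2)) + b) :
    ∀ m : ℕ, i₀ + 2 * m ≤ N → lam (i₀ + 2 * m) ≤ (1 - 1 / a) ^ m * M + b := by
  intro m
  induction m with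
  | zero => intro _; simpa using h0
  | succ m ih =>
    intro hm
    have h1 := ih (by omega)
    have h2 := hrec (i₀ + 2 * m) (by omega) (by omega)
    have e : i₀ + 2 * (m + 1) = i₀ + 2 * m + 2 := by ring
    rw [e]
    set x := lam (i₀ + 2 * m) with hx
    set y := lam (i₀ + 2 * m + 2) with hy
    have ha0 : 0 < a := by linarith
    have hq : 0 ≤ 1 - 1 / a := by
      rw [sub_nonneg, div_le_one ha0]; exact ha
    have h3 : y ≤ (1 - 1 / a) * x + b / a := by
      have h4 : a * y ≤ (a - 1) * x + b := by linarith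
      have h5 : (1 - 1 / a) * x + b / a = ((a - 1) * x + b) / a := by field_simp
      rw [h5, le_div_iff₀ ha0]
      linarith
    have h6 : (1 - 1 / a) * x ≤ (1 - 1 / a) * ((1 - 1 / a) ^ m * M + b) :=
      mul_le_mul_of_nonneg_left h1 hq
    have h7 : (1 - 1 / a) * ((1 - 1 / a) ^ m * M + b) + b / a = (1 - 1 / a) ^ (m + 1) * M + b := by
      rw [pow_succ]; ring
    linarith

end ModSeqN

open ModSeqN in
theorem thmSeqN : StSeqN := by
  refine ⟨240, ?_⟩
  intro K N hK hNK hN lam θ hθ hθK hlog hrec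
  have hKr : (240 : ℝ) ≤ K := by exact_mod_cast hK
  have hK1 : (1 : ℝ) ≤ K := le_trans (by norm_num) hKr
  have hK0 : (0 : ℝ) < K := by linarith
  set L : ℝ := Real.log K + 1 with hL
  have hlog0 : 0 ≤ Real.log K := Real.log_nonneg hK1
  have hL1 : 1 ≤ L := by rw [hL]; linarith
  have hL0 : 0 < L := by linarith
  have hLK : L ≤ K := by
    have := Real.log_le_sub_one_of_pos hK0
    rw [hL]; linarith
  have hlogK : Real.log K ≤ K := by linarith
  have hN0' : (0 : ℝ) ≤ N := Nat.cast_nonneg N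
  have hN16 : 16 ≤ N := by
    by_contra h
    have h1 : (N : ℝ) ≤ 15 := by
      have : N ≤ 15 := by omega
      exact_mod_cast this
    have h2 : (N : ℝ) ^ 2 ≤ 225 := by nlinarith
    have h3 : (1 : ℝ) ≤ L ^ 2 := one_le_pow₀ hL1
    have h4 : (240000 : ℝ) * 1 ≤ 1000 * (K : ℝ) * L ^ 2 :=
      mul_le_mul (by linarith) h3 (by norm_num) (by positivity)
    linarith
  have hN0 : (0 : ℝ) < N := by
    have : 0 < N := by omega
    exact_mod_cast this
  have hN1 : (1 : ℝ) ≤ N := by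
    have : 1 ≤ N := by omega
    exact_mod_cast this
  have hNK' : 4 * (N : ℝ) ≤ K := by exact_mod_cast hNK
  set a : ℝ := 3 * (2 * K / N) * L with ha
  have haE : a = 6 * K * L / N := by rw [ha]; ring
  have ha1 : 1 ≤ a := by
    rw [haE, le_div_iff₀ hN0]
    nlinarith
  have ha0 : 0 < a := by linarith
  set b : ℝ := 60 * (2 * K / N) * L * K ^ 4 * θ with hb
  have hb0 : 0 ≤ b := by rw [hb]; positivity
  set i₀ : ℕ := N / 2 with hi₀
  set m : ℕ := N / 4 with hm
  have hi2 : 2 ≤ i₀ := by omega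
  have him : i₀ + 2 * m ≤ N := by omega
  have h0 : lam i₀ ≤ Real.log K + b := by
    have := hlog i₀ hi2 (by omega)
    linarith
  have hit := iterate (lam := lam) (a := a) (b := b) (M := Real.log K) (i₀ := i₀) (N := N)
    ha1 h0 (fun i hi hi' => hrec i (by omega) hi' (by omega)) m him
  refine ⟨i₀ + 2 * m, by omega, him, hit.trans ?_⟩
  -- the exponential term
  have hmr : (N : ℝ) / 5 ≤ m := by
    have h1 : N ≤ 5 * m := by omega
    have h2 : (N : ℝ) ≤ 5 * m := by exact_mod_cast h1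
    linarith
  have hexp : (1 - 1 / a) ^ m ≤ 1 / (K : ℝ) ^ 10 := by
    have hq : 0 ≤ 1 - 1 / a := by
      rw [sub_nonneg, div_le_one ha0]; linarith
    have h1 : (1 - 1 / a) ≤ Real.exp (-(1 / a)) := by
      have := Real.add_one_le_exp (-(1 / a))
      linarith
    calc (1 - 1 / a) ^ m ≤ Real.exp (-(1 / a)) ^ m := pow_le_pow_left₀ hq h1 m
      _ = Real.exp (m * -(1 / a)) := (Real.exp_nat_mul _ m).symm
      _ ≤ Real.exp (-(10 * Real.log K)) := by
        apply Real.exp_le_exp.mpr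
        have h2 : 10 * Real.log K ≤ m * (1 / a) := by
          rw [mul_one_div, le_div_iff₀ ha0, haE]
          have h3 : 10 * Real.log K * (6 * K * L / N) = 60 * K * (Real.log K * L) / N := by ring
          rw [h3, div_le_iff₀ hN0]
          have h4 : Real.log K * L ≤ L ^ 2 := by
            rw [pow_two]; exact mul_le_mul_of_nonneg_right (by linarith) hL0.le
          have h5 : 60 * (K : ℝ) * (Real.log K * L) ≤ 60 * (K : ℝ) * L ^ 2 :=
            mul_le_mul_of_nonneg_left h4 (by positivity)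
          have h6 : (N : ℝ) / 5 * N ≤ m * N := mul_le_mul_of_nonneg_right hmr hN0.le
          have h7 : (0 : ℝ) ≤ (K : ℝ) * L ^ 2 := by positivity
          nlinarith
        linarith
      _ = 1 / (K : ℝ) ^ 10 := by
        rw [Real.exp_neg, one_div]
        congr 1
        rw [show (10 : ℝ) * Real.log K = ((10 : ℕ) : ℝ) * Real.log K by norm_num,
          Real.exp_nat_mul, Real.exp_log hK0]
  have hterm : (1 - 1 / a) ^ m * Real.log K ≤ 1 / (2 * K ^ 8) := by
    calc (1 - 1 / a) ^ m * Real.log K ≤ 1 / (K : ℝ) ^ 10 * K := by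
          apply mul_le_mul hexp hlogK hlog0 (by positivity)
      _ = 1 / K ^ 9 := by
          field_simp
      _ ≤ 1 / (2 * K ^ 8) := by
          apply one_div_le_one_div_of_le (by positivity)
          have h8 : (0 : ℝ) ≤ (K : ℝ) ^ 8 := by positivity
          calc 2 * (K : ℝ) ^ 8 ≤ K * (K : ℝ) ^ 8 := mul_le_mul_of_nonneg_right (by linarith) h8
            _ = (K : ℝ) ^ 9 := by ring
  have hbt : b ≤ 1 / (2 * K ^ 8) := by
    have h1 : θ ≤ 1 / (K : ℝ) ^ 20 := by
      rw [le_div_iff₀ (by positivity)]; exact hθK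
    have h2 : 2 * (K : ℝ) / N ≤ 2 * K := by
      rw [div_le_iff₀ hN0]
      nlinarith
    have h3 : 60 * (2 * (K : ℝ) / N) * L * K ^ 4 ≤ 60 * (2 * K) * K * K ^ 4 := by
      apply mul_le_mul_of_nonneg_right _ (by positivity)
      apply mul_le_mul _ hLK hL0.le (by positivity)
      linarith
    have h4 : b ≤ 60 * (2 * K) * K * K ^ 4 * (1 / (K : ℝ) ^ 20) := by
      rw [hb]
      exact mul_le_mul h3 h1 hθ (by positivity)
    refine h4.trans ?_
    rw [mul_one_div, div_le_div_iff₀ (by positivity) (by positivity)]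
    have h5 : (240 : ℝ) ≤ K ^ 6 := by
      calc (240 : ℝ) ≤ K := hKr
        _ = K ^ 1 := (pow_one _).symm
        _ ≤ K ^ 6 := pow_le_pow_right₀ hK1 (by norm_num)
    have h6 : (0 : ℝ) ≤ (K : ℝ) ^ 14 := by positivity
    calc 60 * (2 * (K : ℝ)) * (K : ℝ) * (K : ℝ) ^ 4 * (2 * (K : ℝ) ^ 8) = (K : ℝ) ^ 14 * 240 := by
          ring
      _ ≤ (K : ℝ) ^ 14 * (K : ℝ) ^ 6 := mul_le_mul_of_nonneg_left h5 h6
      _ = 1 * (K : ℝ) ^ 20 := by ring
  have hfin : (1 : ℝ) / (2 * K ^ 8) + 1 / (2 * K ^ 8) = 1 / K ^ 8 := by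
    field_simp; norm_num
  linarith

end Pool.Agent.Lib.MP_b1acb3_co.Leaf
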