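import Pool.Agent.Lib.MP_b1acb3_co.Leaf.Stmts

/-!
Module Split: one of the ears is taken as the last one.
-/

namespace Pool.Agent.Lib.MP_b1acb3_co.Leaf

open Finset Uni

theorem thmSplit : StSplit := by
  classical
  intro V _ G W W₁ q k m P i _ hP
  let W₂ : Finset V := W.filter fun v => ¬ ∃ j, 1 ≤ j ∧ j ≤ m i ∧ P i j = v
  have hW2 : ∀ v, v ∈ W₂ ↔ v ∈ W ∧ ¬ ∃ j, 1 ≤ j ∧ j ≤ m i ∧ P i j = v := fun v => mem_filter
  have hsub1 : W₁ ⊆ W₂ := by
    intro v hv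
    rw [hW2]
    refine ⟨hP.sub hv, ?_⟩
    rintro ⟨j, h1, h2, h3⟩
    apply (hP.inner i j h1 h2).2
    rw [h3]
    exact hv
  refine ⟨W₂, ?_, ?_⟩
  · refine ⟨hsub1, fun a => hP.long _, fun a => hP.start _, fun a => hP.stop _, ?_, ?_, ?_,
      fun a j hj => hP.adj _ j hj, ?_, fun a j h1 h2 => hP.ne _ j h1 h2⟩
    · intro a j h1 h2
      refine ⟨?_, (hP.inner _ j h1 h2).2⟩
      rw [hW2]
      refine ⟨(hP.inner _ j h1 h2).1, ?_⟩
      rintro ⟨j', h3, h4, h5⟩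
      have h6 := hP.inj i j' (i.succAbove a) j h3 h4 h1 h2 h5
      exact Fin.succAbove_ne i a h6.1.symm
    · intro a j a' j' h1 h2 h3 h4 h
      have h5 := hP.inj _ j _ j' h1 h2 h3 h4 h
      exact ⟨Fin.succAbove_right_injective h5.1, h5.2⟩
    · intro v hv hv1
      rw [hW2] at hv
      obtain ⟨i', j, h1, h2, h3⟩ := hP.cover v hv.1 hv1
      have hne : i' ≠ i := by
        rintro rfl
        exact hv.2 ⟨j, h1, h2, h3⟩
      obtain ⟨a, ha⟩ := Fin.exists_succAbove_eq hne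
      subst ha
      exact ⟨a, j, h1, h2, h3⟩
    · intro a j u h1 h2 hu hadj
      exact hP.only _ j u h1 h2 ((hW2 u).1 hu).1 hadj
  · refine ⟨filter_subset _ _, fun _ => hP.long i, fun _ => hsub1 (hP.start i),
      fun _ => hsub1 (hP.stop i), ?_, ?_, ?_, fun _ j hj => hP.adj i j hj,
      fun _ j u h1 h2 hu hadj => hP.only i j u h1 h2 hu hadj, fun _ j h1 h2 => hP.ne i j h1 h2⟩
    · intro _ j h1 h2
      refine ⟨(hP.inner i j h1 h2).1, ?_⟩
      rw [hW2]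
      rintro ⟨_, h3⟩
      exact h3 ⟨j, h1, h2, rfl⟩
    · intro a j a' j' h1 h2 h3 h4 h
      exact ⟨Subsingleton.elim _ _, (hP.inj i j i j' h1 h2 h3 h4 h).2⟩
    · intro v hv hv2
      rw [hW2] at hv2
      by_contra hcon
      apply hv2
      refine ⟨hv, ?_⟩
      rintro ⟨j, h1, h2, h3⟩
      exact hcon ⟨0, j, h1, h2, h3⟩

end Pool.Agent.Lib.MP_b1acb3_co.Leaf
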