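import Pool.Agent.Lib.MP_b1acb3_co.Leaf.Stmts
import Pool.Agent.Lib.MP_b1acb3_co.Uni.G4

/-!
(StruE) The hypotheses `Struct` from small sets `reach {a, b}`.
-/

namespace Pool.Agent.Lib.MP_b1acb3_co.Leaf

open Finset Uni

theorem thmStruE : StStruE := by
  intro K θ ζ hK hθ hζ
  have hK0 : 0 < K := by omega
  have hKR : (0 : ℝ) < K := by exact_mod_cast hK0
  have hK2 : (2 : ℝ) ≤ K := by exact_mod_cast hK
  refine ⟨θ / K ^ 2, by positivity, ⌈1 / θ⌉₊ + 1, ?_⟩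
  intro n hn c B hB hmu
  have hn0 : 0 < n := by omega
  have hnR : (0 : ℝ) < n := by exact_mod_cast hn0
  have hnθ : 1 ≤ (n : ℝ) * θ := by
    have h1 : 1 / θ ≤ (⌈1 / θ⌉₊ : ℝ) := Nat.le_ceil _
    have h2 : ((⌈1 / θ⌉₊ + 1 : ℕ) : ℝ) ≤ n := by exact_mod_cast hn
    push_cast at h2
    have h3 : 1 / θ ≤ n := by linarith
    rw [div_le_iff₀ hθ] at h3
    exact h3
  have hδ : (0 : ℝ) < θ / K ^ 2 := by positivity
  refine thmG4 n K c B θ (θ / K ^ 2) ζ ζ hn0 hK hθ hδ (fun k i j => hB.lower hδ.le k i j) ?_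
    le_rfl ?_ hmu
  · intro i k
    have h1 := hB.deg_ge i k
    have h2 : (n : ℝ) * (θ / K ^ 2) ≤ n * θ := by
      apply mul_le_mul_of_nonneg_left _ hnR.le
      rw [div_le_iff₀ (by positivity)]
      nlinarith [mul_pos hθ hKR]
    have h3 : 2 * ((n : ℝ) * θ) ≤ ζ * ((n : ℝ) / K) := by
      have h4 : 2 * K * θ * ((n : ℝ) / K) ≤ ζ * ((n : ℝ) / K) :=
        mul_le_mul_of_nonneg_right hζ (by positivity)
      have h5 : 2 * K * θ * ((n : ℝ) / K) = 2 * (n * θ) := by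
        field_simp
      linarith
    have h6 : (1 - ζ) * n / K = (n : ℝ) / K - ζ * ((n : ℝ) / K) := by
      ring
    rw [h6]
    linarith
  · have h1 : (K : ℝ) ^ 3 * (θ / K ^ 2) = K * θ := by
      field_simp
    rw [h1]
    linarith

end Pool.Agent.Lib.MP_b1acb3_co.Leaf
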