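import Pool.Agent.Lib.MP_b1acb3_co.Leaf.Stmts
import Pool.Agent.Lib.MP_b1acb3_co.Uni.Three
import Pool.Agent.Lib.MP_b1acb3_co.Uni.Main

/-!
Conclusion of the analytic part for `d ≥ 3`.
-/

namespace Pool.Agent.Lib.MP_b1acb3_co.Leaf

open Finset Uni

open Uni.ModE Uni.ModThree in
theorem thmThreeN : StThreeN := by
  refine ⟨4000, ?_⟩
  intro K hK n P R θ N hS hθ hN4 hN2 hLow
  have hP := hS.markov
  have hθ0 := hS.nonneg
  have hKn : 100 ≤ K := by omega
  have hK' : (4000 : ℝ) ≤ K := by exact_mod_cast hK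
  have hK0 : (0 : ℝ) < K := by linarith
  have hK1' : (1 : ℝ) ≤ K := by linarith
  -- the logarithm
  have hlog0 : 0 ≤ Real.log K := Real.log_nonneg hK1'
  set L : ℝ := Real.log K + 1 with hL
  have hL1 : 1 ≤ L := by linarith
  have hN0 : (0 : ℝ) ≤ N := Nat.cast_nonneg N
  have hN4' : 4 * (N : ℝ) ≤ K := by exact_mod_cast hN4
  have hLsq : 1 ≤ L ^ 2 := by nlinarith
  have hN2' : 1000 * (K : ℝ) ≤ (N : ℝ) ^ 2 := by
    calc 1000 * (K : ℝ) = 1000 * K * 1 := by ring
      _ ≤ 1000 * K * L ^ 2 := mul_le_mul_of_nonneg_left hLsq (by positivity)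
      _ ≤ _ := hN2
  have hNbig : (4000 : ℝ) ≤ N := by
    have h1 : 1000 * (4 * (N : ℝ)) ≤ (N : ℝ) ^ 2 := by linarith
    by_contra hcon
    push Not at hcon
    have h2 : (N : ℝ) ^ 2 < N * 4000 ∨ (N : ℝ) = 0 := by
      rcases hN0.lt_or_eq with h | h
      · left
        rw [sq]
        exact mul_lt_mul_of_pos_left hcon h
      · right; exact h.symm
    rcases h2 with h2 | h2
    · linarith
    · rw [h2] at hN2'
      norm_num at hN2'
      linarith
  have hNn : 4000 ≤ N := by exact_mod_cast hNbig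
  -- small numbers
  have hK6 : (K : ℝ) ^ 6 * θ ≤ 1 / (K : ℝ) ^ 2 := by
    rw [le_div_iff₀ (by positivity)]
    calc (K : ℝ) ^ 6 * θ * (K : ℝ) ^ 2 = θ * (K : ℝ) ^ 8 := by ring
      _ ≤ θ * (K : ℝ) ^ 20 := by
        apply mul_le_mul_of_nonneg_left _ hθ0
        exact pow_le_pow_right₀ hK1' (by norm_num)
      _ ≤ 1 := hθ
  have hK4 : (K : ℝ) ^ 4 * θ ≤ (K : ℝ) ^ 6 * θ :=
    mul_le_mul_of_nonneg_right (pow_le_pow_right₀ hK1' (by norm_num)) hθ0
  have hK2 : (K : ℝ) ^ 2 * θ ≤ (K : ℝ) ^ 6 * θ :=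
    mul_le_mul_of_nonneg_right (pow_le_pow_right₀ hK1' (by norm_num)) hθ0
  have hKsq : 1 / (K : ℝ) ^ 2 ≤ 1 / 4000 := by
    apply one_div_le_one_div_of_le (by norm_num)
    nlinarith
  have hη0 : (0 : ℝ) ≤ (K : ℝ) ^ 3 * θ := by positivity
  have hgr : Grows P (rem R 3) ((K : ℝ) ^ 3 * θ) := grows_rem hP R θ hθ0 hS.grow 3
  have hD : ∀ Q : Finset (Fin K), Q.card ≤ N → 1 / 2 ≤ dfc (rem R 3) Q := by
    intro Q hQ
    have h1 := hLow Q hQ
    have h2 : (K : ℝ) ^ (3 + 1) * θ = (K : ℝ) ^ 4 * θ := by norm_num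
    rw [mul_assoc, h2] at h1
    linarith
  -- the summed inequality
  set g : ℝ := (N : ℝ) / (13 * K) with hg
  set m : ℕ → ℝ := fun i => EQ K i (fun Q => mu (rem R 2 Q)) with hm
  have hstep : ∀ i : ℕ, N / 2 + 1 ≤ i → i + 1 ≤ N →
      m i + 4 / 3 * lamE (rem R 3) (i + 1) + g ≤ m (i + 1) + 4 / 3 * lamE (rem R 3) i := by
    intro i hi hiN
    have hi2 : (N : ℝ) ≤ 2 * i := by
      have : N ≤ 2 * i := by omega
      exact_mod_cast this
    have s1 := mean_step thmChain all_E hS hKn (i := i) (by omega) (by omega)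
    have s2 := (all_L n K P (rem R 3) ((K : ℝ) ^ 3 * θ) i hP hη0 hgr (by omega) (by
      intro Q hQ
      apply hD
      rcases hQ with h | h <;> omega)).2.1
    have s3 : EQ K i (pp R) ≤ (4 / (K : ℝ)) * sE (rem R 3) i + 8 * ((K : ℝ) ^ 4 * θ) := by
      have h3 : EQ K i (pp R) ≤ EQ K i (fun Q => (4 / (K : ℝ)) *
          (loss (rem R 3) Q / dfc (rem R 3) Q) + 8 * ((K : ℝ) ^ 4 * θ)) := by
        apply EQ_mono
        intro Q hQ
        exact pp_le thmA hS hKn Q (by omega) (hD Q (by omega))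
      rw [EQ_add, EQ_mul, EQ_const (by omega)] at h3
      exact h3
    have s4 : (4 / (K : ℝ)) * sE (rem R 3) i = 4 * (sE (rem R 3) i / K) := by ring
    rw [s4] at s3
    have s5 : (N : ℝ) / (4 * K) ≤ (i : ℝ) / (2 * K) := by
      rw [div_le_div_iff₀ (by positivity) (by positivity)]
      nlinarith
    have s8 : 2 * (K : ℝ) * ((K : ℝ) ^ 3 * θ) = 2 * ((K : ℝ) ^ 4 * θ) := by ring
    rw [s8] at s2
    have s9 : g + 8 * (1 / (K : ℝ) ^ 2) ≤ 1 / 3 * ((N : ℝ) / (4 * K)) := by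
      have h1 : 8 * (1 / (K : ℝ) ^ 2) ≤ (N : ℝ) / (156 * K) := by
        rw [mul_one_div, div_le_div_iff₀ (by positivity) (by positivity)]
        have h2 : 8 * (156 * (K : ℝ)) ≤ N * K := by nlinarith
        nlinarith
      have h2 : 1 / 3 * ((N : ℝ) / (4 * K)) = g + (N : ℝ) / (156 * K) := by
        rw [hg]
        field_simp
        ring
      linarith
    have s10 : 0 < 1 / (K : ℝ) ^ 2 := by positivity
    simp only [hm]
    linarith
  have hsum : ∀ k : ℕ, N / 2 + 1 + k ≤ N →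
      m (N / 2 + 1) + 4 / 3 * lamE (rem R 3) (N / 2 + 1 + k) + k * g ≤
        m (N / 2 + 1 + k) + 4 / 3 * lamE (rem R 3) (N / 2 + 1) := by
    intro k
    induction k with
    | zero => intro _; simp
    | succ k ih =>
      intro hk
      have i1 := ih (by omega)
      have i2 := hstep (N / 2 + 1 + k) (by omega) (by omega)
      have e : N / 2 + 1 + (k + 1) = N / 2 + 1 + k + 1 := by omega
      rw [e]
      push_cast
      linarith
  -- the end points
  set k := N - (N / 2 + 1) with hk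
  have hk1 : N / 2 + 1 + k = N := by omega
  have f1 := hsum k (by omega)
  rw [hk1] at f1
  have hkl : (N : ℝ) / 2 - 2 ≤ k := by
    have : N ≤ 2 * k + 4 := by omega
    have h3 : (N : ℝ) ≤ 2 * k + 4 := by exact_mod_cast this
    linarith
  have hm0 : 0 ≤ m (N / 2 + 1) := by
    simp only [hm]
    exact EQ_nonneg fun Q => mu_nonneg _
  have hm1 : m N ≤ 1 := by
    simp only [hm]
    calc _ ≤ EQ K N (fun _ => (1 : ℝ)) := EQ_mono fun Q _ => mu_le_one _
      _ = 1 := EQ_const (by omega) 1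
  have hl0 : lamE (rem R 3) (N / 2 + 1) ≤ Real.log K :=
    (all_L n K P (rem R 3) ((K : ℝ) ^ 3 * θ) (N / 2 + 1) hP hη0 hgr (by omega) (by
      intro Q hQ
      apply hD
      rcases hQ with h | h <;> omega)).2.2.2
  have hl1 : -1 ≤ lamE (rem R 3) N := by
    unfold lamE
    calc (-1 : ℝ) = EQ K N (fun _ => (-1 : ℝ)) := (EQ_const (by omega) (-1)).symm
      _ ≤ _ := by
        apply EQ_mono
        intro Q hQ
        have h3 := hD Q (by omega)
        have h4 : Real.log (1 / 2) ≤ Real.log (dfc (rem R 3) Q) :=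
          Real.log_le_log (by norm_num) h3
        have h5 : Real.log (1 / 2) = -Real.log 2 := by
          rw [one_div, Real.log_inv]
        have h6 := Real.log_two_lt_d9
        linarith
  -- comparison
  have hg0 : 0 ≤ g := by positivity
  have h1 : ((N : ℝ) / 2 - 2) * g ≤ 1 + 4 / 3 * L := by
    have h2 := mul_le_mul_of_nonneg_right hkl hg0
    rw [hL]
    linarith
  have h2 : 37 * L ^ 2 ≤ ((N : ℝ) / 2 - 2) * g := by
    rw [hg, mul_div_assoc', le_div_iff₀ (by positivity)]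
    have h3 : 37 * L ^ 2 * (13 * (K : ℝ)) = 481 / 1000 * (1000 * K * L ^ 2) := by ring
    rw [h3]
    have h4 : 481 / 1000 * (1000 * (K : ℝ) * L ^ 2) ≤ 481 / 1000 * (N : ℝ) ^ 2 :=
      mul_le_mul_of_nonneg_left hN2 (by norm_num)
    have h5 : 481 / 1000 * (N : ℝ) ^ 2 ≤ ((N : ℝ) / 2 - 2) * N := by nlinarith
    linarith
  nlinarith

end Pool.Agent.Lib.MP_b1acb3_co.Leaf
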