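import Pool.Agent.Lib.MP_b1acb3_co.Leaf.Stmts
import Pool.Agent.Lib.MP_b1acb3_co.Cyc.Count

/-!
No rainbow copy implies `Tight`.
-/

namespace Pool.Agent.Lib.MP_b1acb3_co.Leaf

open Finset Uni

theorem thmTight (hX : StCoreX) (hS : StSplit) (hE : StEars2) (hL : StLast) : StTight := by
  classical
  intro V _ G W W₁ q k d d' N m P i θ hθ hW hP h1 hd h2 h3 h4 h5
  set K := numEdges G + 1 with hKdef
  have hK : 0 < K := Nat.succ_pos _
  have hKR : (0 : ℝ) < K := by exact_mod_cast hK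
  have hk : 1 ≤ k := by
    rcases Nat.eq_zero_or_pos k with rfl | hk
    · exfalso
      have h6 : (0 : ℕ).choose d' ≤ 1 := by
        rcases Nat.eq_zero_or_pos d' with rfl | hd'
        · simp
        · rw [Nat.choose_eq_zero_of_lt hd']
          exact Nat.zero_le _
      have h7 : 1 ≤ K ^ 2 := Nat.one_le_pow _ _ hK
      omega
    · exact hk
  obtain ⟨W₂, hP₂, hP₁⟩ := hS V G W W₁ q k m P i hk hP
  have hc₂ := (Cyc.count_ears V G W₂ W₁ q k _ _ hk hP₂).1
  have hc₁ := (Cyc.count_ears V G W W₂ 1 k _ _ hk hP₁).1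
  rw [Fin.sum_univ_one] at hc₁
  obtain ⟨δ₁, hδ₁, n₁, hE'⟩ := hE V G W₂ W₁ q k d' K _ _ hK hP₂ h1
  obtain ⟨δ₂, hδ₂, n₂, hL'⟩ := hL V G W W₂ k (m i) (P i) θ hθ hk hW hP₁
  obtain ⟨n₃, hX'⟩ := hX V G W₁ K N hK h2 h3
  have hδ₃ : (0 : ℝ) < 1 / (K : ℝ) ^ 2 := by positivity
  refine ⟨min (min δ₁ δ₂) (1 / (K : ℝ) ^ 2), lt_min (lt_min hδ₁ hδ₂) hδ₃, n₁ + n₂ + n₃, ?_⟩
  intro n hn c B hB hno
  have hB₁ : Env c B δ₁ := hB.mono ((min_le_left _ _).trans (min_le_left _ _))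
  have hB₂ : Env c B δ₂ := hB.mono ((min_le_left _ _).trans (min_le_right _ _))
  have hB₃ : Env c B (1 / (K : ℝ) ^ 2) := hB.mono (min_le_right _ _)
  have hdeg : ∀ i k, (colourDegree c i k : ℝ) ≤ 2 * ((n : ℝ) / K) := by
    intro a b
    have h6 := hB₃.deg_le hδ₃.le a b
    have h7 : (n : ℝ) * (K * (1 / (K : ℝ) ^ 2)) = (n : ℝ) / K := by
      field_simp
    rw [h7] at h6
    linarith
  intro x Q₁ hQ₁
  obtain ⟨f₀, hf₀, hf₀x, hf₀', hf₀Q⟩ := hX' n (by omega) c hdeg (P i 0) x Q₁ hQ₁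
  set F : Finset (Fin K) := (edgesIn G W₁).image (fun e => c (e.map f₀)) with hF
  have hFcard : F.card = numEdgesIn G W₁ := by
    rw [hF, card_image_of_injOn hf₀', card_edgesIn]
  have hFmem : ∀ e ∈ edgesIn G W₁, c (e.map f₀) ∈ F := fun e he =>
    mem_image_of_mem (fun e => c (e.map f₀)) he
  refine ⟨f₀ (P i (m i + 1)), F, hFcard.le, ?_, ?_⟩
  · rw [Finset.disjoint_left]
    intro a ha
    rw [hF, mem_image] at ha
    obtain ⟨e, he, rfl⟩ := ha
    exact hf₀Q e he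
  intro Q hQ hFQ
  have hcard : (F ∪ Q).card ≤ numEdgesIn G W₁ + N :=
    (card_union_le _ _).trans (by omega)
  obtain ⟨f, w, hf, hfW, hfinj, hfnew, -, -, -⟩ := hE' n (by omega) c B hB₁ f₀ hf₀ hf₀' (F ∪ Q)
    (fun e he => mem_union_left _ (hFmem e he))
    (le_trans (Nat.mul_le_mul_left _ (by omega)) h4)
    (by
      have h6 : numEdgesIn G W₂ + (m i + 1) = numEdgesIn G W := hc₁.symm
      omega)
  have hfW1 : ∀ e ∈ edgesIn G W₁, e.map f = e.map f₀ := by
    intro e he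
    exact map_congr_of e f f₀ (fun x hx => hfW x (((mem_edgesIn G W₁ e).1 he).2 x hx))
  set E : Finset (Fin K) := (edgesIn G W₂).image (fun e => c (e.map f)) with hEdef
  have hEcard : E.card = numEdgesIn G W₂ := by
    rw [hEdef, card_image_of_injOn hfinj, card_edgesIn]
  have hEmem : ∀ e ∈ edgesIn G W₂, c (e.map f) ∈ E := fun e he =>
    mem_image_of_mem (fun e => c (e.map f)) he
  refine ⟨Eᶜ, ?_, ?_, ?_⟩
  · intro a ha
    rw [mem_compl]
    intro haE
    rw [hEdef, mem_image] at haE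
    obtain ⟨e, he, rfl⟩ := haE
    by_cases he₁ : e ∈ edgesIn G W₁
    · rw [hfW1 e he₁] at ha
      exact (Finset.disjoint_left.1 hFQ) (hFmem e he₁) ha
    · exact hfnew e he he₁ (mem_union_right _ ha)
  · rw [card_compl, Fintype.card_fin, hEcard]
    have h6 : numEdgesIn G W₂ + (m i + 1) = numEdgesIn G W := hc₁.symm
    omega
  · intro U U' hU hU' hdisj hUT hU'T hcardU
    by_contra hcon
    push Not at hcon
    apply hno
    have hx : f (P i 0) = x := by rw [hfW _ (hP.start i), hf₀x]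
    have hy : f (P i (m i + 1)) = f₀ (P i (m i + 1)) := hfW _ (hP.stop i)
    refine hL' n (by omega) c B hB₂ f hf hfinj U U' hU hU' hdisj hcardU ?_ ?_
    · intro e he
      exact ⟨fun h => (mem_compl.1 (hUT h)) (hEmem e he),
        fun h => (mem_compl.1 (hU'T h)) (hEmem e he)⟩
    · rw [hx, hy]
      exact hcon

end Pool.Agent.Lib.MP_b1acb3_co.Leaf
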