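import Pool.Agent.Lib.MP_b1acb3_co.Leaf.TN
import Pool.Agent.Lib.MP_b1acb3_co.Uni.Main

/-!
Module (TwoN): conclusion of the analytic part for `d = 2`.
-/

namespace Pool.Agent.Lib.MP_b1acb3_co.Leaf

open Finset Uni

theorem Tight.mono {n K : ℕ} {R : Fin n → Finset (Fin K) → Finset (Fin n)} {θ : ℝ}
    {l d h N N' : ℕ} (hT : Tight R θ l d h N') (hN : N ≤ N') : Tight R θ l d h N := by
  intro x Q₁ hQ₁
  obtain ⟨y, F, h1, h2, h3⟩ := hT x Q₁ (by omega)
  exact ⟨y, F, h1, h2, fun Q hQ hF => h3 Q (by omega) hF⟩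

theorem thmTwoN (hRec : StRecN) (hSeq : StSeqN) (hPair : StPairN) (hLow : StLowN)
    (hPL : StPairLow) : StTwoN := by
  obtain ⟨K₁, hK₁⟩ := hSeq
  obtain ⟨K₂, hK₂⟩ := hPair
  refine ⟨max 12 (max K₁ K₂), ?_⟩
  intro K hK n P R θ l h N hS hθ hN4 hNK hhN hNl hT x a b hab
  have hK12 : 12 ≤ K := (le_max_left _ _).trans hK
  have hKK₁ : K₁ ≤ K := ((le_max_left _ _).trans (le_max_right _ _)).trans hK
  have hKK₂ : K₂ ≤ K := ((le_max_right _ _).trans (le_max_right _ _)).trans hK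
  have hθ0 := (hS x).nonneg
  have hθ6 := small_theta hK12 hθ0 hθ
  obtain ⟨y, F, hF, hQ⟩ := hPL n K P R θ l h N hS hT (by omega) x a b hab
  have hlow : Low (R y) θ 2 N :=
    hLow n K P R θ l 2 h N 2 hS (hT.mono (by omega)) (by omega) (by norm_num) le_rfl y
  have hK' : (12 : ℝ) ≤ K := by exact_mod_cast hK12
  have hK0 : (0 : ℝ) < K := by linarith
  -- `N` is positive
  have hNpos : 0 < N := by
    rcases Nat.eq_zero_or_pos N with h0 | h0
    · exfalso
      rw [h0] at hNK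
      have h1 : 0 ≤ Real.log K := Real.log_nonneg (by linarith)
      have h2 : (1 : ℝ) ≤ (Real.log K + 1) ^ 2 := by nlinarith
      have h3 : (0 : ℝ) < 1000 * (K : ℝ) * (Real.log K + 1) ^ 2 := by positivity
      norm_num at hNK
      linarith
    · exact h0
  have hNR : (0 : ℝ) < N := by exact_mod_cast hNpos
  have hA : (2 : ℝ) ≤ 2 * K / N := by
    rw [le_div_iff₀ hNR]
    have : (4 : ℝ) * N ≤ K := by exact_mod_cast hN4
    linarith
  obtain ⟨i, hi1, hi2, hi3⟩ := hK₁ K N hKK₁ hN4 hNK (lamE (rem (R y) 2)) θ hθ0 hθ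
    (by
      intro i hi hiN
      have hg := grows_rem (hS y).markov (R y) θ hθ0 (hS y).grow 2
      -- the bound holds for every system
      unfold lamE
      calc EQ K i (fun Q => Real.log (dfc (rem (R y) 2) Q)) ≤ EQ K i (fun _ => Real.log K) := by
            apply ModL.EQ_mono
            intro Q hQi
            have h1 := (low_half hK12 hθ0 hθ6 hlow Q (by omega)).2
            exact Real.log_le_log (by linarith) (dfc_le _ Q)
        _ = Real.log K := ModL.EQ_const (by omega) _)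
    (fun i hi hiN hi2 => hRec n K P (R y) θ N (2 * K / N) (hS y) hK12 hθ6 hlow hA i hi hiN
      (by omega) (by
        have h1 : (N : ℝ) ≤ 2 * ((i : ℝ) + 1) := by exact_mod_cast hi2
        rw [div_mul_eq_mul_div, le_div_iff₀ hNR]
        have := mul_le_mul_of_nonneg_left h1 hK0.le
        linarith))
  refine hK₂ K hKK₂ n (R y) θ (K * mu (R x {a, b})) N i F hθ0 hθ hlow hi2 (by omega) ?_ hi3 ?_
  · calc 2 * F.card * i ≤ 2 * (h + 2) * N := Nat.mul_le_mul (Nat.mul_le_mul_left _ hF) hi2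
      _ ≤ K := hhN
  · intro Q hQi hFQ
    exact hQ Q (by omega) hFQ

end Pool.Agent.Lib.MP_b1acb3_co.Leaf
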