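import Pool.Agent.Lib.MP_b1acb3_co.Leaf.SysE
import Pool.Agent.Lib.MP_b1acb3_co.Leaf.StruE
import Pool.Agent.Lib.MP_b1acb3_co.Leaf.CoreX
import Pool.Agent.Lib.MP_b1acb3_co.Leaf.Split
import Pool.Agent.Lib.MP_b1acb3_co.Leaf.Ears2
import Pool.Agent.Lib.MP_b1acb3_co.Leaf.Last
import Pool.Agent.Lib.MP_b1acb3_co.Leaf.Tight
import Pool.Agent.Lib.MP_b1acb3_co.Leaf.LowN
import Pool.Agent.Lib.MP_b1acb3_co.Leaf.PairLow
import Pool.Agent.Lib.MP_b1acb3_co.Leaf.TN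
import Pool.Agent.Lib.MP_b1acb3_co.Leaf.MN
import Pool.Agent.Lib.MP_b1acb3_co.Leaf.RecN
import Pool.Agent.Lib.MP_b1acb3_co.Leaf.SeqN
import Pool.Agent.Lib.MP_b1acb3_co.Leaf.PairN
import Pool.Agent.Lib.MP_b1acb3_co.Leaf.TwoN
import Pool.Agent.Lib.MP_b1acb3_co.Leaf.ThreeN
import Pool.Agent.Lib.MP_b1acb3_co.Leaf.S6
import Pool.Agent.Lib.MP_b1acb3_co.Leaf.Label
import Pool.Agent.Lib.MP_b1acb3_co.Leaf.Ker
import Pool.Agent.Lib.MP_b1acb3_co.Leaf.Class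
import Pool.Agent.Lib.MP_b1acb3_co.Leaf.ReachL
import Pool.Agent.Lib.MP_b1acb3_co.Leaf.CoreY
import Pool.Agent.Lib.MP_b1acb3_co.Leaf.HandV
import Pool.Agent.Lib.MP_b1acb3_co.Leaf.Even
import Pool.Agent.Lib.MP_b1acb3_co.Leaf.OddNe
import Pool.Agent.Lib.MP_b1acb3_co.Leaf.Num
import Pool.Agent.Lib.MP_b1acb3_co.Leaf.Final
import Pool.Agent.Lib.MP_b1acb3_co.Uni.S1
import Pool.Agent.Lib.MP_b1acb3_co.Uni.S2
import Pool.Agent.Lib.MP_b1acb3_co.Uni.S3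
import Pool.Agent.Lib.MP_b1acb3_co.Uni.S4

/-!
All modules together.
-/

namespace Pool.Agent.Lib.MP_b1acb3_co.Leaf

theorem all_Tight : StTight := thmTight thmCoreX thmSplit thmEars2 thmLast

theorem all_Two : StTwoN :=
  thmTwoN (thmRecN (thmMN thmTN)) thmSeqN thmPairN thmLowN thmPairLow

theorem all_Label : StLabel :=
  thmLabel (Uni.thmS3 (Uni.thmS2 Uni.thmS1)) Uni.thmS4 thmS6

theorem all_Even : StEven :=
  thmEven thmClass (thmReachL thmClass) thmKer (thmCoreY thmClass) thmHandV thmSplit thmEars2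
    thmLast

theorem all_Final : StFinal :=
  thmFinal thmSysE thmStruE all_Tight thmLowN all_Two thmThreeN all_Label all_Even thmOddNe
    thmNum

end Pool.Agent.Lib.MP_b1acb3_co.Leaf
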