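import Pool.Agent.Lib.MP_b1acb3_co.Uni.G3
import Pool.Agent.Lib.MP_b1acb3_co.Leaf.Stmts
import Pool.Agent.Lib.MP_b1acb3_co.Leaf.Basic

set_option autoImplicit false

/-!
(SysE) The sets `reach` form a system.
-/

namespace Pool.Agent.Lib.MP_b1acb3_co.Leaf

open Finset Uni

theorem thmSysE : StSysE := by
  classical
  intro K θ hK hθ
  have hKR : (0 : ℝ) < K := by exact_mod_cast hK
  obtain ⟨n₁, hn₁⟩ := exists_nat_ge (2 / θ)
  refine ⟨θ / 2, by positivity, max n₁ 1, ?_⟩
  intro n hn c B hE x
  have hnn₁ : n₁ ≤ n := (le_max_left _ _).trans hn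
  have hn0 : 0 < n := (le_max_right _ _).trans hn
  have hnR : (0 : ℝ) < n := by exact_mod_cast hn0
  refine ⟨markov_nrm hn0 hK B hE.exact, hθ.le, ?_, ?_, ?_, ?_, ?_⟩
  · intro Q a ha y hy
    unfold reach at hy ⊢
    rw [card_insert_of_notMem ha] at hy
    rcases Nat.eq_zero_or_pos Q.card with h1 | h1
    · rw [h1]
      simp only [reachN, app_empty]
      exact hθ.le
    · obtain ⟨k, hk⟩ : ∃ k, Q.card = k + 1 := ⟨Q.card - 1, by omega⟩
      rw [hk] at hy ⊢
      simp only [reachN, mem_filter, mem_univ, true_and, not_exists, not_and, not_lt] at hy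
      have h2 := hy a (mem_insert_self a Q)
      rwa [erase_insert ha] at h2
  · unfold reach
    rw [card_empty]
    rfl
  · intro a
    rw [reach_singleton]
    have h1 := hE.deg_ge x a
    have h2 : (nbr c x a).card = colourDegree c x a := rfl
    unfold mu
    rw [h2, le_div_iff₀ hnR]
    have h3 : 2 ≤ θ * n := by
      have h4 : 2 / θ ≤ n := hn₁.trans (by exact_mod_cast hnn₁)
      rwa [div_le_iff₀ hθ, mul_comm] at h4
    have h5 : (1 / (K : ℝ) - θ) * n = n / K - θ * n := by
      field_simp
    rw [h5]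
    linarith
  · intro a b hab
    rw [reach_singleton, reach_singleton, disjoint_left]
    intro y hy hy2
    simp only [nbr, mem_filter, mem_univ, true_and] at hy hy2
    exact hab (hy.2.symm.trans hy2.2)
  · intro U U' hU hU' hdis hcard
    exfalso
    have h1 : (U ∪ U').card ≤ K := by
      have := card_le_univ (U ∪ U')
      rwa [Fintype.card_fin] at this
    rw [card_union_of_disjoint hdis] at h1
    omega

end Pool.Agent.Lib.MP_b1acb3_co.Leaf
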