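import Pool.Agent.Lib.MP_b1acb3_co.Leaf.Stmts
import Pool.Agent.Lib.MP_b1acb3_co.Uni.L
import Pool.Agent.Lib.MP_b1acb3_co.Uni.A

/-!
Module (TN): the bad event is rare.
-/

namespace Pool.Agent.Lib.MP_b1acb3_co.Leaf

open Finset Uni

theorem low_half {n K : ℕ} {R : Finset (Fin K) → Finset (Fin n)} {θ : ℝ} {N : ℕ} (hK : 12 ≤ K)
    (hθ0 : 0 ≤ θ) (hθ : 100 * (K : ℝ) ^ 6 * θ ≤ 1) (hlow : Low R θ 2 N) (Q : Finset (Fin K))
    (hQ : Q.card ≤ N) :
    1 - 2 * (K : ℝ) ^ 3 * θ ≤ dfc (rem R 2) Q ∧ 1 / 2 ≤ dfc (rem R 2) Q := by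
  have h1 := hlow Q hQ
  norm_num at h1
  have hK' : (12 : ℝ) ≤ K := by exact_mod_cast hK
  have h6 : (K : ℝ) ^ 3 * θ ≤ (K : ℝ) ^ 6 * θ := by
    apply mul_le_mul_of_nonneg_right _ hθ0
    exact pow_le_pow_right₀ (by linarith) (by norm_num)
  constructor <;> linarith

open ModL in
theorem thmTN : StTN := by
  intro n K P R θ N hS hK hθ hlow i hi hiN hiK
  have hP := hS.markov
  have hθ0 := hS.nonneg
  have hK0 : (0 : ℝ) < K := by exact_mod_cast hP.kpos
  have hK12 : (12 : ℝ) ≤ K := by exact_mod_cast hK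
  have hiK' : 4 * (i : ℝ) ≤ K := by exact_mod_cast hiK
  have hi0 : (0 : ℝ) ≤ i := Nat.cast_nonneg i
  -- sizes of the error terms
  have hK3 : (0 : ℝ) ≤ (K : ℝ) ^ 3 * θ := by positivity
  have hK2 : (K : ℝ) ^ 2 * θ ≤ (K : ℝ) ^ 3 * θ := by
    apply mul_le_mul_of_nonneg_right _ hθ0
    nlinarith [sq_nonneg (K : ℝ)]
  have hK6 : (K : ℝ) ^ 3 * θ ≤ (K : ℝ) ^ 6 * θ := by
    apply mul_le_mul_of_nonneg_right _ hθ0
    exact pow_le_pow_right₀ (by linarith) (by norm_num)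
  have hK3s : (K : ℝ) ^ 3 * θ ≤ 1 / 100 := by nlinarith
  have hη0 : (0 : ℝ) ≤ (K : ℝ) ^ 2 * θ := by positivity
  have hgr : Grows P (rem R 2) ((K : ℝ) ^ 2 * θ) := grows_rem hP R θ hθ0 hS.grow 2
  -- lower bound for the defect
  have hD : ∀ Q : Finset (Fin K), Q.card = i → 1 / 2 ≤ dfc (rem R 2) Q := fun Q hQ =>
    (low_half hK hθ0 hθ hlow Q (by omega)).2
  have hpt : ∀ Q : Finset (Fin K), Q.card = i →
      bad R θ Q - 10 * (K : ℝ) ^ 3 * θ ≤
        (2 / (K : ℝ)) * (loss (rem R 2) Q / dfc (rem R 2) Q) := by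
    intro Q hQ
    have hD1 := hD Q hQ
    have hD1' : 0 < dfc (rem R 2) Q := by linarith
    have hcard : ((Qᶜ.card : ℕ) : ℝ) = (K : ℝ) - i := by
      rw [card_compl, Fintype.card_fin, hQ, Nat.cast_sub (by omega)]
    set D := dfc (rem R 2) Q with hDdef
    set L := loss (rem R 2) Q with hLdef
    have herr : (K : ℝ) * ((K : ℝ) ^ 2 * θ) / D ≤ 2 * ((K : ℝ) ^ 3 * θ) := by
      rw [div_le_iff₀ hD1']
      nlinarith
    by_cases hb : 3 / 4 - (Q.card : ℝ) * K * θ ≤ mu (rem R 1 Q)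
    · have hbad : bad R θ Q = 1 := by
        unfold bad
        rw [if_pos hb]
      have e1 := (thmA n K P (rem R 2) (rem R 1) ((K : ℝ) ^ 2 * θ) hP hη0 hgr
        (fun Q c hc => rem_sub R 1 Q c hc) Q hD1').1
      rw [← hDdef, ← hLdef, hQ] at e1
      rw [hQ] at hb
      have e2 : (i : ℝ) / K ≤ 1 / 4 := by
        rw [div_le_iff₀ hK0]; linarith
      have e3 : (L / K + K * ((K : ℝ) ^ 2 * θ)) / D = L / D / K + (K : ℝ) * ((K : ℝ) ^ 2 * θ) / D := by
        rw [add_div, div_right_comm]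
      rw [e3] at e1
      have e4 : (i : ℝ) * K * θ ≤ (K : ℝ) ^ 3 * θ := by
        apply mul_le_mul_of_nonneg_right _ hθ0
        have : (i : ℝ) * K ≤ K * K := mul_le_mul_of_nonneg_right (by linarith) hK0.le
        nlinarith
      have e5 : (2 / (K : ℝ)) * (L / D) = 2 * (L / D / K) := by ring
      rw [hbad, e5]
      nlinarith
    · have hbad : bad R θ Q = 0 := by
        unfold bad
        rw [if_neg hb]
      have e1 : -((K : ℝ) * ((K : ℝ) ^ 3 * θ)) ≤ L := by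
        have e2 : -(((K : ℝ) - i) * (K * ((K : ℝ) ^ 2 * θ))) ≤ L := by
          rw [hLdef]
          unfold loss
          calc -(((K : ℝ) - i) * (K * ((K : ℝ) ^ 2 * θ)))
              = ∑ _c ∈ Qᶜ, (-((K : ℝ) * ((K : ℝ) ^ 2 * θ))) := by
                rw [sum_const, nsmul_eq_mul, hcard]; ring
            _ ≤ _ := by
                apply sum_le_sum
                intro c hc
                have h3 := dfc_grow hP (rem R 2) _ hη0 hgr Q c (mem_compl.1 hc)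
                linarith
        have e3 : ((K : ℝ) - i) * (K * ((K : ℝ) ^ 2 * θ)) ≤ K * ((K : ℝ) ^ 3 * θ) := by
          have e4 : (0 : ℝ) ≤ K * ((K : ℝ) ^ 2 * θ) := by positivity
          nlinarith
        linarith
      have e5 : -(2 * ((K : ℝ) * ((K : ℝ) ^ 3 * θ))) ≤ L / D := by
        rw [le_div_iff₀ hD1']
        have e6 : (0 : ℝ) ≤ (K : ℝ) * ((K : ℝ) ^ 3 * θ) := by positivity
        nlinarith
      have e7 : (2 / (K : ℝ)) * (-(2 * ((K : ℝ) * ((K : ℝ) ^ 3 * θ)))) ≤ (2 / (K : ℝ)) * (L / D) :=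
        mul_le_mul_of_nonneg_left e5 (by positivity)
      have e8 : (2 / (K : ℝ)) * (-(2 * ((K : ℝ) * ((K : ℝ) ^ 3 * θ)))) = -(4 * ((K : ℝ) ^ 3 * θ)) := by
        field_simp
        ring
      rw [hbad]
      linarith
  have hE := EQ_mono (K := K) (i := i) hpt
  rw [EQ_sub, EQ_const (by omega), EQ_mul] at hE
  have hs : EQ K i (fun Q => loss (rem R 2) Q / dfc (rem R 2) Q) = sE (rem R 2) i := rfl
  rw [hs] at hE
  linarith

end Pool.Agent.Lib.MP_b1acb3_co.Leaf
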